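import Pool.Agent.TH76.LehP.Sums
import Pool.Agent.H343R2.EH.Psi
import Pool.Agent.H343R2.EH.Primes

set_option autoImplicit false

namespace Pool.Agent.TH76.LehP

open Finset
open scoped ArithmeticFunction.vonMangoldt

/-- Bombieri-Vinogradov for the residue class `1` -/
lemma bv_one : ∃ B x0 : ℕ, ∀ x : ℕ, x0 ≤ x → ∀ D : ℕ,
    (D : ℝ) ≤ x / Real.log x ^ B → (D : ℝ) ^ 2 ≤ x / Real.log x ^ B →
    ∑ q ∈ Icc 1 D, |((P1 x q).card : ℝ) - ((PP x).card : ℝ) / (Nat.totient q : ℝ)| ≤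
      x / Real.log x ^ 2 := by
  obtain ⟨B, x0, h⟩ := H343E.primes_of 2 (H343E.unsmoothed (2 + 2))
  refine ⟨B, x0, fun x hx D h1 h2 => ?_⟩
  have h3 := h x hx 1 le_rfl D h1 (by rw [one_mul]; exact h2)
    (fun q => if q = 0 then ∅ else {1 % q}) (by
      constructor
      · intro q a ha
        split_ifs at ha with h0
        · simp at ha
        · rw [Finset.mem_singleton] at ha
          subst ha
          refine ⟨Nat.mod_lt _ (Nat.pos_of_ne_zero h0), ?_⟩
          rcases Nat.lt_or_ge 1 q with hq | hq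
          · rw [Nat.mod_eq_of_lt hq]; exact Nat.coprime_one_left q
          · have : q = 1 := by omega
            subst this; exact Nat.coprime_one_right _
      · intro q
        split_ifs <;> simp)
  rw [one_mul] at h3
  refine le_trans (le_of_eq ?_) h3
  apply Finset.sum_congr rfl
  intro q hq
  rw [mem_Icc] at hq
  have hq0 : q ≠ 0 := by omega
  simp only [hq0, if_false, Finset.sum_singleton]
  have e1 : H343E.piAP x q (1 % q) = ((P1 x q).card : ℝ) := by
    unfold H343E.piAP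
    congr 2
    ext p
    rw [mem_filter, mem_Icc, mem_P1]
    have key : p.Prime → (p ≡ 1 % q [MOD q] ↔ q ∣ p - 1) := by
      intro hp
      have h4 : (p ≡ 1 % q [MOD q]) ↔ (1 ≡ p [MOD q]) := by
        unfold Nat.ModEq
        rw [Nat.mod_mod]
        exact eq_comm
      rw [h4, Nat.modEq_iff_dvd' hp.one_lt.le]
    constructor
    · rintro ⟨⟨_, h2⟩, h3, h4⟩; exact ⟨h2, h3, (key h3).1 h4⟩
    · rintro ⟨h2, h3, h4⟩; exact ⟨⟨h3.pos, h2⟩, h3, (key h3).2 h4⟩
  have e2 : H343E.pi1 x = ((PP x).card : ℝ) := rfl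
  rw [e1, e2]

/-- the contribution of the moduli covered by Bombieri-Vinogradov -/
lemma bv_part : ∃ C : ℝ, 0 < C ∧ ∃ B x0 : ℕ, ∀ x : ℕ, x0 ≤ x → ∀ D : ℕ, 1 ≤ D →
    (D : ℝ) ≤ x / Real.log x ^ B → (D : ℝ) ^ 2 ≤ x / Real.log x ^ B → (D : ℝ) ^ 2 ≤ x →
    ∑ d ∈ Icc 1 D, Λ d * ((P1 x d).card : ℝ) ≤
      ((PP x).card : ℝ) * ((1 / 2) * Real.log x + C) + x / Real.log x := by
  obtain ⟨C, hC, h1⟩ := sum_vm_totient
  obtain ⟨B, x0, h2⟩ := bv_one
  refine ⟨C, hC, B, x0 + 3, fun x hx D hD1 hD2 hD3 hD4 => ?_⟩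
  have hx' : (3 : ℝ) ≤ x := by exact_mod_cast (by omega : 3 ≤ x)
  have hL : 0 < Real.log x := Real.log_pos (by linarith)
  have hD1' : (1 : ℝ) ≤ D := by exact_mod_cast hD1
  have hlogD : 2 * Real.log D ≤ Real.log x := by
    have := Real.log_le_log (by positivity) hD4
    rw [Real.log_pow] at this
    exact_mod_cast this
  have h3 := h1 D hD1
  have h4 := h2 x (by omega) D hD2 hD3
  have hterm : ∀ d ∈ Icc 1 D, Λ d * ((P1 x d).card : ℝ) ≤
      ((PP x).card : ℝ) * (Λ d / (Nat.totient d : ℝ)) + Real.log x *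
      |((P1 x d).card : ℝ) - ((PP x).card : ℝ) / (Nat.totient d : ℝ)| := by
    intro d hd
    rw [mem_Icc] at hd
    have h5 : Λ d ≤ Real.log x := by
      refine ArithmeticFunction.vonMangoldt_le_log.trans ?_
      apply Real.log_le_log (by exact_mod_cast hd.1)
      have : (d : ℝ) ≤ D := by exact_mod_cast hd.2
      nlinarith
    have h6 : 0 ≤ Λ d := ArithmeticFunction.vonMangoldt_nonneg
    have h7 := le_abs_self (((P1 x d).card : ℝ) - ((PP x).card : ℝ) / (Nat.totient d : ℝ))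
    have h8 := abs_nonneg (((P1 x d).card : ℝ) - ((PP x).card : ℝ) / (Nat.totient d : ℝ))
    have h9 : ((PP x).card : ℝ) * (Λ d / (Nat.totient d : ℝ)) =
        Λ d * (((PP x).card : ℝ) / (Nat.totient d : ℝ)) := by ring
    rw [h9]
    nlinarith
  refine (Finset.sum_le_sum hterm).trans ?_
  rw [Finset.sum_add_distrib, ← Finset.mul_sum, ← Finset.mul_sum]
  have h10 : ((PP x).card : ℝ) * ∑ d ∈ Icc 1 D, Λ d / (Nat.totient d : ℝ) ≤
      ((PP x).card : ℝ) * ((1 / 2) * Real.log x + C) := by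
    apply mul_le_mul_of_nonneg_left _ (Nat.cast_nonneg _)
    linarith
  have h11 : Real.log x * ∑ d ∈ Icc 1 D,
      |((P1 x d).card : ℝ) - ((PP x).card : ℝ) / (Nat.totient d : ℝ)| ≤ x / Real.log x := by
    calc _ ≤ Real.log x * (x / Real.log x ^ 2) := mul_le_mul_of_nonneg_left h4 hL.le
      _ = x / Real.log x := by field_simp
  linarith

end Pool.Agent.TH76.LehP
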