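import Mathlib
import Pool.Agent.Erdos456.Tot
import Pool.Agent.Erdos456.Sieve
import Pool.Agent.Helper923.PPS.BT
import Pool.Agent.Helper923.HMertens

set_option autoImplicit false

/-!
Shifted primes with a large prime factor (towards a Goldfeld type theorem): basic counting facts.
-/

namespace Pool.Agent.TH76.LehP

open Finset
open scoped ArithmeticFunction.vonMangoldt

/-- the primes `p ≤ t` with `d ∣ p - 1` -/
def P1 (t d : ℕ) : Finset ℕ := (Icc 1 t).filter (fun p => p.Prime ∧ d ∣ p - 1)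

/-- the primes `p ≤ t` -/
def PP (t : ℕ) : Finset ℕ := (Icc 1 t).filter (fun p => p.Prime)

lemma mem_P1 {t d p : ℕ} : p ∈ P1 t d ↔ p ≤ t ∧ p.Prime ∧ d ∣ p - 1 := by
  unfold P1
  rw [mem_filter, mem_Icc]
  constructor
  · rintro ⟨⟨_, h2⟩, h3⟩; exact ⟨h2, h3⟩
  · rintro ⟨h2, h3⟩; exact ⟨⟨h3.1.pos, h2⟩, h3⟩

lemma mem_PP {t p : ℕ} : p ∈ PP t ↔ p ≤ t ∧ p.Prime := by
  unfold PP
  rw [mem_filter, mem_Icc]
  constructor
  · rintro ⟨⟨_, h2⟩, h3⟩; exact ⟨h2, h3⟩
  · rintro ⟨h2, h3⟩; exact ⟨⟨h3.pos, h2⟩, h3⟩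

lemma card_PP (t : ℕ) : (PP t).card = Nat.primeCounting t := by
  rw [Nat.primeCounting, Nat.primeCounting', Nat.count_eq_card_filter_range]
  congr 1
  ext p
  rw [mem_PP, mem_filter, mem_range, Nat.lt_succ_iff]

/-- the basic identity -/
lemma sum_log_shift (t : ℕ) :
    ∑ p ∈ PP t, Real.log ((p - 1 : ℕ) : ℝ) = ∑ d ∈ Icc 1 t, Λ d * ((P1 t d).card : ℝ) := by
  have h1 : ∀ p ∈ PP t, Real.log ((p - 1 : ℕ) : ℝ) =
      ∑ d ∈ Icc 1 t, if d ∣ p - 1 then Λ d else 0 := by
    intro p hp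
    rw [mem_PP] at hp
    rw [← ArithmeticFunction.vonMangoldt_sum, ← Finset.sum_filter]
    apply Finset.sum_congr _ (fun _ _ => rfl)
    ext d
    rw [Nat.mem_divisors, mem_filter, mem_Icc]
    have hp2 := hp.2.two_le
    constructor
    · rintro ⟨h1, h2⟩
      have := Nat.le_of_dvd (by omega) h1
      have := Nat.pos_of_dvd_of_pos h1 (by omega)
      exact ⟨⟨by omega, by omega⟩, h1⟩
    · rintro ⟨_, h2⟩
      exact ⟨h2, by omega⟩
  rw [Finset.sum_congr rfl h1, Finset.sum_comm]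
  apply Finset.sum_congr rfl
  intro d _
  rw [← Finset.sum_filter, Finset.sum_const, nsmul_eq_mul, mul_comm]
  congr 3
  ext p
  rw [mem_filter, mem_PP, mem_P1]
  tauto

/-- trivial bound for the number of primes `≡ 1` -/
lemma P1_card_le (t d : ℕ) (hd : 1 ≤ d) : ((P1 t d).card : ℝ) ≤ t / d := by
  have h1 : (P1 t d).card ≤ t / d := by
    rw [← Nat.card_multiples t d]
    apply Finset.card_le_card_of_injOn (fun p => p - 2)
    · intro p hp
      rw [Finset.mem_coe, mem_P1] at hp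
      have := hp.2.1.two_le
      rw [Finset.mem_coe, mem_filter, mem_range]
      refine ⟨by simp only []; omega, ?_⟩
      have h2 : p - 2 + 1 = p - 1 := by omega
      simp only []
      rw [h2]; exact hp.2.2
    · intro p hp q hq hpq
      rw [Finset.mem_coe, mem_P1] at hp hq
      have := hp.2.1.two_le
      have := hq.2.1.two_le
      simp only [] at hpq
      omega
  calc ((P1 t d).card : ℝ) ≤ ((t / d : ℕ) : ℝ) := by exact_mod_cast h1
    _ ≤ t / d := Nat.cast_div_le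

/-- `S(t) ≥ (7/8) log t (π(t) - t^{7/8} - 1)` -/
lemma sum_log_shift_ge (t : ℕ) (ht : 2 ≤ t) :
    (7 / 8) * Real.log t * ((PP t).card - (t : ℝ) ^ (7 / 8 : ℝ) - 1) ≤
      ∑ p ∈ PP t, Real.log ((p - 1 : ℕ) : ℝ) := by
  have ht' : (0 : ℝ) < t := by exact_mod_cast (by omega : 0 < t)
  have hL : 0 ≤ Real.log t := Real.log_nonneg (by exact_mod_cast (by omega : 1 ≤ t))
  set K : ℕ := ⌊(t : ℝ) ^ (7 / 8 : ℝ)⌋₊ with hK
  have hKle : (K : ℝ) ≤ (t : ℝ) ^ (7 / 8 : ℝ) := Nat.floor_le (by positivity)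
  have hlow : ∀ p ∈ PP t, (if K + 1 < p then (7 / 8) * Real.log t else 0) ≤
      Real.log ((p - 1 : ℕ) : ℝ) := by
    intro p hp
    rw [mem_PP] at hp
    have hp2 := hp.2.two_le
    split_ifs with h
    · have h1 : (t : ℝ) ^ (7 / 8 : ℝ) ≤ ((p - 1 : ℕ) : ℝ) := by
        have h2 : (t : ℝ) ^ (7 / 8 : ℝ) < (K : ℝ) + 1 := Nat.lt_floor_add_one _
        have h3 : ((K + 1 : ℕ) : ℝ) ≤ ((p - 1 : ℕ) : ℝ) := by
          exact_mod_cast (by omega : K + 1 ≤ p - 1)
        push_cast at h3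
        push_cast
        linarith
      calc (7 / 8) * Real.log t = Real.log ((t : ℝ) ^ (7 / 8 : ℝ)) := by
            rw [Real.log_rpow ht']
        _ ≤ _ := Real.log_le_log (by positivity) h1
    · exact Real.log_nonneg (by exact_mod_cast (by omega : 1 ≤ p - 1))
  refine le_trans ?_ (Finset.sum_le_sum hlow)
  rw [← Finset.sum_filter, Finset.sum_const, nsmul_eq_mul, mul_comm]
  apply mul_le_mul_of_nonneg_right _ (by positivity)
  have h4 : (PP t).card ≤ ((PP t).filter (fun p => K + 1 < p)).card + (K + 1) := by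
    have h5 := Finset.card_filter_add_card_filter_not (s := PP t) (fun p => K + 1 < p)
    have h6 : ((PP t).filter (fun p => ¬ K + 1 < p)).card ≤ (Icc 1 (K + 1)).card := by
      apply Finset.card_le_card
      intro p hp
      rw [mem_filter, mem_PP] at hp
      rw [mem_Icc]
      have := hp.1.2.two_le
      omega
    rw [Nat.card_Icc] at h6
    omega
  have h7 : ((PP t).card : ℝ) ≤ (((PP t).filter (fun p => K + 1 < p)).card : ℝ) + ((K : ℝ) + 1) := by
    exact_mod_cast h4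
  linarith

/-- Chebyshev's lower bound -/
lemma cheb_lower : ∃ T : ℕ, ∀ t : ℕ, T ≤ t → (1 / 2) * (t : ℝ) ≤ (PP t).card * Real.log t := by
  refine ⟨200, fun t ht => ?_⟩
  have h1 := Chebyshev.pi_ge t
  rw [card_PP]
  have ht' : (200 : ℝ) ≤ t := by exact_mod_cast ht
  have hL : 0 < Real.log t := Real.log_pos (by linarith)
  rw [div_le_iff₀ hL] at h1
  refine le_trans ?_ h1
  have hl2 := Real.log_two_gt_d9
  have h2 : Real.log ((t : ℝ) + 1) ≤ t / 10 := by
    have h3 : Real.log ((t : ℝ) + 1) = 2 * Real.log (Real.sqrt ((t : ℝ) + 1)) := by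
      rw [Real.log_sqrt (by linarith)]; ring
    have h4 : Real.log (Real.sqrt ((t : ℝ) + 1)) ≤ Real.sqrt ((t : ℝ) + 1) / 2 := by
      have h5 : 0 < Real.sqrt ((t : ℝ) + 1) / 2 := by positivity
      have h6 := Real.log_le_sub_one_of_pos h5
      rw [Real.log_div (by positivity) (by norm_num)] at h6
      have h7 := Real.log_two_lt_d9
      linarith
    have h8 : Real.sqrt ((t : ℝ) + 1) ≤ t / 10 := by
      rw [Real.sqrt_le_left (by positivity)]
      nlinarith
    linarith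
  nlinarith

end Pool.Agent.TH76.LehP
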