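import Pool.Agent.TH76.LehP.Range
import Pool.Agent.TH76.LehP.BVone

set_option autoImplicit false

namespace Pool.Agent.TH76.LehP

open Finset Filter
open scoped ArithmeticFunction.vonMangoldt Topology

/-- splitting of the sum over the moduli -/
lemma split_sum (t D y z : ℕ) (hDy : D ≤ y) (hyz : y ≤ z) (hzt : z ≤ t) :
    ∑ d ∈ Icc 1 t, Λ d * ((P1 t d).card : ℝ) ≤
      ∑ d ∈ Icc 1 D, Λ d * ((P1 t d).card : ℝ) + t * ∑ d ∈ Ioc D t, npf d +
      ∑ q ∈ (Ioc D y).filter (fun q => q.Prime), Real.log q * ((P1 t q).card : ℝ) +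
      ∑ q ∈ (Ioc y z).filter (fun q => q.Prime), Real.log q * ((P1 t q).card : ℝ) +
      ∑ q ∈ (Ioc z t).filter (fun q => q.Prime), Real.log q * ((P1 t q).card : ℝ) := by
  set f : ℕ → ℝ := fun d => Λ d * ((P1 t d).card : ℝ) with hf
  set g : ℕ → ℝ := fun q => Real.log q * ((P1 t q).card : ℝ) with hg
  have h1 : ∑ d ∈ Icc 1 t, f d = ∑ d ∈ Icc 1 D, f d + ∑ d ∈ Ioc D t, f d := by
    rw [← Finset.sum_union]
    · apply Finset.sum_congr _ (fun _ _ => rfl)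
      ext q
      simp only [mem_union, mem_Icc, mem_Ioc]
      omega
    · rw [Finset.disjoint_left]
      intro q h1 h2
      simp only [mem_Icc, mem_Ioc] at h1 h2
      omega
  have h2 : ∀ d ∈ Ioc D t, f d ≤ t * npf d + (if d.Prime then g d else 0) := by
    intro d hd
    rw [mem_Ioc] at hd
    by_cases hp : d.Prime
    · simp only [hp, if_true, hf, hg]
      rw [vm_prime_div hp]
      have := npf_nonneg d
      have : 0 ≤ (t : ℝ) * npf d := by positivity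
      linarith
    · simp only [hp, if_false, hf, npf, add_zero]
      have h3 := P1_card_le t d (by omega)
      have h4 : 0 ≤ Λ d := ArithmeticFunction.vonMangoldt_nonneg
      calc Λ d * ((P1 t d).card : ℝ) ≤ Λ d * (t / d) := mul_le_mul_of_nonneg_left h3 h4
        _ = t * (Λ d / d) := by ring
  have h3 : ∑ d ∈ Ioc D t, (if d.Prime then g d else 0) =
      ∑ q ∈ (Ioc D y).filter (fun q => q.Prime), g q +
      ∑ q ∈ (Ioc y z).filter (fun q => q.Prime), g q +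
      ∑ q ∈ (Ioc z t).filter (fun q => q.Prime), g q := by
    rw [← Finset.sum_filter, ← Finset.sum_union, ← Finset.sum_union]
    · apply Finset.sum_congr _ (fun _ _ => rfl)
      ext q
      simp only [mem_union, mem_filter, mem_Ioc]
      constructor
      · rintro ⟨h1, h2⟩
        rcases Nat.lt_or_ge y q with h3 | h3
        · rcases Nat.lt_or_ge z q with h4 | h4
          · exact Or.inr ⟨by omega, h2⟩
          · exact Or.inl (Or.inr ⟨by omega, h2⟩)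
        · exact Or.inl (Or.inl ⟨by omega, h2⟩)
      · rintro ((⟨h1, h2⟩ | ⟨h1, h2⟩) | ⟨h1, h2⟩)
        · exact ⟨by omega, h2⟩
        · exact ⟨by omega, h2⟩
        · exact ⟨by omega, h2⟩
    · rw [Finset.disjoint_left]
      intro q h1 h2
      simp only [mem_union, mem_filter, mem_Ioc] at h1 h2
      omega
    · rw [Finset.disjoint_left]
      intro q h1 h2
      simp only [mem_filter, mem_Ioc] at h1 h2
      omega
  have h4 := Finset.sum_le_sum h2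
  rw [Finset.sum_add_distrib, ← Finset.mul_sum, h3] at h4
  rw [h1]
  linarith

lemma ev_log (A : ℝ) : ∀ᶠ t : ℕ in atTop, A ≤ Real.log t :=
  (Real.tendsto_log_atTop.comp tendsto_natCast_atTop_atTop).eventually_ge_atTop A

lemma ev_rpow (A s : ℝ) (hs : 0 < s) : ∀ᶠ t : ℕ in atTop, A ≤ (t : ℝ) ^ s :=
  ((tendsto_rpow_atTop hs).comp tendsto_natCast_atTop_atTop).eventually_ge_atTop A

lemma ev_logpow (B : ℕ) (s : ℝ) (hs : 0 < s) : ∀ᶠ t : ℕ in atTop, Real.log t ^ B ≤ (t : ℝ) ^ s := by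
  have h := isLittleO_log_rpow_rpow_atTop (B : ℝ) hs
  have h2 := (h.def one_pos)
  have h3 := (tendsto_natCast_atTop_atTop (R := ℝ)).eventually h2
  filter_upwards [h3] with t ht
  rw [Real.rpow_natCast, one_mul, Real.norm_eq_abs, Real.norm_eq_abs,
    abs_of_nonneg (by positivity : (0 : ℝ) ≤ (t : ℝ) ^ s)] at ht
  exact (le_abs_self _).trans ht

/-- the Goldfeld type bound -/
theorem goldA : ∃ c₀ κ : ℝ, 0 < c₀ ∧ 0 < κ ∧ κ ≤ 1 / 4 ∧ ∃ T : ℕ, ∀ t y : ℕ, T ≤ t → t ≤ y ^ 2 →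
    (y : ℝ) ≤ (t : ℝ) ^ (1 / 2 + κ) →
    c₀ * (t / Real.log t) ≤
      ∑ q ∈ (Ioc y ⌊(t : ℝ) ^ (1 - κ)⌋₊).filter (fun q => q.Prime), ((P1 t q).card : ℝ) := by
  obtain ⟨C1, hC1, B, x0, hbv⟩ := bv_part
  obtain ⟨C2, hC2, hmid⟩ := mid_part
  obtain ⟨C3, hC3, hfar⟩ := far_part
  obtain ⟨T1, hT1⟩ := cheb_lower
  obtain ⟨D0, hD0⟩ := npf_tail (1 / 64) (by norm_num)
  obtain ⟨κ, hκ⟩ : ∃ κ : ℝ, κ = min (1 / 4) (1 / (64 * (C2 + C3))) := ⟨_, rfl⟩
  have hκ0 : 0 < κ := by rw [hκ]; positivity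
  have hκ4 : κ ≤ 1 / 4 := by rw [hκ]; exact min_le_left _ _
  have hκC : (C2 + C3) * κ ≤ 1 / 64 := by
    have h1 : κ ≤ 1 / (64 * (C2 + C3)) := by rw [hκ]; exact min_le_right _ _
    have h2 : 0 < C2 + C3 := by linarith
    calc (C2 + C3) * κ ≤ (C2 + C3) * (1 / (64 * (C2 + C3))) := mul_le_mul_of_nonneg_left h1 h2.le
      _ = 1 / 64 := by field_simp
  have hev : ∀ᶠ t : ℕ in atTop, x0 ≤ t ∧ T1 ≤ t ∧ 256 ≤ t ∧ 8 * C1 ≤ Real.log t ∧
      64 * (1 + C2 + C3) ≤ Real.log t ∧ Real.log t ^ B ≤ (t : ℝ) ^ (2 * κ) ∧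
      ((D0 : ℝ) + 1) ≤ (t : ℝ) ^ (1 / 2 - κ) ∧ Real.log t ^ 2 ≤ (t : ℝ) ^ (1 / 8 : ℝ) ∧
      128 ≤ Real.log t := by
    filter_upwards [eventually_ge_atTop x0, eventually_ge_atTop T1, eventually_ge_atTop 256,
      ev_log (8 * C1), ev_log (64 * (1 + C2 + C3)), ev_logpow B (2 * κ) (by linarith),
      ev_rpow ((D0 : ℝ) + 1) (1 / 2 - κ) (by linarith), ev_logpow 2 (1 / 8) (by norm_num),
      ev_log 128] with t h1 h2 h3 h4 h5 h6 h7 h8 h9
    exact ⟨h1, h2, h3, h4, h5, h6, h7, h8, h9⟩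
  obtain ⟨T, hT⟩ := eventually_atTop.mp hev
  refine ⟨1 / 16, κ, by norm_num, hκ0, hκ4, T, fun t y htT hty hy => ?_⟩
  obtain ⟨ht0, ht1, ht2, hl1, hl2, hl3, hl4, hl5, hl6⟩ := hT t htT
  have ht' : (256 : ℝ) ≤ t := by exact_mod_cast ht2
  have htp : (0 : ℝ) < t := by linarith
  have hL : 0 < Real.log t := by linarith
  set L := Real.log t with hLdef
  set D : ℕ := ⌊(t : ℝ) ^ (1 / 2 - κ)⌋₊ with hD
  set z : ℕ := ⌊(t : ℝ) ^ (1 - κ)⌋₊ with hz
  have hDD0 : D0 + 1 ≤ D := by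
    apply Nat.le_floor
    push_cast
    exact hl4
  have hD1 : 1 ≤ D := by omega
  have hDle : (D : ℝ) ≤ (t : ℝ) ^ (1 / 2 - κ) := Nat.floor_le (by positivity)
  have hDge : (t : ℝ) ^ (1 / 2 - κ) ≤ 2 * (D : ℝ) := by
    have h1 : (t : ℝ) ^ (1 / 2 - κ) < (D : ℝ) + 1 := Nat.lt_floor_add_one _
    have h2 : (1 : ℝ) ≤ D := by exact_mod_cast hD1
    linarith
  have hDD : (D : ℝ) ^ 2 ≤ (t : ℝ) ^ (1 - 2 * κ) := by
    calc (D : ℝ) ^ 2 ≤ ((t : ℝ) ^ (1 / 2 - κ)) ^ 2 := pow_le_pow_left₀ (by positivity) hDle 2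
      _ = (t : ℝ) ^ (1 - 2 * κ) := by
          rw [← Real.rpow_natCast, ← Real.rpow_mul htp.le]
          congr 1
          push_cast
          ring
  have hDt : (D : ℝ) ^ 2 ≤ t / L ^ B := by
    rw [le_div_iff₀ (by positivity)]
    calc (D : ℝ) ^ 2 * L ^ B ≤ (t : ℝ) ^ (1 - 2 * κ) * (t : ℝ) ^ (2 * κ) :=
          mul_le_mul hDD hl3 (by positivity) (by positivity)
      _ = t := by rw [← Real.rpow_add htp]; simp
  have hDt1 : (D : ℝ) ≤ t / L ^ B := by
    have h2 : (1 : ℝ) ≤ D := by exact_mod_cast hD1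
    refine le_trans ?_ hDt
    rw [pow_two]
    exact le_mul_of_one_le_right (by positivity) h2
  have hDt2 : (D : ℝ) ^ 2 ≤ t := by
    refine hDD.trans ?_
    calc (t : ℝ) ^ (1 - 2 * κ) ≤ (t : ℝ) ^ (1 : ℝ) :=
          Real.rpow_le_rpow_of_exponent_le (by linarith) (by linarith)
      _ = t := Real.rpow_one _
  have hDy : D ≤ y := by
    have h1 : D ^ 2 ≤ y ^ 2 := by
      have : (D : ℝ) ^ 2 ≤ (y : ℝ) ^ 2 := by
        refine hDt2.trans ?_
        exact_mod_cast hty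
      exact_mod_cast this
    exact (Nat.pow_le_pow_iff_left (by norm_num)).mp h1
  have hyz : y ≤ z := by
    apply Nat.le_floor
    refine hy.trans ?_
    exact Real.rpow_le_rpow_of_exponent_le (by linarith) (by linarith)
  have hzle : (z : ℝ) ≤ (t : ℝ) ^ (1 - κ) := Nat.floor_le (by positivity)
  have hzt : z ≤ t := by
    have : (z : ℝ) ≤ t := by
      refine hzle.trans ?_
      calc (t : ℝ) ^ (1 - κ) ≤ (t : ℝ) ^ (1 : ℝ) :=
            Real.rpow_le_rpow_of_exponent_le (by linarith) (by linarith)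
        _ = t := Real.rpow_one _
    exact_mod_cast this
  have hz1 : 1 ≤ z := by omega
  have hzge : (t : ℝ) ^ (1 - κ) ≤ 2 * (z : ℝ) := by
    have h1 : (t : ℝ) ^ (1 - κ) < (z : ℝ) + 1 := Nat.lt_floor_add_one _
    have h2 : (1 : ℝ) ≤ z := by exact_mod_cast hz1
    linarith
  -- the pieces
  have e1 := sum_log_shift_ge t (by omega)
  rw [sum_log_shift] at e1
  have e2 := split_sum t D y z hDy hyz hzt
  have e3 := hbv t ht0 D hD1 hDt1 hDt hDt2
  have e4 := hD0 D t (by omega)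
  have e5 := hmid κ hκ0 hκ4 t D y (by omega) hD1 hDy hDge hy
  have e6 := hfar κ hκ0 hκ4 t z ht2 hzt hzge
  have e7 := hT1 t ht1
  rw [← hLdef] at e1 e3 e5 e6 e7
  set π : ℝ := ((PP t).card : ℝ) with hπ
  have hπ0 : 0 ≤ π := Nat.cast_nonneg _
  set X := ∑ q ∈ (Ioc y z).filter (fun q => q.Prime), Real.log q * ((P1 t q).card : ℝ) with hX
  have e8 : C1 * π ≤ (1 / 8) * (π * L) := by
    have h1 := mul_le_mul_of_nonneg_right hl1 hπ0
    have h2 : 8 * C1 * π = 8 * (C1 * π) := by ring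
    have h3 : L * π = π * L := by ring
    rw [h2, h3] at h1
    linarith only [h1]
  have e9 : (1 + C2 + C3) * (t / L) ≤ t / 64 := by
    rw [← mul_div_assoc, div_le_iff₀ hL]
    have h1 := mul_le_mul_of_nonneg_right hl2 htp.le
    have h2 : (t : ℝ) / 64 * L = (L * t) / 64 := by ring
    have h3 : 64 * (1 + C2 + C3) * (t : ℝ) = 64 * ((1 + C2 + C3) * t) := by ring
    rw [h3] at h1
    rw [h2]
    linarith only [h1]
  have e10 : (7 / 8) * L * ((t : ℝ) ^ (7 / 8 : ℝ) + 1) ≤ t / 64 := by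
    have h1 : (1 : ℝ) ≤ (t : ℝ) ^ (7 / 8 : ℝ) := Real.one_le_rpow (by linarith) (by norm_num)
    have h2 : L * (t : ℝ) ^ (7 / 8 : ℝ) ≤ t / 128 := by
      have h3 : 128 * L ≤ (t : ℝ) ^ (1 / 8 : ℝ) := by
        refine le_trans ?_ hl5
        rw [pow_two]
        exact mul_le_mul_of_nonneg_right hl6 hL.le
      have h4 : (t : ℝ) ^ (1 / 8 : ℝ) * (t : ℝ) ^ (7 / 8 : ℝ) = t := by
        rw [← Real.rpow_add htp]; norm_num
      have h5 := mul_le_mul_of_nonneg_right h3 (by positivity : (0 : ℝ) ≤ (t : ℝ) ^ (7 / 8 : ℝ))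
      rw [h4] at h5
      have h6 : 128 * L * (t : ℝ) ^ (7 / 8 : ℝ) = 128 * (L * (t : ℝ) ^ (7 / 8 : ℝ)) := by ring
      rw [h6] at h5
      linarith only [h5]
    have h7 : L ≤ L * (t : ℝ) ^ (7 / 8 : ℝ) := le_mul_of_one_le_right hL.le h1
    have h8 : (7 / 8) * L * ((t : ℝ) ^ (7 / 8 : ℝ) + 1) =
        (7 / 8) * (L * (t : ℝ) ^ (7 / 8 : ℝ)) + (7 / 8) * L := by ring
    rw [h8]
    linarith only [h2, h7, htp]
  have e11 : (t : ℝ) * ∑ d ∈ Ioc D t, npf d ≤ t / 64 := by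
    have := mul_le_mul_of_nonneg_left e4 htp.le
    linarith only [this]
  have e12 : (C2 + C3) * (κ * t) ≤ t / 64 := by
    have h1 := mul_le_mul_of_nonneg_right hκC htp.le
    have h2 : (C2 + C3) * κ * (t : ℝ) = (C2 + C3) * (κ * t) := by ring
    rw [h2] at h1
    linarith only [h1]
  have hXge : t / 16 ≤ X := by
    have h1 : π * (1 / 2 * L + C1) = (1 / 2) * (π * L) + C1 * π := by ring
    rw [h1] at e3
    have h2 : 7 / 8 * L * (π - (t : ℝ) ^ (7 / 8 : ℝ) - 1) =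
        (7 / 8) * (π * L) - (7 / 8) * L * ((t : ℝ) ^ (7 / 8 : ℝ) + 1) := by ring
    rw [h2] at e1
    have h3 : C2 * (κ * t + t / L) + C3 * (κ * t + t / L) + t / L =
        (C2 + C3) * (κ * t) + (1 + C2 + C3) * (t / L) := by ring
    have h4 : 0 ≤ π * L := by positivity
    linarith only [e1, e2, e3, e5, e6, e7, e8, e9, e10, e11, e12, h3]
  have hXle : X ≤ L * ∑ q ∈ (Ioc y z).filter (fun q => q.Prime), ((P1 t q).card : ℝ) := by
    rw [hX, Finset.mul_sum]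
    apply Finset.sum_le_sum
    intro q hq
    rw [mem_filter, mem_Ioc] at hq
    apply mul_le_mul_of_nonneg_right _ (Nat.cast_nonneg _)
    exact Real.log_le_log (by exact_mod_cast hq.2.pos) (by exact_mod_cast (by omega : q ≤ t))
  have : 1 / 16 * (t / L) = (t / 16) / L := by ring
  rw [this, div_le_iff₀ hL, mul_comm]
  exact hXge.trans hXle

end Pool.Agent.TH76.LehP
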