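import Pool.Agent.TH76.LehP.LemB

set_option autoImplicit false

namespace Pool.Agent.TH76.LehP

open Finset Filter

/-- the primes of a number coprime to its totient form a good set -/
lemma good_of_coprime {n : ℕ} (h : Nat.Coprime n n.totient) : Good n.primeFactors := by
  intro p hp q hq hpp hqp hqp1
  have hpn := Nat.dvd_of_mem_primeFactors hp
  have hqn := Nat.dvd_of_mem_primeFactors hq
  have h1 : p - 1 ∣ n.totient := by
    have h2 := Nat.totient_dvd_of_dvd hpn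
    rwa [Nat.totient_prime hpp] at h2
  have h3 : q ∣ Nat.gcd n n.totient := Nat.dvd_gcd hqn (hqp1.trans h1)
  rw [h] at h3
  exact hqp.one_lt.ne' (Nat.dvd_one.mp h3)

/-- `log (n/φ(n)) ≤ ∑_{q ∣ n} 1/(q-1)` -/
lemma log_ratio_le {n : ℕ} (hn : n ≠ 0) :
    Real.log ((n : ℝ) / n.totient) ≤ ∑ q ∈ n.primeFactors, 1 / ((q : ℝ) - 1) := by
  have h1 : (n : ℝ) / n.totient = ∏ q ∈ n.primeFactors, (1 - (q : ℝ)⁻¹)⁻¹ :=
    Erdos456.GG_eq_prod (Nat.pos_of_ne_zero hn)
  rw [h1, Real.log_prod]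
  · apply Finset.sum_le_sum
    intro q hq
    have hq2 : (2 : ℝ) ≤ q := by exact_mod_cast (Nat.prime_of_mem_primeFactors hq).two_le
    have h2 : (1 - (q : ℝ)⁻¹)⁻¹ = 1 + 1 / ((q : ℝ) - 1) := by
      have : (q : ℝ) - 1 ≠ 0 := by linarith
      have h3 : 1 - (q : ℝ)⁻¹ = ((q : ℝ) - 1) / q := by field_simp
      rw [h3]
      field_simp
      ring
    rw [h2]
    have h4 : (0 : ℝ) < 1 / ((q : ℝ) - 1) := by
      apply div_pos one_pos; linarith
    have := Real.log_le_sub_one_of_pos (show (0 : ℝ) < 1 + 1 / ((q : ℝ) - 1) by linarith)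
    linarith
  · intro q hq
    have hq2 : (2 : ℝ) ≤ q := by exact_mod_cast (Nat.prime_of_mem_primeFactors hq).two_le
    have h5 : (q : ℝ)⁻¹ ≤ 1 / 2 := by
      rw [inv_le_comm₀ (by linarith) (by norm_num)]; linarith
    have : (0 : ℝ) < 1 - (q : ℝ)⁻¹ := by linarith
    positivity

lemma tele_le (y : ℕ) (hy : 1 ≤ y) (S : Finset ℕ) (hS : ∀ q ∈ S, y < q) :
    ∑ q ∈ S, 1 / ((q : ℝ) * ((q : ℝ) - 1)) ≤ 1 / (y : ℝ) := by
  have hy0 : (0 : ℝ) < y := by exact_mod_cast hy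
  have h1 : ∀ M : ℕ, y ≤ M → ∑ m ∈ Ioc y M, 1 / ((m : ℝ) * ((m : ℝ) - 1)) = 1 / (y : ℝ) - 1 / (M : ℝ) := by
    intro M hM
    induction M, hM using Nat.le_induction with
    | base => simp
    | succ M hM ih =>
      rw [Finset.sum_Ioc_succ_top (by omega), ih]
      have : (0 : ℝ) < M := by exact_mod_cast (by omega : 0 < M)
      have h2 : ((M + 1 : ℕ) : ℝ) - 1 = M := by push_cast; ring
      rw [h2]
      push_cast
      field_simp
      ring
  have h3 : S ⊆ Ioc y (y + S.sup id) := by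
    intro q hq
    rw [mem_Ioc]
    have := Finset.le_sup (f := id) hq
    simp only [id] at this
    exact ⟨hS q hq, by omega⟩
  have h4 : ∑ q ∈ S, 1 / ((q : ℝ) * ((q : ℝ) - 1)) ≤
      ∑ m ∈ Ioc y (y + S.sup id), 1 / ((m : ℝ) * ((m : ℝ) - 1)) := by
    apply Finset.sum_le_sum_of_subset_of_nonneg h3
    intro m hm _
    rw [mem_Ioc] at hm
    have : (1 : ℝ) ≤ m := by exact_mod_cast (by omega : 1 ≤ m)
    apply div_nonneg zero_le_one
    apply mul_nonneg <;> linarith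
  rw [h1 _ (by omega)] at h4
  have : (0 : ℝ) ≤ 1 / ((y + S.sup id : ℕ) : ℝ) := by positivity
  linarith

/-- the core estimate, with `y = p - 1` -/
theorem core : ∃ δ τ : ℝ, 0 < δ ∧ 0 < τ ∧ ∃ Y : ℕ, ∀ n y : ℕ, 1 < n → Nat.Coprime n n.totient →
    2 ≤ (1 + δ) * ((n : ℝ) / n.totient) → Y ≤ y → (∀ q ∈ n.primeFactors, y < q) →
    τ * (y : ℝ) ^ ((1 + δ) * ((n : ℝ) / n.totient)) ≤ (n.primeFactors.card : ℝ) := by
  obtain ⟨τ, hτ, Y, hB⟩ := lemB
  obtain ⟨C, hC, hM⟩ := Helper923.HMertens.mertens_ratio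
  obtain ⟨δ, hδ⟩ : ∃ δ : ℝ, δ = Real.exp (τ / 2) - 1 := ⟨_, rfl⟩
  have hδ0 : 0 < δ := by
    rw [hδ]
    have := Real.add_one_lt_exp (by positivity : τ / 2 ≠ 0)
    linarith
  have hlogδ : Real.log (1 + δ) = τ / 2 := by rw [hδ]; simp
  have hev : ∀ᶠ y : ℕ in atTop, 3 ≤ y ∧ Y ≤ y ∧ 8 * (C + 1) / τ ≤ Real.log y := by
    filter_upwards [eventually_ge_atTop 3, eventually_ge_atTop Y, ev_log (8 * (C + 1) / τ)]
      with y h1 h2 h3
    exact ⟨h1, h2, h3⟩
  obtain ⟨Y1, hY1⟩ := eventually_atTop.mp hev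
  refine ⟨δ, τ / 8, hδ0, by positivity, Y1, fun n y hn hco h2 hy hq => ?_⟩
  obtain ⟨hy3, hyY, hylog⟩ := hY1 y hy
  have hy3' : (3 : ℝ) ≤ y := by exact_mod_cast hy3
  have hy0 : (0 : ℝ) < y := by linarith
  have hly : 0 < Real.log y := Real.log_pos (by linarith)
  have hn0 : (0 : ℝ) < n := by exact_mod_cast (by omega : 0 < n)
  have htot : (0 : ℝ) < n.totient := by exact_mod_cast Nat.totient_pos.mpr (by omega)
  obtain ⟨k, hk⟩ : ∃ k : ℝ, k = (n : ℝ) / n.totient := ⟨_, rfl⟩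
  have hk2 : 0 < k := by rw [hk]; positivity
  rw [← hk] at h2 ⊢
  obtain ⟨e, he⟩ : ∃ e : ℝ, e = (1 + δ) * k := ⟨_, rfl⟩
  rw [← he] at h2 ⊢
  have he2 : 2 ≤ e := h2
  set z : ℕ := ⌊(y : ℝ) ^ e⌋₊ with hz
  have hy2z : y ^ 2 ≤ z := by
    apply Nat.le_floor
    push_cast
    rw [← Real.rpow_natCast]
    exact Real.rpow_le_rpow_of_exponent_le (by linarith) (by push_cast; exact he2)
  have hyz : y ≤ z := le_trans (by nlinarith) hy2z
  have hzle : (z : ℝ) ≤ (y : ℝ) ^ e := Nat.floor_le (by positivity)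
  have hz3 : (3 : ℝ) ≤ z := by exact_mod_cast hy3.trans hyz
  have hzge : (y : ℝ) ^ e ≤ 2 * z := by
    have h1 : (y : ℝ) ^ e < (z : ℝ) + 1 := Nat.lt_floor_add_one _
    linarith
  set S := n.primeFactors with hS
  set W : ℝ := (S.card : ℝ) with hW
  have hgood := good_of_coprime hco
  have hmass := hB y hyY S hgood
  -- the logarithm of `n / φ(n)`
  have h3 := log_ratio_le (by omega : n ≠ 0)
  rw [← hk] at h3
  have h4 : ∀ q ∈ S, 1 / ((q : ℝ) - 1) = 1 / (q : ℝ) + 1 / ((q : ℝ) * ((q : ℝ) - 1)) := by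
    intro q hq'
    have hq2 : (2 : ℝ) ≤ q := by exact_mod_cast (Nat.prime_of_mem_primeFactors hq').two_le
    have : (q : ℝ) - 1 ≠ 0 := by linarith
    field_simp
    ring
  rw [Finset.sum_congr rfl h4, Finset.sum_add_distrib] at h3
  have h5 := tele_le y (by omega) S hq
  -- splitting at `z`
  have h6 : ∑ q ∈ S, 1 / (q : ℝ) ≤ ∑ q ∈ S.filter (fun q => q ≤ z), 1 / (q : ℝ) + W / z := by
    rw [← Finset.sum_filter_add_sum_filter_not S (fun q => q ≤ z)]
    apply add_le_add_right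
    calc ∑ q ∈ S.filter (fun q => ¬ q ≤ z), 1 / (q : ℝ)
        ≤ ∑ q ∈ S.filter (fun q => ¬ q ≤ z), 1 / (z : ℝ) := by
          apply Finset.sum_le_sum
          intro q hq'
          rw [mem_filter, not_le] at hq'
          apply one_div_le_one_div_of_le (by linarith)
          exact_mod_cast hq'.2.le
      _ = ((S.filter (fun q => ¬ q ≤ z)).card : ℝ) * (1 / z) := by
          rw [Finset.sum_const, nsmul_eq_mul]
      _ ≤ W * (1 / z) := by
          apply mul_le_mul_of_nonneg_right _ (by positivity)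
          rw [hW, Nat.cast_le]
          exact Finset.card_le_card (Finset.filter_subset _ _)
      _ = W / z := by ring
  have h7 : ∑ q ∈ S.filter (fun q => q ≤ z), 1 / (q : ℝ) + ∑ q ∈ EE S y, 1 / (q : ℝ) ≤
      ∑ q ∈ (Ioc y z).filter Nat.Prime, 1 / (q : ℝ) := by
    rw [← Finset.sum_union]
    · apply Finset.sum_le_sum_of_subset_of_nonneg
      · intro q hq'
        rw [mem_union, mem_filter, mem_EE] at hq'
        rw [mem_filter, mem_Ioc]
        rcases hq' with ⟨h8, h9⟩ | ⟨⟨h8, h9⟩, h10, _⟩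
        · exact ⟨⟨hq q h8, h9⟩, Nat.prime_of_mem_primeFactors h8⟩
        · exact ⟨⟨h8, h9.trans hy2z⟩, h10⟩
      · intro _ _ _; positivity
    · rw [Finset.disjoint_left]
      intro q h8 h9
      rw [mem_filter] at h8
      rw [mem_EE] at h9
      exact h9.2.2 h8.1
  have h8 := (abs_le.mp (hM y z (by omega) hyz)).2
  have h9 : Real.log (Real.log z / Real.log y) ≤ Real.log k + τ / 2 := by
    rw [← hlogδ, add_comm, ← Real.log_mul (by positivity) (by positivity), ← he]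
    apply Real.log_le_log
    · apply div_pos (Real.log_pos (by linarith)) hly
    · rw [div_le_iff₀ hly, ← Real.log_rpow hy0]
      exact Real.log_le_log (by linarith) hzle
  have h10 : C / Real.log y + 1 / (y : ℝ) ≤ τ / 8 := by
    have h11 : Real.log y ≤ y := by
      have := Real.log_le_sub_one_of_pos hy0
      linarith
    have h12 : 1 / (y : ℝ) ≤ 1 / Real.log y := one_div_le_one_div_of_le hly h11
    have h13 : (C + 1) / Real.log y ≤ τ / 8 := by
      rw [div_le_iff₀ hly]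
      rw [div_le_iff₀ hτ] at hylog
      linarith
    calc C / Real.log y + 1 / (y : ℝ) ≤ C / Real.log y + 1 / Real.log y := by linarith
      _ = (C + 1) / Real.log y := by ring
      _ ≤ _ := h13
  have h14 : τ / 4 ≤ W / z := by linarith
  rw [le_div_iff₀ (by linarith)] at h14
  calc τ / 8 * (y : ℝ) ^ e ≤ τ / 8 * (2 * z) := mul_le_mul_of_nonneg_left hzge (by positivity)
    _ = τ / 4 * z := by ring
    _ ≤ W := h14

/-- the bound for large least prime factor -/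
theorem main_large : ∃ δ : ℝ, 0 < δ ∧ ∃ P₀ : ℕ, ∀ n : ℕ, 1 < n → Nat.Coprime n n.totient →
    2 * n.totient ≤ n + 1 → P₀ ≤ n.minFac →
    (n.minFac : ℝ) ^ ((1 + δ) * ((n : ℝ) / n.totient)) ≤ (n.primeFactors.card : ℝ) := by
  obtain ⟨δ, τ, hδ, hτ, Y, h⟩ := core
  have hev : ∀ᶠ y : ℕ in atTop, 3 ≤ y ∧ Y ≤ y ∧ (2 / δ) * (1 + δ + |Real.log τ|) ≤ Real.log y ∧
      (1 + δ) / (2 * δ) ≤ (y : ℝ) := by
    filter_upwards [eventually_ge_atTop 3, eventually_ge_atTop Y,
      ev_log ((2 / δ) * (1 + δ + |Real.log τ|)),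
      tendsto_natCast_atTop_atTop.eventually_ge_atTop ((1 + δ) / (2 * δ))] with y h1 h2 h3 h4
    exact ⟨h1, h2, h3, h4⟩
  obtain ⟨Y1, hY1⟩ := eventually_atTop.mp hev
  refine ⟨δ / 2, by positivity, Y1 + 1, fun n hn hco h2 hp => ?_⟩
  obtain ⟨y, hy⟩ : ∃ y : ℕ, y = n.minFac - 1 := ⟨_, rfl⟩
  have hpy : n.minFac = y + 1 := by omega
  obtain ⟨hy3, hyY, hylog, hyδ⟩ := hY1 y (by omega)
  have htot : (0 : ℝ) < n.totient := by exact_mod_cast Nat.totient_pos.mpr (by omega)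
  have hytot : (y : ℝ) ≤ n.totient := by
    have h1 : n.minFac - 1 ∣ n.totient := by
      have := Nat.totient_dvd_of_dvd (Nat.minFac_dvd n)
      rwa [Nat.totient_prime (Nat.minFac_prime (by omega))] at this
    have h2 := Nat.le_of_dvd (Nat.totient_pos.mpr (by omega)) h1
    rw [← hy] at h2
    exact_mod_cast h2
  obtain ⟨k, hk⟩ : ∃ k : ℝ, k = (n : ℝ) / n.totient := ⟨_, rfl⟩
  have hk1 : 2 - 1 / (n.totient : ℝ) ≤ k := by
    have h3 : (2 : ℝ) * n.totient ≤ n + 1 := by exact_mod_cast h2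
    rw [hk, le_div_iff₀ htot]
    have : (2 - 1 / (n.totient : ℝ)) * n.totient = 2 * n.totient - 1 := by field_simp
    rw [this]
    linarith
  have hkinv : (1 + δ) * (1 / (n.totient : ℝ)) ≤ 2 * δ := by
    rw [mul_one_div, div_le_iff₀ htot]
    rw [div_le_iff₀ (by positivity)] at hyδ
    nlinarith
  have hk0 : 2 ≤ (1 + δ) * k := by nlinarith
  have hy3' : (3 : ℝ) ≤ y := by exact_mod_cast hy3
  have hy0 : (0 : ℝ) < y := by linarith
  have hly : 0 < Real.log y := Real.log_pos (by linarith)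
  have h3 := h n y hn hco (by rw [← hk]; exact hk0) hyY (by
    intro q hq
    have := Nat.minFac_le_of_dvd (Nat.prime_of_mem_primeFactors hq).two_le
      (Nat.dvd_of_mem_primeFactors hq)
    omega)
  refine le_trans ?_ h3
  have hk2 : 1 ≤ k := by
    have h5 : 1 / (n.totient : ℝ) ≤ 1 := by
      rw [div_le_one htot]
      linarith
    linarith
  rw [← hk, hpy]
  have hp0 : (0 : ℝ) < ((y + 1 : ℕ) : ℝ) := by positivity
  rw [← Real.log_le_log_iff (by positivity) (by positivity), Real.log_rpow hp0,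
    Real.log_mul hτ.ne' (by positivity), Real.log_rpow hy0]
  have h4 : Real.log ((y + 1 : ℕ) : ℝ) ≤ Real.log y + 1 := by
    have h5 : ((y + 1 : ℕ) : ℝ) = y * (1 + 1 / y) := by push_cast; field_simp
    rw [h5, Real.log_mul hy0.ne' (by positivity)]
    have h6 := Real.log_le_sub_one_of_pos (by positivity : (0 : ℝ) < 1 + 1 / y)
    have h7 : (1 : ℝ) / y ≤ 1 := by rw [div_le_one hy0]; linarith
    linarith
  have h8 : 1 + δ + |Real.log τ| ≤ (δ / 2) * Real.log y := by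
    have := mul_le_mul_of_nonneg_left hylog (by positivity : 0 ≤ δ / 2)
    have h9 : δ / 2 * (2 / δ * (1 + δ + |Real.log τ|)) = 1 + δ + |Real.log τ| := by field_simp
    linarith
  have h10 := neg_abs_le (Real.log τ)
  have h11 := abs_nonneg (Real.log τ)
  have h12 : (1 + δ / 2) * k * Real.log ((y + 1 : ℕ) : ℝ) ≤ (1 + δ / 2) * k * (Real.log y + 1) :=
    mul_le_mul_of_nonneg_left h4 (by positivity)
  have h13 : k * (1 + δ + |Real.log τ|) ≤ k * ((δ / 2) * Real.log y) :=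
    mul_le_mul_of_nonneg_left h8 (by linarith)
  have h14 : |Real.log τ| ≤ k * |Real.log τ| := le_mul_of_one_le_left h11 (by linarith)
  have h15 : 0 ≤ k * δ := by positivity
  nlinarith

/-- the bound for all least prime factors -/
theorem main_all : ∃ δ c : ℝ, 0 < δ ∧ 0 < c ∧ ∀ n : ℕ, 1 < n → Nat.Coprime n n.totient →
    2 * n.totient ≤ n → c * (n.minFac : ℝ) ^ (2 + δ) ≤ (n.primeFactors.card : ℝ) := by
  obtain ⟨δ, hδ, P₀, h⟩ := main_large
  refine ⟨δ, ((P₀ : ℝ) + 1) ^ (-(2 + δ)), hδ, by positivity, fun n hn hco h2 => ?_⟩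
  have hpr : n.minFac.Prime := Nat.minFac_prime (by omega)
  have hp0 : (1 : ℝ) ≤ n.minFac := by exact_mod_cast hpr.one_lt.le
  rcases Nat.lt_or_ge n.minFac P₀ with hlt | hge
  · have h3 : (1 : ℝ) ≤ (n.primeFactors.card : ℝ) := by
      exact_mod_cast Finset.card_pos.mpr (Nat.nonempty_primeFactors.mpr hn)
    refine le_trans ?_ h3
    have h4 : (n.minFac : ℝ) ≤ (P₀ : ℝ) + 1 := by
      have : (n.minFac : ℝ) ≤ P₀ := by exact_mod_cast hlt.le
      linarith
    calc ((P₀ : ℝ) + 1) ^ (-(2 + δ)) * (n.minFac : ℝ) ^ (2 + δ)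
        ≤ ((P₀ : ℝ) + 1) ^ (-(2 + δ)) * ((P₀ : ℝ) + 1) ^ (2 + δ) := by
          apply mul_le_mul_of_nonneg_left _ (by positivity)
          exact Real.rpow_le_rpow (by linarith) h4 (by linarith)
      _ = 1 := by rw [← Real.rpow_add (by positivity)]; simp
  · have h3 := h n hn hco (by omega) hge
    refine le_trans ?_ h3
    have htot : (0 : ℝ) < n.totient := by exact_mod_cast Nat.totient_pos.mpr (by omega)
    have hk2 : 2 ≤ (n : ℝ) / n.totient := by
      rw [le_div_iff₀ htot]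
      exact_mod_cast h2
    have h5 : ((P₀ : ℝ) + 1) ^ (-(2 + δ)) ≤ 1 := by
      apply Real.rpow_le_one_of_one_le_of_nonpos
      · have : (0 : ℝ) ≤ P₀ := Nat.cast_nonneg _
        linarith
      · linarith
    calc ((P₀ : ℝ) + 1) ^ (-(2 + δ)) * (n.minFac : ℝ) ^ (2 + δ)
        ≤ 1 * (n.minFac : ℝ) ^ (2 + δ) := mul_le_mul_of_nonneg_right h5 (by positivity)
      _ = (n.minFac : ℝ) ^ (2 + δ) := one_mul _
      _ ≤ _ := by
          apply Real.rpow_le_rpow_of_exponent_le hp0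
          nlinarith

end Pool.Agent.TH76.LehP
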