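import Pool.Agent.TH76.LehP.SvC
import Pool.Agent.TH76.LehP.Main

set_option autoImplicit false

namespace Pool.Agent.TH76.LehP

open Finset

/-- counting a good set -/
lemma count_good : ∃ C : ℝ, 0 < C ∧ ∀ S : Finset ℕ, OddP S → Good S → ∀ t w : ℕ, 2 ≤ t → w ^ 32 ≤ t →
    ((S.filter (fun q => q ≤ t)).card : ℝ) ≤ C * (t / Real.log t) * Real.exp (-FS S w) := by
  obtain ⟨C, hC, h⟩ := sieveS
  refine ⟨C, hC, fun S hS hG t w ht hw => ?_⟩
  refine le_trans ?_ (h S hS t w ht hw)
  rw [Nat.cast_le]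
  apply Finset.card_le_card_of_injOn (fun q => q - 1)
  · intro q hq
    rw [Finset.mem_coe, mem_filter] at hq
    obtain ⟨hq1, hq2⟩ := hq
    have h3 := hS q hq1
    rw [Finset.mem_coe, mem_filter, mem_Icc]
    have e : q - 1 + 1 = q := by omega
    refine ⟨⟨?_, ?_⟩, ?_, ?_⟩
    · show 1 ≤ q - 1
      omega
    · show q - 1 ≤ t
      omega
    · show (q - 1 + 1).Prime
      rw [e]; exact h3.1
    · intro r hr
      exact hG q hq1 r hr h3.1 (hS r hr).1
  · intro q hq q' hq' hqq
    rw [Finset.mem_coe, mem_filter] at hq hq'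
    have h3 := hS q hq.1
    have h4 := hS q' hq'.1
    simp only at hqq
    omega

/-- Abel summation, as an upper bound -/
lemma abel_up (E : Finset ℕ) (x N : ℕ) (hx : 1 ≤ x) (hxN : x ≤ N) (hE : ∀ q ∈ E, x ≤ q ∧ q ≤ N) :
    ∑ q ∈ E, 1 / (q : ℝ) =
    ∑ n ∈ Ico x N, ((E.filter (fun q => q ≤ n)).card : ℝ) * (1 / ((n : ℝ) * (n + 1))) +
      (E.card : ℝ) / N := by
  have h1 : ∀ n ∈ Ico x N, ((E.filter (fun q => q ≤ n)).card : ℝ) * (1 / ((n : ℝ) * (n + 1))) =
      ∑ q ∈ E, if q ≤ n then (1 / ((n : ℝ) * (n + 1))) else 0 := by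
    intro n _
    rw [← Finset.sum_filter, Finset.sum_const, nsmul_eq_mul]
  have h0 : (E.card : ℝ) / N = ∑ q ∈ E, 1 / (N : ℝ) := by
    rw [Finset.sum_const, nsmul_eq_mul]; ring
  rw [Finset.sum_congr rfl h1, Finset.sum_comm, h0, ← Finset.sum_add_distrib]
  apply Finset.sum_congr rfl
  intro q hq
  obtain ⟨hq1, hqN⟩ := hE q hq
  rw [← Finset.sum_filter]
  have h2 : (Ico x N).filter (fun n => q ≤ n) = Ico q N := by
    ext n
    simp only [mem_filter, mem_Ico]
    omega
  rw [h2]
  have h3 : ∀ M : ℕ, q ≤ M → ∑ n ∈ Ico q M, (1 / ((n : ℝ) * (n + 1))) = 1 / (q : ℝ) - 1 / (M : ℝ) := by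
    intro M hM
    induction M, hM using Nat.le_induction with
    | base => simp
    | succ M hM ih =>
      rw [Finset.sum_Ico_succ_top hM, ih]
      have : (0 : ℝ) < M := by exact_mod_cast (by omega : 0 < M)
      push_cast
      field_simp
      ring
  rw [h3 N hqN]
  ring

lemma harm_up (a b : ℕ) (ha : 1 ≤ a) (hab : a ≤ b) :
    ∑ n ∈ Ico a b, 1 / ((n : ℝ) + 1) ≤ Real.log b - Real.log a := by
  induction b, hab using Nat.le_induction with
  | base => simp
  | succ b hb ih =>
    rw [Finset.sum_Ico_succ_top hb]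
    have hb0 : (0 : ℝ) < (b : ℝ) := by exact_mod_cast (by omega : 0 < b)
    have h1 : 1 / ((b : ℝ) + 1) ≤ Real.log ((b + 1 : ℕ) : ℝ) - Real.log (b : ℝ) := by
      have h3 := Real.log_le_sub_one_of_pos (by positivity : (0 : ℝ) < (b : ℝ) / (b + 1))
      rw [Real.log_div hb0.ne' (by positivity)] at h3
      have h4 : (b : ℝ) / (b + 1) - 1 = -(1 / ((b : ℝ) + 1)) := by
        field_simp; ring
      rw [h4] at h3
      push_cast
      linarith
    linarith

/-- `F(x^32) - F(x)` as a sum -/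
lemma FS_diff (S : Finset ℕ) (x y : ℕ) (hxy : x ≤ y) :
    FS S y = FS S x + ∑ q ∈ S.filter (fun q => x < q ∧ q ≤ y), 1 / (q : ℝ) := by
  unfold FS
  rw [← Finset.sum_union]
  · apply Finset.sum_congr _ (fun _ _ => rfl)
    ext q
    simp only [mem_union, mem_filter]
    constructor
    · rintro ⟨h1, h2⟩
      rcases Nat.lt_or_ge x q with h3 | h3
      · exact Or.inr ⟨h1, h3, h2⟩
      · exact Or.inl ⟨h1, h3⟩
    · rintro (⟨h1, h2⟩ | ⟨h1, h2, h3⟩)
      · exact ⟨h1, h2.trans hxy⟩
      · exact ⟨h1, h3⟩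
  · rw [Finset.disjoint_left]
    intro q h1 h2
    simp only [mem_filter] at h1 h2
    omega

lemma le_pow32 (x : ℕ) (hx : 1 ≤ x) : x ≤ x ^ 32 := by
  calc x = x ^ 1 := (pow_one x).symm
    _ ≤ x ^ 32 := Nat.pow_le_pow_right hx (by norm_num)

/-- one step of the recursion -/
lemma step_good : ∃ C : ℝ, 0 < C ∧ ∀ S : Finset ℕ, OddP S → Good S → ∀ x w : ℕ, 2 ≤ x → w ^ 32 ≤ x →
    FS S (x ^ 32) ≤ FS S x + C * Real.exp (-FS S w) := by
  obtain ⟨C, hC, h⟩ := count_good
  refine ⟨33 * C, by positivity, fun S hS hG x w hx hw => ?_⟩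
  have hx' : (2 : ℝ) ≤ x := by exact_mod_cast hx
  have hlx : 0 < Real.log x := Real.log_pos (by linarith)
  have hlx2 : 1 / 2 ≤ Real.log x := by
    have h1 := Real.log_le_log (by norm_num) hx'
    have := Real.log_two_gt_d9
    linarith
  have hxN : x ≤ x ^ 32 := le_pow32 x (by omega)
  obtain ⟨N, hN⟩ : ∃ N : ℕ, N = x ^ 32 := ⟨_, rfl⟩
  rw [← hN] at hxN ⊢
  have hlN : Real.log N = 32 * Real.log x := by rw [hN]; push_cast; rw [Real.log_pow]; norm_num
  rw [FS_diff S x N hxN]
  obtain ⟨e, he⟩ : ∃ e : ℝ, e = Real.exp (-FS S w) := ⟨_, rfl⟩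
  have he0 : 0 < e := by rw [he]; exact Real.exp_pos _
  rw [← he]
  set E := S.filter (fun q => x < q ∧ q ≤ N) with hE
  have habel := abel_up E x N (by omega) hxN (by
    intro q hq
    rw [hE, mem_filter] at hq
    exact ⟨hq.2.1.le, hq.2.2⟩)
  have hcount : ∀ n : ℕ, x ≤ n → ((E.filter (fun q => q ≤ n)).card : ℝ) ≤ (C * e / Real.log x) * n := by
    intro n hn
    have hn' : (x : ℝ) ≤ n := by exact_mod_cast hn
    have hn0 : (0 : ℝ) < n := by linarith
    have hln : Real.log x ≤ Real.log n := Real.log_le_log (by linarith) hn'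
    have h1 := h S hS hG n w (by omega) (hw.trans hn)
    rw [← he] at h1
    have h2 : ((E.filter (fun q => q ≤ n)).card : ℝ) ≤ ((S.filter (fun q => q ≤ n)).card : ℝ) := by
      rw [Nat.cast_le]
      apply Finset.card_le_card
      apply Finset.filter_subset_filter
      rw [hE]; exact Finset.filter_subset _ _
    refine (h2.trans h1).trans ?_
    calc C * (n / Real.log n) * e ≤ C * (n / Real.log x) * e := by
          apply mul_le_mul_of_nonneg_right _ he0.le
          apply mul_le_mul_of_nonneg_left _ hC.le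
          exact div_le_div_of_nonneg_left hn0.le hlx hln
      _ = _ := by ring
  have h1 : ∑ n ∈ Ico x N, ((E.filter (fun q => q ≤ n)).card : ℝ) * (1 / ((n : ℝ) * (n + 1))) ≤
      (C * e / Real.log x) * ∑ n ∈ Ico x N, 1 / ((n : ℝ) + 1) := by
    rw [Finset.mul_sum]
    apply Finset.sum_le_sum
    intro n hn
    rw [mem_Ico] at hn
    have hn0 : (0 : ℝ) < n := by exact_mod_cast (by omega : 0 < n)
    calc ((E.filter (fun q => q ≤ n)).card : ℝ) * (1 / ((n : ℝ) * (n + 1)))
        ≤ ((C * e / Real.log x) * n) * (1 / ((n : ℝ) * (n + 1))) :=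
          mul_le_mul_of_nonneg_right (hcount n hn.1) (by positivity)
      _ = _ := by field_simp
  have h2 := harm_up x N (by omega) hxN
  rw [hlN] at h2
  have hN0 : (0 : ℝ) < N := by exact_mod_cast (by omega : 0 < N)
  have h3 : (E.card : ℝ) / N ≤ C * e / Real.log x := by
    rw [div_le_iff₀ hN0]
    have h4 := hcount N hxN
    have h5 : E.filter (fun q => q ≤ N) = E := by
      apply Finset.filter_true_of_mem
      intro q hq
      rw [hE, mem_filter] at hq
      exact hq.2.2
    rwa [h5] at h4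
  have h6 : (C * e / Real.log x) * ∑ n ∈ Ico x N, 1 / ((n : ℝ) + 1) ≤ 31 * (C * e) := by
    calc (C * e / Real.log x) * ∑ n ∈ Ico x N, 1 / ((n : ℝ) + 1)
        ≤ (C * e / Real.log x) * (31 * Real.log x) := by
          apply mul_le_mul_of_nonneg_left _ (by positivity)
          linarith
      _ = 31 * (C * e) := by field_simp
  have h7 : C * e / Real.log x ≤ 2 * (C * e) := by
    rw [div_le_iff₀ hlx]
    have : 0 < C * e := by positivity
    nlinarith
  rw [habel]
  linarith

/-- the trivial step -/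
lemma step_triv : ∃ M : ℝ, 0 < M ∧ ∀ S : Finset ℕ, OddP S → ∀ x : ℕ, 2 ≤ x →
    FS S (x ^ 32) ≤ FS S x + M := by
  obtain ⟨C, hC, h⟩ := Helper923.HMertens.mertens_ratio
  have hl2 : 0 < Real.log 2 := Real.log_pos (by norm_num)
  refine ⟨Real.log 32 + C / Real.log 2, by
    have := Real.log_pos (by norm_num : (1 : ℝ) < 32); positivity, fun S hS x hx => ?_⟩
  have hx' : (2 : ℝ) ≤ x := by exact_mod_cast hx
  have hlx : 0 < Real.log x := Real.log_pos (by linarith)
  have hxN : x ≤ x ^ 32 := le_pow32 x (by omega)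
  rw [FS_diff S x _ hxN]
  apply add_le_add_right
  have h1 := (abs_le.mp (h x (x ^ 32) hx hxN)).2
  have h2 : Real.log ((x ^ 32 : ℕ) : ℝ) / Real.log x = 32 := by
    push_cast
    rw [Real.log_pow]
    field_simp
    norm_num
  rw [h2] at h1
  have h3 : C / Real.log x ≤ C / Real.log 2 :=
    div_le_div_of_nonneg_left hC hl2 (Real.log_le_log (by norm_num) hx')
  have h4 : ∑ q ∈ S.filter (fun q => x < q ∧ q ≤ x ^ 32), 1 / (q : ℝ) ≤
      ∑ p ∈ (Ioc x (x ^ 32)).filter Nat.Prime, (1 : ℝ) / p := by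
    apply Finset.sum_le_sum_of_subset_of_nonneg
    · intro q hq
      rw [mem_filter] at hq
      rw [mem_filter, mem_Ioc]
      exact ⟨hq.2, (hS q hq.1).1⟩
    · intro _ _ _; positivity
  linarith

lemma exp_step (G c : ℝ) (hG : 1 ≤ G) (hc : 0 ≤ c) : G * Real.exp (c / G) ≤ G + c * Real.exp c := by
  have hG0 : 0 < G := by linarith
  have h1 : 0 ≤ c / G := by positivity
  have h2 : Real.exp (c / G) ≤ 1 + (c / G) * Real.exp (c / G) := by
    have h3 := Real.add_one_le_exp (-(c / G))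
    have h4 : Real.exp (-(c / G)) * Real.exp (c / G) = 1 := by
      rw [← Real.exp_add]; simp
    have h5 := mul_le_mul_of_nonneg_right h3 (Real.exp_pos (c / G)).le
    rw [h4] at h5
    linarith
  have h6 : Real.exp (c / G) ≤ Real.exp c := by
    apply Real.exp_le_exp.mpr
    rw [div_le_iff₀ hG0]
    nlinarith
  calc G * Real.exp (c / G) ≤ G * (1 + (c / G) * Real.exp (c / G)) :=
        mul_le_mul_of_nonneg_left h2 hG0.le
    _ = G + c * Real.exp (c / G) := by field_simp
    _ ≤ G + c * Real.exp c := by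
        have := mul_le_mul_of_nonneg_left h6 hc
        linarith

/-- the growth of `exp F` along `x, x^32, x^(32^2), ...` -/
lemma growth : ∃ K : ℝ, 0 < K ∧ ∀ S : Finset ℕ, OddP S → Good S → ∀ p : ℕ, 2 ≤ p →
    (∀ q ∈ S, p ≤ q) → ∀ j : ℕ, Real.exp (FS S (p ^ (32 ^ j))) ≤ K * (1 + j) := by
  obtain ⟨C, hC, hstep⟩ := step_good
  obtain ⟨M, hM, htriv⟩ := step_triv
  obtain ⟨c, hc⟩ : ∃ c : ℝ, c = C * Real.exp M := ⟨_, rfl⟩
  have hc0 : 0 < c := by rw [hc]; positivity
  refine ⟨Real.exp (1 + M) + c * Real.exp c, by positivity, fun S hS hG p hp hq j => ?_⟩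
  have hpow : ∀ j : ℕ, (p ^ (32 ^ j)) ^ 32 = p ^ (32 ^ (j + 1)) := by
    intro j; rw [← pow_mul, pow_succ]
  have hx2 : ∀ j : ℕ, 2 ≤ p ^ (32 ^ j) := by
    intro j
    calc 2 ≤ p := hp
      _ = p ^ 1 := (pow_one p).symm
      _ ≤ p ^ (32 ^ j) := Nat.pow_le_pow_right (by omega) (Nat.one_le_pow _ _ (by norm_num))
  have hF0 : FS S p ≤ 1 := by
    unfold FS
    have h1 : S.filter (fun r => r ≤ p) ⊆ {p} := by
      intro r hr
      rw [mem_filter] at hr
      rw [mem_singleton]
      have := hq r hr.1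
      omega
    calc ∑ r ∈ S.filter (fun r => r ≤ p), 1 / (r : ℝ) ≤ ∑ r ∈ ({p} : Finset ℕ), 1 / (r : ℝ) :=
          Finset.sum_le_sum_of_subset_of_nonneg h1 (fun _ _ _ => by positivity)
      _ = 1 / (p : ℝ) := by rw [Finset.sum_singleton]
      _ ≤ 1 := by
          have : (2 : ℝ) ≤ p := by exact_mod_cast hp
          rw [div_le_one (by linarith)]; linarith
  -- main induction
  have hmain : ∀ j : ℕ, Real.exp (FS S (p ^ (32 ^ (j + 1)))) ≤ Real.exp (1 + M) +
      c * Real.exp c * j := by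
    intro j
    induction j with
    | zero =>
      have h1 := htriv S hS (p ^ (32 ^ 0)) (hx2 0)
      rw [hpow 0] at h1
      simp only [pow_zero, pow_one] at h1
      simp only [Nat.cast_zero, mul_zero, add_zero]
      apply Real.exp_le_exp.mpr
      linarith
    | succ j ih =>
      have h1 := hstep S hS hG (p ^ (32 ^ (j + 1))) (p ^ (32 ^ j)) (hx2 _) (by rw [hpow j])
      rw [hpow (j + 1)] at h1
      have h2 := htriv S hS (p ^ (32 ^ j)) (hx2 j)
      rw [hpow j] at h2
      set F0 := FS S (p ^ (32 ^ j)) with hF0'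
      set F1 := FS S (p ^ (32 ^ (j + 1))) with hF1'
      set F2 := FS S (p ^ (32 ^ (j + 1 + 1))) with hF2'
      have hF1n : 0 ≤ F1 := FS_nonneg _ _
      have h3 : C * Real.exp (-F0) ≤ c / Real.exp F1 := by
        rw [hc, mul_div_assoc, ← Real.exp_sub]
        apply mul_le_mul_of_nonneg_left _ hC.le
        apply Real.exp_le_exp.mpr
        linarith
      have h4 : Real.exp F2 ≤ Real.exp F1 * Real.exp (c / Real.exp F1) := by
        rw [← Real.exp_add]
        apply Real.exp_le_exp.mpr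
        linarith
      have h5 := exp_step (Real.exp F1) c (Real.one_le_exp hF1n) hc0.le
      push_cast
      linarith
  have hK : 0 ≤ c * Real.exp c := by positivity
  have hE : 0 < Real.exp (1 + M) := Real.exp_pos _
  rcases Nat.eq_zero_or_pos j with rfl | hj
  · simp only [pow_zero, pow_one, Nat.cast_zero, add_zero, mul_one]
    have : Real.exp (FS S p) ≤ Real.exp (1 + M) := Real.exp_le_exp.mpr (by linarith)
    linarith
  · obtain ⟨i, rfl⟩ : ∃ i, j = i + 1 := ⟨j - 1, by omega⟩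
    have h1 := hmain i
    have hi : (0 : ℝ) ≤ i := Nat.cast_nonneg i
    push_cast
    have h2 : 0 ≤ Real.exp (1 + M) * i := by positivity
    nlinarith

/-- **quotient bound** -/
theorem quot_bound : ∃ C : ℝ, 0 < C ∧ ∀ n : ℕ, 2 < n → Nat.Coprime n n.totient →
    (n : ℝ) / n.totient ≤
      C * (1 + Real.log (1 + Real.log (n.primeFactors.card : ℝ) / Real.log (n.minFac : ℝ))) := by
  obtain ⟨K, hK, h⟩ := growth
  refine ⟨2 * Real.exp 2 * K, by positivity, fun n hn hco => ?_⟩
  have hodd : ¬ 2 ∣ n := by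
    intro h2
    have h3 : 2 ∣ n.totient := (Nat.totient_even hn).two_dvd
    have h4 := Nat.dvd_gcd h2 h3
    rw [hco] at h4
    omega
  set S := n.primeFactors with hS
  have hSodd : OddP S := by
    intro r hr
    have hrp := Nat.prime_of_mem_primeFactors hr
    refine ⟨hrp, ?_⟩
    have h2 := hrp.two_le
    rcases Nat.lt_or_ge 2 r with h3 | h3
    · exact h3
    · exfalso
      have : r = 2 := by omega
      rw [this] at hr
      exact hodd (Nat.dvd_of_mem_primeFactors hr)
  have hgood := good_of_coprime hco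
  set p := n.minFac with hp
  have hpp : p.Prime := Nat.minFac_prime (by omega)
  have hp2 := hpp.two_le
  have hp2' : (2 : ℝ) ≤ p := by exact_mod_cast hp2
  have hlp : 0 < Real.log p := Real.log_pos (by linarith)
  have hmin : ∀ q ∈ S, p ≤ q := fun q hq =>
    Nat.minFac_le_of_dvd (Nat.prime_of_mem_primeFactors hq).two_le (Nat.dvd_of_mem_primeFactors hq)
  set W : ℝ := (S.card : ℝ) with hW
  have hW1 : 1 ≤ W := by
    rw [hW]
    exact_mod_cast Finset.card_pos.mpr (Nat.nonempty_primeFactors.mpr (by omega))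
  have hlW : 0 ≤ Real.log W := Real.log_nonneg hW1
  obtain ⟨u, hu⟩ : ∃ u : ℝ, u = Real.log W / Real.log p := ⟨_, rfl⟩
  have hu0 : 0 ≤ u := by rw [hu]; positivity
  rw [← hu]
  have hl1u : 0 ≤ Real.log (1 + u) := Real.log_nonneg (by linarith)
  obtain ⟨J, hJ⟩ : ∃ J : ℕ, J = ⌈Real.log (1 + u)⌉₊ := ⟨_, rfl⟩
  have hJ1 : Real.log (1 + u) ≤ J := by rw [hJ]; exact Nat.le_ceil _
  have hJ2 : (J : ℝ) < Real.log (1 + u) + 1 := by rw [hJ]; exact Nat.ceil_lt_add_one hl1u
  set x := p ^ (32 ^ J) with hx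
  -- `ω ≤ x`
  have hWx : W ≤ (x : ℝ) := by
    have h1 : u ≤ (32 : ℝ) ^ J := by
      have h2 : 1 + u ≤ Real.exp J := by
        rw [← Real.exp_log (by linarith : (0 : ℝ) < 1 + u)]
        exact Real.exp_le_exp.mpr hJ1
      have h3 : Real.exp J ≤ (32 : ℝ) ^ J := by
        have h4 : Real.exp (J : ℝ) = (Real.exp 1) ^ J := by rw [← Real.exp_nat_mul, mul_one]
        rw [h4]
        apply pow_le_pow_left₀ (Real.exp_pos 1).le
        have := Real.exp_one_lt_d9
        linarith
      linarith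
    have h5 : Real.log W ≤ Real.log (x : ℝ) := by
      rw [hx]
      push_cast
      rw [Real.log_pow]
      push_cast
      have h6 : Real.log W = u * Real.log p := by rw [hu]; field_simp
      rw [h6]
      exact mul_le_mul_of_nonneg_right h1 hlp.le
    have hx0 : (0 : ℝ) < x := by rw [hx]; push_cast; positivity
    exact (Real.log_le_log_iff (by linarith) hx0).mp h5
  have hx0 : (0 : ℝ) < x := by linarith
  -- the logarithm
  have htot : (0 : ℝ) < n.totient := by exact_mod_cast Nat.totient_pos.mpr (by omega)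
  have hn0 : (0 : ℝ) < n := by exact_mod_cast (by omega : 0 < n)
  have h3 := log_ratio_le (by omega : n ≠ 0)
  have h4 : ∀ q ∈ S, 1 / ((q : ℝ) - 1) = 1 / (q : ℝ) + 1 / ((q : ℝ) * ((q : ℝ) - 1)) := by
    intro q hq'
    have hq2 : (2 : ℝ) ≤ q := by exact_mod_cast (Nat.prime_of_mem_primeFactors hq').two_le
    have : (q : ℝ) - 1 ≠ 0 := by linarith
    field_simp
    ring
  rw [Finset.sum_congr rfl h4, Finset.sum_add_distrib] at h3
  have h5 := tele_le 1 le_rfl S (fun q hq => (Nat.prime_of_mem_primeFactors hq).one_lt)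
  have h6 : ∑ q ∈ S, 1 / (q : ℝ) ≤ FS S x + 1 := by
    rw [← Finset.sum_filter_add_sum_filter_not S (fun q => q ≤ x)]
    apply add_le_add_right
    calc ∑ q ∈ S.filter (fun q => ¬ q ≤ x), 1 / (q : ℝ)
        ≤ ∑ q ∈ S.filter (fun q => ¬ q ≤ x), 1 / (x : ℝ) := by
          apply Finset.sum_le_sum
          intro q hq'
          rw [mem_filter, not_le] at hq'
          apply one_div_le_one_div_of_le hx0
          exact_mod_cast hq'.2.le
      _ = ((S.filter (fun q => ¬ q ≤ x)).card : ℝ) * (1 / x) := by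
          rw [Finset.sum_const, nsmul_eq_mul]
      _ ≤ W * (1 / x) := by
          apply mul_le_mul_of_nonneg_right _ (by positivity)
          rw [hW, Nat.cast_le]
          exact Finset.card_le_card (Finset.filter_subset _ _)
      _ = W / x := by ring
      _ ≤ 1 := by rw [div_le_one hx0]; exact hWx
  have h7 : Real.log ((n : ℝ) / n.totient) ≤ FS S x + 2 := by
    have : (1 : ℝ) / ((1 : ℕ) : ℝ) = 1 := by norm_num
    rw [this] at h5
    linarith
  have h8 := h S hSodd hgood p hp2 hmin J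
  rw [← hx] at h8
  calc (n : ℝ) / n.totient = Real.exp (Real.log ((n : ℝ) / n.totient)) :=
        (Real.exp_log (by positivity)).symm
    _ ≤ Real.exp (FS S x + 2) := Real.exp_le_exp.mpr h7
    _ = Real.exp 2 * Real.exp (FS S x) := by rw [Real.exp_add]; ring
    _ ≤ Real.exp 2 * (K * (1 + J)) := mul_le_mul_of_nonneg_left h8 (Real.exp_pos 2).le
    _ ≤ Real.exp 2 * (K * (2 * (1 + Real.log (1 + u)))) := by
        apply mul_le_mul_of_nonneg_left _ (Real.exp_pos 2).le
        apply mul_le_mul_of_nonneg_left _ hK.le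
        linarith
    _ = _ := by ring

end Pool.Agent.TH76.LehP
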