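import Pool.Agent.TH76.LehP.Uni
import Pool.Agent.H95R2.Leh.Congr

set_option autoImplicit false

namespace Pool.Agent.TH76.LehP

open Pool.Agent.H95R2.Leh

/-- the basic properties of a Lehmer number -/
lemma leh_props {n : ℕ} (h : Leh n) :
    1 < n ∧ Nat.Coprime n n.totient ∧ 2 * n.totient ≤ n ∧ 2 * n.totient ≤ n - 1 := by
  obtain ⟨h1, h2, h3⟩ := h
  have hco : Nat.Coprime n (n - 1) := by
    obtain ⟨m, rfl⟩ : ∃ m, n = m + 1 := ⟨n - 1, by omega⟩
    simp
  have hcop : Nat.Coprime n n.totient := hco.coprime_dvd_right h3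
  obtain ⟨k, hk⟩ := h3
  have htot : 0 < n.totient := Nat.totient_pos.mpr (by omega)
  have hk2 : 2 ≤ k := by
    by_contra hlt
    have h4 : k = 0 ∨ k = 1 := by omega
    rcases h4 with h4 | h4
    · rw [h4] at hk; omega
    · rw [h4, mul_one] at hk
      exact h2 ((Nat.totient_eq_iff_prime (by omega)).mp hk.symm)
  have h5 : 2 * n.totient ≤ n - 1 := by
    rw [hk, mul_comm]
    exact Nat.mul_le_mul_left _ hk2
  exact ⟨h1, hcop, by omega, h5⟩

end Pool.Agent.TH76.LehP
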