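import Pool.Agent.TH76.LehP.GoldA

set_option autoImplicit false

namespace Pool.Agent.TH76.LehP

open Finset Filter

/-- the primes in `(y, y²]` outside `S` -/
def EE (S : Finset ℕ) (y : ℕ) : Finset ℕ :=
  (Ioc y (y ^ 2)).filter (fun q => q.Prime ∧ q ∉ S)

lemma mem_EE {S : Finset ℕ} {y q : ℕ} : q ∈ EE S y ↔ (y < q ∧ q ≤ y ^ 2) ∧ q.Prime ∧ q ∉ S := by
  unfold EE
  rw [mem_filter, mem_Ioc]

/-- no element of `S` is `≡ 1` modulo another element (primes only) -/
def Good (S : Finset ℕ) : Prop := ∀ p ∈ S, ∀ q ∈ S, p.Prime → q.Prime → ¬ q ∣ p - 1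

/-- the primes counted through moduli in `S` lie outside `S` -/
lemma count_S (S : Finset ℕ) (hS : Good S) (y t z : ℕ) (ht : t ≤ y ^ 2) :
    ∑ q ∈ (Ioc y z).filter (fun q => q.Prime ∧ q ∈ S), ((P1 t q).card : ℝ) ≤
      (((EE S y).filter (fun p => p ≤ t)).card : ℝ) := by
  rw [← Nat.cast_sum, Nat.cast_le, ← Finset.card_sigma]
  apply Finset.card_le_card_of_injOn (fun x : (_ : ℕ) × ℕ => x.2)
  · rintro ⟨q, p⟩ hx
    rw [Finset.mem_coe, mem_sigma, mem_filter, mem_Ioc] at hx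
    simp only [mem_P1] at hx
    obtain ⟨⟨⟨hq1, hq2⟩, hqp, hqS⟩, hp1, hp2, hp3⟩ := hx
    rw [Finset.mem_coe, mem_filter, mem_EE]
    have hp2' := hp2.two_le
    have := Nat.le_of_dvd (by omega) hp3
    refine ⟨⟨⟨by simp only []; omega, by simp only []; omega⟩, hp2, ?_⟩, hp1⟩
    intro hpS
    exact hS p hpS q hqS hp2 hqp hp3
  · rintro ⟨q, p⟩ hx ⟨q', p'⟩ hx' hxx
    rw [Finset.mem_coe, mem_sigma, mem_filter, mem_Ioc] at hx hx'
    simp only [mem_P1] at hx hx'
    simp only [] at hxx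
    subst hxx
    obtain ⟨⟨⟨hq1, hq2⟩, hqp, hqS⟩, hp1, hp2, hp3⟩ := hx
    obtain ⟨⟨⟨hq1', hq2'⟩, hqp', hqS'⟩, _, _, hp3'⟩ := hx'
    have hp2' := hp2.two_le
    by_contra hne
    have hne' : q ≠ q' := by
      intro h; subst h; exact hne rfl
    have hco : Nat.Coprime q q' := (Nat.coprime_primes hqp hqp').mpr hne'
    have hd := hco.mul_dvd_of_dvd_of_dvd hp3 hp3'
    have h1 := Nat.le_of_dvd (by omega) hd
    have h2 : y ^ 2 < q * q' := by
      rw [pow_two]
      exact Nat.mul_lt_mul'' hq1 hq1'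
    omega

/-- Abel summation, as an inequality -/
lemma abel_low (E : Finset ℕ) (N : ℕ) (hN : 1 ≤ N) (hE : ∀ q ∈ E, 1 ≤ q ∧ q ≤ N) :
    ∑ n ∈ Ico 1 N, ((E.filter (fun q => q ≤ n)).card : ℝ) * (1 / ((n : ℝ) * (n + 1))) ≤
      ∑ q ∈ E, 1 / (q : ℝ) := by
  have h1 : ∀ n ∈ Ico 1 N, ((E.filter (fun q => q ≤ n)).card : ℝ) * (1 / ((n : ℝ) * (n + 1))) =
      ∑ q ∈ E, if q ≤ n then (1 / ((n : ℝ) * (n + 1))) else 0 := by
    intro n _
    rw [← Finset.sum_filter, Finset.sum_const, nsmul_eq_mul]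
  rw [Finset.sum_congr rfl h1, Finset.sum_comm]
  apply Finset.sum_le_sum
  intro q hq
  obtain ⟨hq1, hqN⟩ := hE q hq
  rw [← Finset.sum_filter]
  have h2 : (Ico 1 N).filter (fun n => q ≤ n) = Ico q N := by
    ext n
    simp only [mem_filter, mem_Ico]
    omega
  rw [h2]
  have h3 : ∀ M : ℕ, q ≤ M → ∑ n ∈ Ico q M, (1 / ((n : ℝ) * (n + 1))) = 1 / (q : ℝ) - 1 / (M : ℝ) := by
    intro M hM
    induction M, hM using Nat.le_induction with
    | base => simp
    | succ M hM ih =>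
      rw [Finset.sum_Ico_succ_top hM, ih]
      have : (0 : ℝ) < M := by exact_mod_cast (by omega : 0 < M)
      push_cast
      field_simp
      ring
  rw [h3 N hqN]
  have : (0 : ℝ) ≤ 1 / (N : ℝ) := by positivity
  linarith

lemma harm_low (a b : ℕ) (hab : a ≤ b) :
    Real.log ((b : ℝ) + 1) - Real.log ((a : ℝ) + 1) ≤ ∑ n ∈ Ico a b, 1 / ((n : ℝ) + 1) := by
  induction b, hab using Nat.le_induction with
  | base => simp
  | succ b hb ih =>
    rw [Finset.sum_Ico_succ_top hb]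
    have hb0 : (0 : ℝ) < (b : ℝ) + 1 := by positivity
    have h1 : Real.log (((b + 1 : ℕ) : ℝ) + 1) - Real.log ((b : ℝ) + 1) ≤ 1 / ((b : ℝ) + 1) := by
      rw [← Real.log_div (by positivity) hb0.ne']
      have h2 : (((b + 1 : ℕ) : ℝ) + 1) / ((b : ℝ) + 1) = 1 + 1 / ((b : ℝ) + 1) := by
        push_cast; field_simp
      rw [h2]
      have h3 := Real.log_le_sub_one_of_pos (by positivity : (0 : ℝ) < 1 + 1 / ((b : ℝ) + 1))
      linarith
    linarith

/-- **Lemma B.** The primes of `(y, y²]` missed by a good set have reciprocal sum bounded below. -/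
theorem lemB : ∃ τ : ℝ, 0 < τ ∧ ∃ Y : ℕ, ∀ y : ℕ, Y ≤ y → ∀ S : Finset ℕ, Good S →
    τ ≤ ∑ q ∈ EE S y, 1 / (q : ℝ) := by
  obtain ⟨c₀, κ, hc₀, hκ, hκ4, T, hA⟩ := goldA
  obtain ⟨C, hC, hbt⟩ := bt_one
  obtain ⟨s, hs⟩ : ∃ s : ℝ, s = 1 / (1 / 2 + κ) := ⟨_, rfl⟩
  have hs0 : 0 < s := by rw [hs]; positivity
  have hs2 : s < 2 := by
    rw [hs, div_lt_iff₀ (by positivity)]; linarith
  have hs1 : s * (1 / 2 + κ) = 1 := by rw [hs]; field_simp
  have h2s : 0 < 2 - s := by linarith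
  have hev : ∀ᶠ y : ℕ in atTop, 3 ≤ y ∧ (T : ℝ) + 2 ≤ (y : ℝ) ^ s ∧
      8 / (2 - s) ≤ Real.log y ∧ (3 : ℝ) ≤ (y : ℝ) ^ (2 - s) := by
    filter_upwards [eventually_ge_atTop 3, ev_rpow ((T : ℝ) + 2) s hs0, ev_log (8 / (2 - s)),
      ev_rpow 3 (2 - s) h2s] with y h1 h2 h3 h4
    exact ⟨h1, h2, h3, h4⟩
  obtain ⟨Y, hY⟩ := eventually_atTop.mp hev
  refine ⟨min (c₀ * κ / (2 * C)) ((c₀ / 8) * (2 - s)), by positivity, Y, fun y hy S hS => ?_⟩
  obtain ⟨hy3, hyT, hylog, hys⟩ := hY y hy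
  have hy3' : (3 : ℝ) ≤ y := by exact_mod_cast hy3
  have hy0 : (0 : ℝ) < y := by linarith
  have hly : 0 < Real.log y := Real.log_pos (by linarith)
  by_contra hcon
  rw [not_le, lt_min_iff] at hcon
  obtain ⟨hm1, hm2⟩ := hcon
  set mass := ∑ q ∈ EE S y, 1 / (q : ℝ) with hmass
  set t₀ : ℕ := ⌈(y : ℝ) ^ s⌉₊ with ht₀
  have ht0ge : (y : ℝ) ^ s ≤ t₀ := Nat.le_ceil _
  have ht0T : T + 2 ≤ t₀ := by
    have : (T : ℝ) + 2 ≤ t₀ := hyT.trans ht0ge
    exact_mod_cast this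
  have ht0le : (t₀ : ℝ) < (y : ℝ) ^ s + 1 := Nat.ceil_lt_add_one (by positivity)
  have hys1 : (1 : ℝ) ≤ (y : ℝ) ^ s := Real.one_le_rpow (by linarith) hs0.le
  have ht0N : t₀ ≤ y ^ 2 := by
    have h1 : (y : ℝ) ^ 2 = (y : ℝ) ^ s * (y : ℝ) ^ (2 - s) := by
      rw [← Real.rpow_add hy0]
      have : s + (2 - s) = ((2 : ℕ) : ℝ) := by push_cast; ring
      rw [this, Real.rpow_natCast]
    have h2 : (t₀ : ℝ) ≤ (y : ℝ) ^ 2 := by
      rw [h1]
      nlinarith
    exact_mod_cast h2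
  -- many elements of `E` up to `t`
  have hcount : ∀ t ∈ Ico t₀ (y ^ 2), (c₀ / 2) * (t / Real.log t) ≤
      (((EE S y).filter (fun p => p ≤ t)).card : ℝ) := by
    intro t ht
    rw [mem_Ico] at ht
    have htN : t ≤ y ^ 2 := ht.2.le
    have ht2 : 2 ≤ t := by omega
    have ht2' : (2 : ℝ) ≤ t := by exact_mod_cast ht2
    have ht0' : (0 : ℝ) < t := by linarith
    have hL : 0 < Real.log t := Real.log_pos (by linarith)
    have htt : (t₀ : ℝ) ≤ t := by exact_mod_cast ht.1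
    have hyt : (y : ℝ) ≤ (t : ℝ) ^ (1 / 2 + κ) := by
      calc (y : ℝ) = ((y : ℝ) ^ s) ^ (1 / 2 + κ) := by
            rw [← Real.rpow_mul hy0.le, hs1, Real.rpow_one]
        _ ≤ (t : ℝ) ^ (1 / 2 + κ) :=
            Real.rpow_le_rpow (by positivity) (ht0ge.trans htt) (by positivity)
    have h1 := hA t y (by omega) htN hyt
    set z : ℕ := ⌊(t : ℝ) ^ (1 - κ)⌋₊ with hz
    have hzle : (z : ℝ) ≤ (t : ℝ) ^ (1 - κ) := Nat.floor_le (by positivity)
    have hzt : z ≤ t := by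
      have : (z : ℝ) ≤ t := by
        refine hzle.trans ?_
        calc (t : ℝ) ^ (1 - κ) ≤ (t : ℝ) ^ (1 : ℝ) :=
              Real.rpow_le_rpow_of_exponent_le (by linarith) (by linarith)
          _ = t := Real.rpow_one _
      exact_mod_cast this
    have hsplit : ∑ q ∈ (Ioc y z).filter (fun q => q.Prime), ((P1 t q).card : ℝ) =
        ∑ q ∈ (Ioc y z).filter (fun q => q.Prime ∧ q ∈ S), ((P1 t q).card : ℝ) +
        ∑ q ∈ (Ioc y z).filter (fun q => q.Prime ∧ q ∉ S), ((P1 t q).card : ℝ) := by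
      rw [← Finset.sum_filter_add_sum_filter_not ((Ioc y z).filter (fun q => q.Prime))
        (fun q => q ∈ S), Finset.filter_filter, Finset.filter_filter]
    have h2 := count_S S hS y t z htN
    have h3 : ∑ q ∈ (Ioc y z).filter (fun q => q.Prime ∧ q ∉ S), ((P1 t q).card : ℝ) ≤
        (C / κ) * (t / Real.log t) * mass := by
      have h4 : ∀ q ∈ (Ioc y z).filter (fun q => q.Prime ∧ q ∉ S), ((P1 t q).card : ℝ) ≤
          (C / κ) * (t / Real.log t) * (1 / (q : ℝ)) := by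
        intro q hq
        rw [mem_filter, mem_Ioc] at hq
        have hqz : (q : ℝ) ≤ z := by exact_mod_cast hq.1.2
        refine (hbt κ hκ (by linarith) t q ht2 hq.2.1 (hqz.trans hzle)).trans (le_of_eq ?_)
        ring
      refine (Finset.sum_le_sum h4).trans ?_
      rw [← Finset.mul_sum]
      apply mul_le_mul_of_nonneg_left _ (by positivity)
      apply Finset.sum_le_sum_of_subset_of_nonneg
      · intro q hq
        rw [mem_filter, mem_Ioc] at hq
        rw [mem_EE]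
        exact ⟨⟨hq.1.1, by omega⟩, hq.2⟩
      · intro _ _ _; positivity
    have h5 : (C / κ) * (t / Real.log t) * mass ≤ (c₀ / 2) * (t / Real.log t) := by
      have h6 : (C / κ) * mass ≤ c₀ / 2 := by
        calc (C / κ) * mass ≤ (C / κ) * (c₀ * κ / (2 * C)) :=
              mul_le_mul_of_nonneg_left hm1.le (by positivity)
          _ = c₀ / 2 := by field_simp
      have h7 := mul_le_mul_of_nonneg_right h6 (by positivity : 0 ≤ (t : ℝ) / Real.log t)
      calc (C / κ) * (t / Real.log t) * mass = (C / κ) * mass * (t / Real.log t) := by ring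
        _ ≤ _ := h7
    rw [hsplit] at h1
    linarith only [h1, h2, h3, h5]
  -- Abel summation
  have hN1 : 1 ≤ y ^ 2 := Nat.one_le_pow _ _ (by omega)
  have hab := abel_low (EE S y) (y ^ 2) hN1 (fun q hq => by
    rw [mem_EE] at hq
    exact ⟨hq.2.1.pos, hq.1.2⟩)
  have h8 : ∑ n ∈ Ico t₀ (y ^ 2), (c₀ / (4 * Real.log y)) * (1 / ((n : ℝ) + 1)) ≤
      ∑ n ∈ Ico 1 (y ^ 2), (((EE S y).filter (fun q => q ≤ n)).card : ℝ) * (1 / ((n : ℝ) * (n + 1))) := by
    have h9 : ∑ n ∈ Ico t₀ (y ^ 2), (c₀ / (4 * Real.log y)) * (1 / ((n : ℝ) + 1)) ≤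
        ∑ n ∈ Ico t₀ (y ^ 2), (((EE S y).filter (fun q => q ≤ n)).card : ℝ) *
          (1 / ((n : ℝ) * (n + 1))) := by
      apply Finset.sum_le_sum
      intro n hn
      have h10 := hcount n hn
      rw [mem_Ico] at hn
      have hn2 : (2 : ℝ) ≤ n := by exact_mod_cast (by omega : 2 ≤ n)
      have hLn : 0 < Real.log n := Real.log_pos (by linarith)
      have hLn2 : Real.log n ≤ 2 * Real.log y := by
        have h11 : (n : ℝ) ≤ (y : ℝ) ^ 2 := by exact_mod_cast hn.2.le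
        have := Real.log_le_log (by linarith) h11
        rw [Real.log_pow] at this
        exact_mod_cast this
      calc (c₀ / (4 * Real.log y)) * (1 / ((n : ℝ) + 1))
          = (c₀ / 2) * (n / (2 * Real.log y)) * (1 / ((n : ℝ) * (n + 1))) := by
            field_simp
            norm_num
        _ ≤ (c₀ / 2) * (n / Real.log n) * (1 / ((n : ℝ) * (n + 1))) := by
            apply mul_le_mul_of_nonneg_right _ (by positivity)
            apply mul_le_mul_of_nonneg_left _ (by positivity)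
            exact div_le_div_of_nonneg_left (by linarith) hLn hLn2
        _ ≤ _ := mul_le_mul_of_nonneg_right h10 (by positivity)
    refine h9.trans ?_
    apply Finset.sum_le_sum_of_subset_of_nonneg
    · intro n hn
      rw [mem_Ico] at hn ⊢
      omega
    · intro _ _ _; positivity
  rw [← Finset.mul_sum] at h8
  have h12 := harm_low t₀ (y ^ 2) ht0N
  have h13 : 2 * Real.log y ≤ Real.log (((y ^ 2 : ℕ) : ℝ) + 1) := by
    have : 2 * Real.log y = Real.log ((y : ℝ) ^ 2) := by rw [Real.log_pow]; norm_num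
    rw [this]
    apply Real.log_le_log (by positivity)
    push_cast; linarith
  have h14 : Real.log ((t₀ : ℝ) + 1) ≤ s * Real.log y + 2 := by
    have h15 : (t₀ : ℝ) + 1 ≤ 3 * (y : ℝ) ^ s := by linarith
    have h16 := Real.log_le_log (by positivity) h15
    rw [Real.log_mul (by norm_num) (by positivity), Real.log_rpow hy0] at h16
    have h17 : Real.log 3 ≤ 2 := by
      have := Real.log_le_sub_one_of_pos (show (0 : ℝ) < 3 by norm_num)
      linarith
    linarith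
  have h18 : (2 - s) * Real.log y - 2 ≤ ∑ n ∈ Ico t₀ (y ^ 2), 1 / ((n : ℝ) + 1) := by
    have : (2 - s) * Real.log y = 2 * Real.log y - s * Real.log y := by ring
    linarith
  have h19 : (2 - s) * Real.log y / 2 ≤ (2 - s) * Real.log y - 2 := by
    rw [div_le_iff₀ h2s] at hylog
    have h20 : Real.log y * (2 - s) = (2 - s) * Real.log y := by ring
    rw [h20] at hylog
    linarith
  have h21 := mul_le_mul_of_nonneg_left (h19.trans h18)
    (by positivity : 0 ≤ c₀ / (4 * Real.log y))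
  have h22 : c₀ / (4 * Real.log y) * ((2 - s) * Real.log y / 2) = (c₀ / 8) * (2 - s) := by
    field_simp
    norm_num
  rw [h22] at h21
  linarith only [h21, h8, hab, hm2]

end Pool.Agent.TH76.LehP
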