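import Pool.Agent.TH76.LehP.Uni

set_option autoImplicit false

namespace Pool.Agent.TH76.LehP

/-- the basic properties of the solutions of `φ(n) ∣ n + 1` -/
lemma plus_props {n : ℕ} (hn : 2 < n) (h : n.totient ∣ n + 1) :
    Nat.Coprime n n.totient ∧ 2 * n.totient ≤ n + 1 := by
  have hco : Nat.Coprime n (n + 1) := by simp
  refine ⟨hco.coprime_dvd_right h, ?_⟩
  obtain ⟨k, hk⟩ := h
  have h1 : n.totient < n := Nat.totient_lt n (by omega)
  have hk2 : 2 ≤ k := by
    by_contra hlt
    have h4 : k = 0 ∨ k = 1 := by omega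
    rcases h4 with h4 | h4
    · rw [h4] at hk; omega
    · rw [h4, mul_one] at hk; omega
  calc 2 * n.totient = n.totient * 2 := mul_comm _ _
    _ ≤ n.totient * k := Nat.mul_le_mul_left _ hk2
    _ = n + 1 := hk.symm

end Pool.Agent.TH76.LehP
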