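import Pool.Agent.TH76.LehP.Sums

set_option autoImplicit false

namespace Pool.Agent.TH76.LehP

open Finset
open scoped ArithmeticFunction.vonMangoldt

/-- Brun-Titchmarsh for the class `1` and prime moduli `q ≤ t^{1-κ}` -/
lemma bt_one : ∃ C : ℝ, 1 ≤ C ∧ ∀ κ : ℝ, 0 < κ → κ ≤ 1 / 2 → ∀ t q : ℕ, 2 ≤ t → q.Prime →
    (q : ℝ) ≤ (t : ℝ) ^ (1 - κ) →
    ((P1 t q).card : ℝ) ≤ (C / κ) * (t / q) / Real.log t := by
  obtain ⟨C, hC, h⟩ := Helper923.PPS.brun_titchmarsh
  refine ⟨2 * C, by linarith, fun κ hκ hκ2 t q ht hq hqt => ?_⟩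
  have ht' : (2 : ℝ) ≤ t := by exact_mod_cast ht
  have ht0 : (0 : ℝ) < t := by linarith
  have hL : 0 < Real.log t := Real.log_pos (by linarith)
  have hq0 : (0 : ℝ) < q := by exact_mod_cast hq.pos
  have hq1 : (q : ℝ) < t := by
    refine hqt.trans_lt ?_
    calc (t : ℝ) ^ (1 - κ) < (t : ℝ) ^ (1 : ℝ) :=
          Real.rpow_lt_rpow_of_exponent_lt (by linarith) (by linarith)
      _ = t := Real.rpow_one _
  have hqt' : q ≤ t := by exact_mod_cast hq1.le
  set N : ℕ := t / q + 1 with hN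
  have hdiv : 1 ≤ t / q := (Nat.one_le_div_iff hq.pos).mpr hqt'
  have hN2 : 2 ≤ N := by omega
  have h1 := h 1 q N hN2 (Or.inr hq)
  have h2 : (P1 t q).card ≤ ((Finset.range N).filter (fun k => (1 + k * q).Prime)).card := by
    apply Finset.card_le_card_of_injOn (fun p => (p - 1) / q)
    · intro p hp
      rw [Finset.mem_coe, mem_P1] at hp
      have hp2 := hp.2.1.two_le
      rw [Finset.mem_coe, mem_filter, mem_range]
      have h3 : 1 + (p - 1) / q * q = p := by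
        rw [Nat.div_mul_cancel hp.2.2]; omega
      refine ⟨?_, ?_⟩
      · have : (p - 1) / q ≤ t / q := Nat.div_le_div_right (by omega)
        simp only []
        omega
      · simp only []
        rw [h3]; exact hp.2.1
    · intro p hp p' hp' hpp
      rw [Finset.mem_coe, mem_P1] at hp hp'
      have hp2 := hp.2.1.two_le
      have hp2' := hp'.2.1.two_le
      simp only [] at hpp
      have h3 : (p - 1) / q * q = p - 1 := Nat.div_mul_cancel hp.2.2
      have h4 : (p' - 1) / q * q = p' - 1 := Nat.div_mul_cancel hp'.2.2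
      rw [hpp] at h3
      omega
  have hN' : (t : ℝ) / q ≤ N := by
    rw [hN]; push_cast
    exact (Nat.lt_floor_add_one ((t : ℝ) / q)).le.trans (by rw [Nat.floor_div_eq_div])
  have hNle : (N : ℝ) ≤ 2 * (t / q) := by
    have h5 : ((t / q : ℕ) : ℝ) ≤ (t : ℝ) / q := Nat.cast_div_le
    have h6 : (1 : ℝ) ≤ (t : ℝ) / q := by rw [le_div_iff₀ hq0]; linarith
    rw [hN]; push_cast
    linarith
  have htq : (t : ℝ) ^ κ ≤ (t : ℝ) / q := by
    rw [le_div_iff₀ hq0]
    calc (t : ℝ) ^ κ * q ≤ (t : ℝ) ^ κ * (t : ℝ) ^ (1 - κ) :=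
          mul_le_mul_of_nonneg_left hqt (by positivity)
      _ = t := by rw [← Real.rpow_add ht0]; simp
  have hlogN : κ * Real.log t ≤ Real.log N := by
    rw [← Real.log_rpow ht0]
    exact Real.log_le_log (by positivity) (htq.trans hN')
  have hlogN0 : 0 < κ * Real.log t := by positivity
  calc ((P1 t q).card : ℝ)
      ≤ (((Finset.range N).filter (fun k => (1 + k * q).Prime)).card : ℝ) := by exact_mod_cast h2
    _ ≤ C * N / Real.log N := h1
    _ ≤ C * (2 * (t / q)) / (κ * Real.log t) := by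
        apply div_le_div₀ (by positivity) _ hlogN0 hlogN
        exact mul_le_mul_of_nonneg_left hNle (by linarith)
    _ = _ := by field_simp

/-- the primes `q` in `(D, y]` with `D ≈ t^{1/2-κ}`, `y ≤ t^{1/2+κ}` -/
lemma mid_part : ∃ C : ℝ, 0 < C ∧ ∀ κ : ℝ, 0 < κ → κ ≤ 1 / 4 → ∀ t D y : ℕ, 2 ≤ t → 1 ≤ D →
    D ≤ y → (t : ℝ) ^ (1 / 2 - κ) ≤ 2 * (D : ℝ) → (y : ℝ) ≤ (t : ℝ) ^ (1 / 2 + κ) →
    ∑ q ∈ (Ioc D y).filter (fun q => q.Prime), Real.log q * ((P1 t q).card : ℝ) ≤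
      C * (κ * t + t / Real.log t) := by
  obtain ⟨C, hC, h⟩ := bt_one
  obtain ⟨C1, hC1⟩ := Helper923.HMertens.mertens_log
  have hC10 : 0 ≤ C1 := (abs_nonneg _).trans (hC1 1 le_rfl)
  refine ⟨4 * C * (2 * C1 + 3), by positivity, fun κ hκ hκ4 t D y ht hD hDy hD2 hy => ?_⟩
  have ht' : (2 : ℝ) ≤ t := by exact_mod_cast ht
  have ht0 : (0 : ℝ) < t := by linarith
  have hL : 0 < Real.log t := Real.log_pos (by linarith)
  have hD0 : (0 : ℝ) < D := by exact_mod_cast hD
  have hy0 : (0 : ℝ) < y := by exact_mod_cast (by omega : 0 < y)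
  have hterm : ∀ q ∈ (Ioc D y).filter (fun q => q.Prime), Real.log q * ((P1 t q).card : ℝ) ≤
      (4 * C * t / Real.log t) * (Real.log q / q) := by
    intro q hq
    rw [mem_filter, mem_Ioc] at hq
    have hq0 : (0 : ℝ) < q := by exact_mod_cast hq.2.pos
    have h1 : (q : ℝ) ≤ (t : ℝ) ^ (1 - (1 / 4) : ℝ) := by
      have : (q : ℝ) ≤ y := by exact_mod_cast hq.1.2
      refine (this.trans hy).trans ?_
      apply Real.rpow_le_rpow_of_exponent_le (by linarith)
      linarith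
    have h2 := h (1 / 4) (by norm_num) (by norm_num) t q ht hq.2 h1
    have h3 := mul_le_mul_of_nonneg_left h2 (Real.log_natCast_nonneg q)
    refine h3.trans (le_of_eq ?_)
    field_simp
  refine (Finset.sum_le_sum hterm).trans ?_
  rw [← Finset.mul_sum]
  have hsplit : ∑ q ∈ (Ioc D y).filter (fun q => q.Prime), Real.log q / (q : ℝ) =
      ∑ q ∈ (Icc 1 y).filter Nat.Prime, Real.log q / (q : ℝ) -
      ∑ q ∈ (Icc 1 D).filter Nat.Prime, Real.log q / (q : ℝ) := by
    rw [eq_sub_iff_add_eq', ← Finset.sum_union]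
    · apply Finset.sum_congr _ (fun _ _ => rfl)
      ext q
      simp only [mem_union, mem_filter, mem_Icc, mem_Ioc]
      constructor
      · rintro (⟨h1, h2⟩ | ⟨h1, h2⟩)
        · exact ⟨by omega, h2⟩
        · exact ⟨by omega, h2⟩
      · rintro ⟨h1, h2⟩
        rcases Nat.lt_or_ge D q with h3 | h3
        · exact Or.inr ⟨by omega, h2⟩
        · exact Or.inl ⟨by omega, h2⟩
    · rw [Finset.disjoint_left]
      intro q h1 h2
      simp only [mem_filter, mem_Icc, mem_Ioc] at h1 h2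
      omega
  have h4 := (abs_le.mp (hC1 y (by omega))).2
  have h5 := (abs_le.mp (hC1 D hD)).1
  have h6 : Real.log y ≤ (1 / 2 + κ) * Real.log t := by
    rw [← Real.log_rpow ht0]
    exact Real.log_le_log hy0 hy
  have h7 : (1 / 2 - κ) * Real.log t ≤ Real.log D + 1 := by
    rw [← Real.log_rpow ht0]
    have h8 := Real.log_le_log (by positivity) hD2
    rw [Real.log_mul (by norm_num) hD0.ne'] at h8
    have := Real.log_two_lt_d9
    linarith
  have h9 : ∑ q ∈ (Ioc D y).filter (fun q => q.Prime), Real.log q / (q : ℝ) ≤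
      2 * κ * Real.log t + (2 * C1 + 1) := by
    rw [hsplit]
    nlinarith
  calc (4 * C * t / Real.log t) * ∑ q ∈ (Ioc D y).filter (fun q => q.Prime), Real.log q / (q : ℝ)
      ≤ (4 * C * t / Real.log t) * (2 * κ * Real.log t + (2 * C1 + 1)) :=
        mul_le_mul_of_nonneg_left h9 (by positivity)
    _ = 4 * C * (2 * (κ * t) + (2 * C1 + 1) * (t / Real.log t)) := by
        field_simp
    _ ≤ 4 * C * (2 * C1 + 3) * (κ * t + t / Real.log t) := by
        rw [mul_assoc (4 * C)]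
        apply mul_le_mul_of_nonneg_left _ (by linarith)
        have h10 : 0 ≤ κ * t := by positivity
        have h11 : 0 ≤ t / Real.log t := by positivity
        nlinarith [mul_nonneg hC10 h10, mul_nonneg hC10 h11]

/-- number of pairs `(q, p)` with `q > z`, `q ∣ p - 1`, `p ≤ t`: the cofactor is small -/
lemma far_count (t z : ℕ) (hz : 1 ≤ z) :
    ∑ q ∈ (Ioc z t).filter (fun q => q.Prime), ((P1 t q).card : ℝ) ≤
      ∑ m ∈ Icc 1 (t / z), (((Icc 1 (t / m)).filter
        (fun n => (1 * n + 0).Prime ∧ (m * n + 1).Prime)).card : ℝ) := by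
  rw [← Nat.cast_sum, ← Nat.cast_sum, Nat.cast_le, ← Finset.card_sigma, ← Finset.card_sigma]
  apply Finset.card_le_card_of_injOn (fun x : (_ : ℕ) × ℕ => (⟨(x.2 - 1) / x.1, x.1⟩ : (_ : ℕ) × ℕ))
  · rintro ⟨q, p⟩ hx
    rw [Finset.mem_coe, mem_sigma, mem_filter, mem_Ioc] at hx
    simp only [mem_P1] at hx
    obtain ⟨⟨⟨hq1, hq2⟩, hqp⟩, hp1, hp2, hp3⟩ := hx
    have hp2' := hp2.two_le
    obtain ⟨m, hm⟩ := hp3
    have hm' : (p - 1) / q = m := by rw [hm]; exact Nat.mul_div_cancel_left m hqp.pos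
    have hm0 : 1 ≤ m := by
      rcases Nat.eq_zero_or_pos m with h0 | h0
      · subst h0; omega
      · exact h0
    rw [Finset.mem_coe, mem_sigma, mem_Icc]
    simp only [mem_filter, mem_Icc]
    rw [hm']
    have hqm : q * m ≤ t := by omega
    refine ⟨⟨hm0, ?_⟩, ⟨hqp.pos, ?_⟩, ?_, ?_⟩
    · rw [Nat.le_div_iff_mul_le (by omega)]
      calc m * z ≤ m * q := Nat.mul_le_mul_left _ hq1.le
        _ = q * m := mul_comm _ _
        _ ≤ t := hqm
    · rw [Nat.le_div_iff_mul_le (by omega)]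
      exact hqm
    · simpa using hqp
    · have : m * q + 1 = p := by rw [mul_comm m q]; omega
      rw [this]; exact hp2
  · rintro ⟨q, p⟩ hx ⟨q', p'⟩ hx' hxx
    rw [Finset.mem_coe, mem_sigma, mem_filter, mem_Ioc] at hx hx'
    simp only [mem_P1] at hx hx'
    simp only [Sigma.mk.injEq, heq_eq_eq] at hxx
    obtain ⟨h1, h2⟩ := hxx
    subst h2
    obtain ⟨⟨⟨hq1, hq2⟩, hqp⟩, hp1, hp2, hp3⟩ := hx
    obtain ⟨⟨_, _⟩, hp1', hp2', hp3'⟩ := hx'
    have e1 : (p - 1) / q * q = p - 1 := Nat.div_mul_cancel hp3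
    have e2 : (p' - 1) / q * q = p' - 1 := Nat.div_mul_cancel hp3'
    rw [h1] at e1
    have := hp2.two_le
    have := hp2'.two_le
    have : p = p' := by omega
    subst this
    rfl

/-- the primes `q` in `(z, t]` with `z ≥ t^{1-κ}/2` -/
lemma far_part : ∃ C : ℝ, 0 < C ∧ ∀ κ : ℝ, 0 < κ → κ ≤ 1 / 4 → ∀ t z : ℕ, 256 ≤ t → z ≤ t →
    (t : ℝ) ^ (1 - κ) ≤ 2 * (z : ℝ) →
    ∑ q ∈ (Ioc z t).filter (fun q => q.Prime), Real.log q * ((P1 t q).card : ℝ) ≤
      C * (κ * t + t / Real.log t) := by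
  obtain ⟨C, hC, h⟩ := Erdos456.sieve_two
  obtain ⟨C1, hC1, h1⟩ := sum_GG_sq
  refine ⟨8 * C * C1, by positivity, fun κ hκ hκ4 t z ht hzt hz => ?_⟩
  have ht' : (256 : ℝ) ≤ t := by exact_mod_cast ht
  have ht0 : (0 : ℝ) < t := by linarith
  have hL : 0 < Real.log t := Real.log_pos (by linarith)
  have hz2 : (t : ℝ) ^ (3 / 4 : ℝ) ≤ 2 * (z : ℝ) := by
    refine le_trans ?_ hz
    exact Real.rpow_le_rpow_of_exponent_le (by linarith) (by linarith)
  have hs : (4 : ℝ) ≤ (t : ℝ) ^ (1 / 4 : ℝ) := by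
    calc (4 : ℝ) = (256 : ℝ) ^ (1 / 4 : ℝ) := by
          rw [show (256 : ℝ) = 4 ^ (4 : ℝ) by norm_num, ← Real.rpow_mul (by norm_num)]
          norm_num
      _ ≤ _ := Real.rpow_le_rpow (by norm_num) ht' (by norm_num)
  have hzs : 2 * (t : ℝ) ^ (1 / 2 : ℝ) ≤ z := by
    have e1 : (t : ℝ) ^ (3 / 4 : ℝ) = (t : ℝ) ^ (1 / 4 : ℝ) * (t : ℝ) ^ (1 / 2 : ℝ) := by
      rw [← Real.rpow_add ht0]; norm_num
    rw [e1] at hz2
    have : 0 < (t : ℝ) ^ (1 / 2 : ℝ) := by positivity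
    nlinarith
  have hs2 : (16 : ℝ) ≤ (t : ℝ) ^ (1 / 2 : ℝ) := by
    have e1 : (t : ℝ) ^ (1 / 2 : ℝ) = (t : ℝ) ^ (1 / 4 : ℝ) * (t : ℝ) ^ (1 / 4 : ℝ) := by
      rw [← Real.rpow_add ht0]; norm_num
    rw [e1]; nlinarith
  have hz0 : (0 : ℝ) < z := by linarith
  have hz1 : 1 ≤ z := by exact_mod_cast hz0
  have hlogq : ∀ q ∈ (Ioc z t).filter (fun q => q.Prime), Real.log q * ((P1 t q).card : ℝ) ≤
      Real.log t * ((P1 t q).card : ℝ) := by
    intro q hq
    rw [mem_filter, mem_Ioc] at hq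
    apply mul_le_mul_of_nonneg_right _ (Nat.cast_nonneg _)
    exact Real.log_le_log (by exact_mod_cast hq.2.pos) (by exact_mod_cast hq.1.2)
  refine (Finset.sum_le_sum hlogq).trans ?_
  rw [← Finset.mul_sum]
  have hM1 : 1 ≤ t / z := (Nat.one_le_div_iff (by omega)).mpr hzt
  have hterm : ∀ m ∈ Icc 1 (t / z), (((Icc 1 (t / m)).filter
        (fun n => (1 * n + 0).Prime ∧ (m * n + 1).Prime)).card : ℝ) ≤
      (4 * C * t / Real.log t ^ 2) * (Erdos456.GG m ^ 2 / m) := by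
    intro m hm
    rw [mem_Icc] at hm
    have hm0 : (0 : ℝ) < m := by exact_mod_cast hm.1
    have hmz : z ≤ t / m := by
      rw [Nat.le_div_iff_mul_le hm.1]
      have := (Nat.le_div_iff_mul_le (by omega : 0 < z)).mp hm.2
      rw [mul_comm]; exact this
    have hN : (t : ℝ) ^ (1 / 2 : ℝ) ≤ ((t / m : ℕ) : ℝ) := by
      have : (z : ℝ) ≤ ((t / m : ℕ) : ℝ) := by exact_mod_cast hmz
      linarith
    have hN2 : 2 ≤ t / m := by
      have : (2 : ℝ) ≤ ((t / m : ℕ) : ℝ) := by linarith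
      exact_mod_cast this
    have hlogN : (1 / 2) * Real.log t ≤ Real.log ((t / m : ℕ) : ℝ) := by
      rw [← Real.log_rpow ht0]
      exact Real.log_le_log (by positivity) hN
    have h2 := h 1 0 m 1 (t / m) one_pos hm.1 (Nat.coprime_one_left 0) (Nat.coprime_one_right m)
      (by simp) hN2
    have e1 : (1 * m * (((1 * 1 : ℕ) : ℤ) - ((m * 0 : ℕ) : ℤ)).natAbs) = m := by simp
    rw [e1] at h2
    refine h2.trans ?_
    have e2 : ((m : ℕ) : ℝ) / ((Nat.totient m : ℕ) : ℝ) = Erdos456.GG m := rfl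
    rw [e2]
    have hNle : ((t / m : ℕ) : ℝ) ≤ t / m := Nat.cast_div_le
    calc C * Erdos456.GG m ^ 2 * ((t / m : ℕ) : ℝ) / Real.log ((t / m : ℕ) : ℝ) ^ 2
        ≤ C * Erdos456.GG m ^ 2 * (t / m) / ((1 / 2) * Real.log t) ^ 2 := by
          apply div_le_div₀ (by positivity) _ (by positivity) _
          · exact mul_le_mul_of_nonneg_left hNle (by positivity)
          · exact pow_le_pow_left₀ (by positivity) hlogN 2
      _ = _ := by field_simp; norm_num
  have hsum := (far_count t z hz1).trans (Finset.sum_le_sum hterm)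
  rw [← Finset.mul_sum] at hsum
  have hMlog : Real.log ((t / z : ℕ) : ℝ) ≤ κ * Real.log t + 1 := by
    have h3 : ((t / z : ℕ) : ℝ) ≤ 2 * (t : ℝ) ^ κ := by
      refine Nat.cast_div_le.trans ?_
      rw [div_le_iff₀ hz0]
      have e3 : (t : ℝ) ^ κ * (t : ℝ) ^ (1 - κ) = t := by
        rw [← Real.rpow_add ht0]; simp
      have : 0 < (t : ℝ) ^ κ := by positivity
      nlinarith
    have h4 := Real.log_le_log (by exact_mod_cast hM1) h3
    rw [Real.log_mul (by norm_num) (by positivity), Real.log_rpow ht0] at h4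
    have := Real.log_two_lt_d9
    linarith
  have h5 : ∑ m ∈ Icc 1 (t / z), Erdos456.GG m ^ 2 / (m : ℝ) ≤ C1 * (2 + κ * Real.log t) := by
    refine (h1 (t / z) hM1).trans ?_
    apply mul_le_mul_of_nonneg_left _ hC1.le
    linarith
  calc Real.log t * ∑ q ∈ (Ioc z t).filter (fun q => q.Prime), ((P1 t q).card : ℝ)
      ≤ Real.log t * ((4 * C * t / Real.log t ^ 2) * ∑ m ∈ Icc 1 (t / z), Erdos456.GG m ^ 2 / (m : ℝ)) :=
        mul_le_mul_of_nonneg_left hsum hL.le
    _ ≤ Real.log t * ((4 * C * t / Real.log t ^ 2) * (C1 * (2 + κ * Real.log t))) := by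
        apply mul_le_mul_of_nonneg_left _ hL.le
        exact mul_le_mul_of_nonneg_left h5 (by positivity)
    _ = 4 * C * C1 * (κ * t + 2 * (t / Real.log t)) := by field_simp; ring
    _ ≤ 8 * C * C1 * (κ * t + t / Real.log t) := by
        have h10 : 0 ≤ κ * t := by positivity
        have h11 : 0 ≤ t / Real.log t := by positivity
        have h12 : 0 < C * C1 := by positivity
        nlinarith [mul_nonneg h12.le h10, mul_nonneg h12.le h11]

end Pool.Agent.TH76.LehP
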