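import Pool.Agent.TH76.LehP.Basic

set_option autoImplicit false

namespace Pool.Agent.TH76.LehP

open Finset
open scoped ArithmeticFunction.vonMangoldt

/-- `Λ(d)/d` off the primes -/
noncomputable def npf (d : ℕ) : ℝ := (if d.Prime then 0 else Λ d) / d

lemma npf_nonneg (d : ℕ) : 0 ≤ npf d := by
  unfold npf
  split_ifs
  · simp
  · exact div_nonneg ArithmeticFunction.vonMangoldt_nonneg (Nat.cast_nonneg _)

lemma npf_summable : Summable npf := by
  have h := ArithmeticFunction.vonMangoldt.summable_residueClass_non_primes_div (q := 1) (a := 0)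
  have h2 : (fun n : ℕ ↦ (if n.Prime then 0 else
      ArithmeticFunction.vonMangoldt.residueClass (0 : ZMod 1) n) / (n : ℝ)) = npf := by
    funext n
    unfold npf
    congr 1
    split_ifs
    · rfl
    · unfold ArithmeticFunction.vonMangoldt.residueClass
      rw [Set.indicator_of_mem]
      show ((n : ZMod 1)) = 0
      exact Subsingleton.elim _ _
  rwa [h2] at h

/-- tails of `∑ npf` -/
lemma npf_tail (ε : ℝ) (hε : 0 < ε) : ∃ D0 : ℕ, ∀ D t : ℕ, D0 ≤ D →
    ∑ d ∈ Ioc D t, npf d ≤ ε := by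
  obtain ⟨s, hs⟩ := summable_iff_vanishing_norm.mp npf_summable ε hε
  refine ⟨s.sup id + 1, fun D t hD => ?_⟩
  have h1 := hs (Ioc D t) (by
    rw [Finset.disjoint_left]
    intro a ha hb
    rw [mem_Ioc] at ha
    have := Finset.le_sup (f := id) hb
    simp only [id] at this
    omega)
  exact (le_abs_self _).trans h1.le

lemma vm_prime_div {p : ℕ} (hp : p.Prime) : Λ p = Real.log p :=
  ArithmeticFunction.vonMangoldt_apply_prime hp

/-- `φ(d) ≥ d/2` when `Λ(d) ≠ 0` -/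
lemma totient_ge_half {d : ℕ} (h : Λ d ≠ 0) : (d : ℝ) / 2 ≤ (Nat.totient d : ℝ) := by
  rw [ArithmeticFunction.vonMangoldt_ne_zero_iff] at h
  obtain ⟨p, k, hp, hk, rfl⟩ := (isPrimePow_nat_iff _).mp h
  rw [Nat.totient_prime_pow hp hk]
  obtain ⟨j, rfl⟩ : ∃ j, k = j + 1 := ⟨k - 1, by omega⟩
  have hp2 : (2 : ℝ) ≤ p := by exact_mod_cast hp.two_le
  have h1 : ((p - 1 : ℕ) : ℝ) = (p : ℝ) - 1 := by
    rw [Nat.cast_sub hp.one_lt.le]; simp
  rw [Nat.add_sub_cancel]
  push_cast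
  rw [h1, pow_succ]
  have : (0 : ℝ) ≤ (p : ℝ) ^ j := by positivity
  nlinarith

lemma log_div_summable : Summable (fun n : ℕ => 2 * (Real.log n / (n : ℝ) ^ 2)) := by
  apply Summable.mul_left
  have h1 : Summable (fun n : ℕ => 4 * (1 / (n : ℝ) ^ (3 / 2 : ℝ))) :=
    (Real.summable_one_div_nat_rpow.mpr (by norm_num)).mul_left _
  refine Summable.of_nonneg_of_le (fun n => ?_) (fun n => ?_) h1
  · exact div_nonneg (Real.log_natCast_nonneg n) (by positivity)
  · rcases Nat.eq_zero_or_pos n with rfl | hn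
    · simp
    have hn' : (0 : ℝ) < n := by exact_mod_cast hn
    have h2 : Real.log n ≤ 4 * (n : ℝ) ^ (1 / 2 : ℝ) := by
      have h3 := Real.log_le_rpow_div hn'.le (show (0 : ℝ) < 1 / 2 by norm_num)
      have : 0 ≤ (n : ℝ) ^ (1 / 2 : ℝ) := by positivity
      linarith
    have h4 : (n : ℝ) ^ 2 = (n : ℝ) ^ (1 / 2 : ℝ) * (n : ℝ) ^ (3 / 2 : ℝ) := by
      rw [← Real.rpow_add hn']
      norm_num
    rw [h4, mul_one_div, div_le_div_iff₀ (by positivity) (by positivity)]
    have : 0 ≤ (n : ℝ) ^ (3 / 2 : ℝ) := by positivity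
    nlinarith

/-- `∑_{d ≤ D} Λ(d)/φ(d) ≤ log D + C` -/
lemma sum_vm_totient : ∃ C : ℝ, 0 < C ∧ ∀ D : ℕ, 1 ≤ D →
    ∑ d ∈ Icc 1 D, Λ d / (Nat.totient d : ℝ) ≤ Real.log D + C := by
  obtain ⟨C1, hC1⟩ := Helper923.HMertens.mertens_log
  have hC10 : 0 ≤ C1 := (abs_nonneg _).trans (hC1 1 le_rfl)
  set A : ℝ := ∑' n : ℕ, 2 * (Real.log n / (n : ℝ) ^ 2) with hA
  set B : ℝ := ∑' n : ℕ, npf n with hB
  have hA0 : 0 ≤ A := tsum_nonneg (fun n => by
    have := Real.log_natCast_nonneg n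
    positivity)
  have hB0 : 0 ≤ B := tsum_nonneg npf_nonneg
  refine ⟨C1 + A + 2 * B + 1, by positivity, fun D hD => ?_⟩
  have hterm : ∀ d ∈ Icc 1 D, Λ d / (Nat.totient d : ℝ) ≤
      (if d.Prime then Real.log d / d else 0) + 2 * (Real.log d / (d : ℝ) ^ 2) + 2 * npf d := by
    intro d hd
    rw [mem_Icc] at hd
    have hd0 : (0 : ℝ) < d := by exact_mod_cast hd.1
    have hlog : 0 ≤ Real.log d := Real.log_natCast_nonneg d
    by_cases hp : d.Prime
    · rw [vm_prime_div hp, Nat.totient_prime hp]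
      simp only [hp, if_true, npf]
      have hd2 : (2 : ℝ) ≤ d := by exact_mod_cast hp.two_le
      have h1 : ((d - 1 : ℕ) : ℝ) = (d : ℝ) - 1 := by
        rw [Nat.cast_sub hp.one_lt.le]; simp
      rw [h1]
      have h3 : 1 / ((d : ℝ) - 1) ≤ 1 / d + 2 * (1 / (d : ℝ) ^ 2) := by
        have h4 : 1 / (d : ℝ) + 2 * (1 / (d : ℝ) ^ 2) = (d + 2) / (d : ℝ) ^ 2 := by
          field_simp
        rw [h4, div_le_div_iff₀ (by linarith) (by positivity)]
        nlinarith
      have h5 := mul_le_mul_of_nonneg_left h3 hlog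
      calc Real.log d / ((d : ℝ) - 1) = Real.log d * (1 / ((d : ℝ) - 1)) := by ring
        _ ≤ _ := h5
        _ = _ := by ring
    · simp only [hp, if_false, npf, zero_add]
      have h6 : 0 ≤ 2 * (Real.log d / (d : ℝ) ^ 2) := by positivity
      suffices h : Λ d / (Nat.totient d : ℝ) ≤ 2 * (Λ d / d) by linarith
      by_cases h0 : Λ d = 0
      · rw [h0]; simp
      · have h7 := totient_ge_half h0
        have h8 : 0 ≤ Λ d := ArithmeticFunction.vonMangoldt_nonneg
        calc Λ d / (Nat.totient d : ℝ) ≤ Λ d / (d / 2) :=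
              div_le_div_of_nonneg_left h8 (by positivity) h7
          _ = 2 * (Λ d / d) := by field_simp
  refine (Finset.sum_le_sum hterm).trans ?_
  rw [Finset.sum_add_distrib, Finset.sum_add_distrib, ← Finset.sum_filter, ← Finset.mul_sum (f := npf)]
  have h1 := (abs_le.mp (hC1 D hD)).2
  have h2 : ∑ i ∈ Icc 1 D, 2 * (Real.log i / (i : ℝ) ^ 2) ≤ A :=
    log_div_summable.sum_le_tsum _ (fun n _ => by
      have := Real.log_natCast_nonneg n
      positivity)
  have h3 : ∑ i ∈ Icc 1 D, npf i ≤ B := npf_summable.sum_le_tsum _ (fun n _ => npf_nonneg n)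
  linarith

/-- `∑_{m ≤ M} (m/φ(m))²/m ≤ C (1 + log M)` -/
lemma sum_GG_sq : ∃ C : ℝ, 0 < C ∧ ∀ M : ℕ, 1 ≤ M →
    ∑ m ∈ Icc 1 M, Erdos456.GG m ^ 2 / m ≤ C * (1 + Real.log M) := by
  obtain ⟨C1, hC1, h⟩ := Erdos456.GG_sq_le
  have hsum : Summable (fun d : ℕ => 1 / (d : ℝ) ^ (3 / 2 : ℝ)) :=
    Real.summable_one_div_nat_rpow.mpr (by norm_num)
  set Z : ℝ := ∑' d : ℕ, 1 / (d : ℝ) ^ (3 / 2 : ℝ) with hZ
  have hZ0 : 0 ≤ Z := tsum_nonneg (fun d => by positivity)
  refine ⟨C1 * (Z + 1), by positivity, fun M hM => ?_⟩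
  have hharm : ∑ k ∈ Icc 1 M, 1 / (k : ℝ) ≤ 1 + Real.log M := by
    have h1 := harmonic_le_one_add_log M
    rw [harmonic_eq_sum_Icc] at h1
    push_cast at h1
    simpa [one_div] using h1
  have hlog : 0 ≤ Real.log M := Real.log_natCast_nonneg M
  have hstep : ∀ m ∈ Icc 1 M, Erdos456.GG m ^ 2 / m ≤
      C1 * ∑ d ∈ Icc 1 M, if d ∣ m then (d : ℝ) ^ (-(1/2) : ℝ) * (1 / m) else 0 := by
    intro m hm
    rw [mem_Icc] at hm
    have hm0 : (0 : ℝ) < m := by exact_mod_cast hm.1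
    rw [← Finset.sum_filter, div_le_iff₀ hm0]
    refine (h m).trans ?_
    rw [mul_assoc]
    apply mul_le_mul_of_nonneg_left _ hC1.le
    rw [Finset.sum_mul]
    have hset : m.divisors = (Icc 1 M).filter (fun d => d ∣ m) := by
      ext d
      rw [Nat.mem_divisors, mem_filter, mem_Icc]
      constructor
      · rintro ⟨h1, h2⟩
        have := Nat.le_of_dvd (by omega) h1
        have := Nat.pos_of_dvd_of_pos h1 (by omega)
        exact ⟨⟨by omega, by omega⟩, h1⟩
      · rintro ⟨_, h2⟩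
        exact ⟨h2, by omega⟩
    rw [hset]
    apply Finset.sum_le_sum
    intro d _
    have e1 : (1 / (m : ℝ)) * m = 1 := by field_simp
    rw [mul_assoc, e1, mul_one]
  refine (Finset.sum_le_sum hstep).trans ?_
  rw [← Finset.mul_sum, Finset.sum_comm, mul_assoc]
  apply mul_le_mul_of_nonneg_left _ hC1.le
  have hinner : ∀ d ∈ Icc 1 M, (∑ m ∈ Icc 1 M,
      if d ∣ m then (d : ℝ) ^ (-(1/2) : ℝ) * (1 / m) else 0) ≤
      (1 / (d : ℝ) ^ (3 / 2 : ℝ)) * (1 + Real.log M) := by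
    intro d hd
    rw [mem_Icc] at hd
    have hd0 : (0 : ℝ) < d := by exact_mod_cast hd.1
    rw [← Finset.sum_filter, ← Finset.mul_sum]
    have h1 : ∑ m ∈ (Icc 1 M).filter (fun m => d ∣ m), 1 / (m : ℝ) ≤
        (1 / (d : ℝ)) * (1 + Real.log M) := by
      have h2 : (Icc 1 M).filter (fun m => d ∣ m) ⊆ (Icc 1 M).image (fun k => d * k) := by
        intro m hm
        rw [mem_filter, mem_Icc] at hm
        obtain ⟨k, rfl⟩ := hm.2
        rw [mem_image]
        refine ⟨k, ?_, rfl⟩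
        rw [mem_Icc]
        have hk : 0 < k := Nat.pos_of_mul_pos_left (by omega : 0 < d * k) |> fun h => by
          rcases Nat.eq_zero_or_pos k with h0 | h0
          · subst h0; omega
          · exact h0
        have : k ≤ d * k := Nat.le_mul_of_pos_left k hd.1
        exact ⟨hk, by omega⟩
      calc ∑ m ∈ (Icc 1 M).filter (fun m => d ∣ m), 1 / (m : ℝ)
          ≤ ∑ m ∈ (Icc 1 M).image (fun k => d * k), 1 / (m : ℝ) :=
            Finset.sum_le_sum_of_subset_of_nonneg h2 (fun _ _ _ => by positivity)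
        _ = ∑ k ∈ Icc 1 M, 1 / ((d * k : ℕ) : ℝ) := by
            rw [Finset.sum_image]
            intro a _ b _ hab
            exact Nat.eq_of_mul_eq_mul_left hd.1 hab
        _ = (1 / (d : ℝ)) * ∑ k ∈ Icc 1 M, 1 / (k : ℝ) := by
            rw [Finset.mul_sum]
            apply Finset.sum_congr rfl
            intro k _
            push_cast
            rw [one_div_mul_one_div]
        _ ≤ _ := mul_le_mul_of_nonneg_left hharm (by positivity)
    calc (d : ℝ) ^ (-(1/2) : ℝ) * ∑ m ∈ (Icc 1 M).filter (fun m => d ∣ m), 1 / (m : ℝ)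
        ≤ (d : ℝ) ^ (-(1/2) : ℝ) * ((1 / (d : ℝ)) * (1 + Real.log M)) :=
          mul_le_mul_of_nonneg_left h1 (by positivity)
      _ = (1 / (d : ℝ) ^ (3 / 2 : ℝ)) * (1 + Real.log M) := by
          have e2 : (d : ℝ) ^ (-(1/2) : ℝ) * (1 / (d : ℝ)) = 1 / (d : ℝ) ^ (3 / 2 : ℝ) := by
            have e3 : 1 / (d : ℝ) = (d : ℝ) ^ (-1 : ℝ) := by rw [Real.rpow_neg_one, one_div]
            have e4 : 1 / (d : ℝ) ^ (3 / 2 : ℝ) = (d : ℝ) ^ (-(3 / 2) : ℝ) := by
              rw [Real.rpow_neg hd0.le, one_div]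
            rw [e4, e3, ← Real.rpow_add hd0]
            congr 1
            norm_num
          rw [← mul_assoc, e2]
  refine (Finset.sum_le_sum hinner).trans ?_
  rw [← Finset.sum_mul]
  apply mul_le_mul_of_nonneg_right _ (by linarith)
  have := hsum.sum_le_tsum (Icc 1 M) (fun n _ => by positivity)
  linarith

end Pool.Agent.TH76.LehP
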