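import Mathlib
import Pool.Agent.Erdos456.Sieve

set_option autoImplicit false

/-!
Selberg's sieve for primes `m + 1` such that `m` has no prime factor in a given finite set.
-/

namespace Pool.Agent.TH76.LehP

open Finset ArithmeticFunction BoundingSieve Pool.Agent.Erdos456 Pool.Agent.Erdos456.SieveAux

/-- product of the elements of `S` -/
def PS (S : Finset ℕ) : ℕ := ∏ r ∈ S, r

/-- the number of divisors of `gcd (n, ∏ S)` -/
def wS (S : Finset ℕ) (n : ℕ) : ℕ := (Nat.gcd n (PS S)).divisors.card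

/-- the sifted function: `(m + 1) ∏_{r ∈ S, r ∣ m} r` -/
def fS (S : Finset ℕ) (m : ℕ) : ℕ := (m + 1) * Nat.gcd m (PS S)

/-- a finite set of odd primes -/
def OddP (S : Finset ℕ) : Prop := ∀ r ∈ S, r.Prime ∧ 3 ≤ r

lemma PS_ne {S : Finset ℕ} (hS : OddP S) : PS S ≠ 0 := by
  unfold PS
  rw [Finset.prod_ne_zero_iff]
  intro r hr
  exact (hS r hr).1.ne_zero

lemma PS_squarefree {S : Finset ℕ} (hS : OddP S) : Squarefree (PS S) := by
  unfold PS
  induction S using Finset.induction_on with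
  | empty => simp
  | @insert p S hp ih =>
    have hS' : OddP S := fun r hr => hS r (Finset.mem_insert_of_mem hr)
    rw [Finset.prod_insert hp, Nat.squarefree_mul_iff]
    refine ⟨?_, (hS p (Finset.mem_insert_self _ _)).1.prime.squarefree, ih hS'⟩
    apply Nat.Coprime.prod_right
    intro r hr
    rw [Nat.coprime_primes (hS p (Finset.mem_insert_self _ _)).1 (hS' r hr).1]
    rintro rfl
    exact hp hr

lemma prime_dvd_PS {S : Finset ℕ} (hS : OddP S) {p : ℕ} (hp : p.Prime) : p ∣ PS S ↔ p ∈ S := by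
  unfold PS
  rw [Prime.dvd_finsetProd_iff hp.prime]
  constructor
  · rintro ⟨r, hr, hpr⟩
    rwa [(Nat.prime_dvd_prime_iff_eq hp (hS r hr).1).mp hpr]
  · intro h
    exact ⟨p, h, dvd_rfl⟩

lemma wS_prime_mem {S : Finset ℕ} (hS : OddP S) {p : ℕ} (hp : p.Prime) (h : p ∈ S) : wS S p = 2 := by
  unfold wS
  rw [Nat.gcd_eq_left ((prime_dvd_PS hS hp).mpr h), hp.divisors, Finset.card_pair hp.one_lt.ne]

lemma wS_prime_not_mem {S : Finset ℕ} (hS : OddP S) {p : ℕ} (hp : p.Prime) (h : p ∉ S) :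
    wS S p = 1 := by
  unfold wS
  have : Nat.gcd p (PS S) = 1 := by
    rw [← Nat.coprime_iff_gcd_eq_one, Nat.Prime.coprime_iff_not_dvd hp]
    rwa [prime_dvd_PS hS hp]
  rw [this]; simp

lemma wS_mul {S : Finset ℕ} {m n : ℕ} (h : Nat.Coprime m n) : wS S (m * n) = wS S m * wS S n := by
  unfold wS
  have e := Nat.Coprime.gcd_mul (PS S) h
  rw [Nat.gcd_comm (m * n) (PS S), e, Nat.gcd_comm (PS S) m, Nat.gcd_comm (PS S) n]
  apply Nat.Coprime.card_divisors_mul
  exact Nat.Coprime.coprime_dvd_left (Nat.gcd_dvd_left _ _)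
    (Nat.Coprime.coprime_dvd_right (Nat.gcd_dvd_left _ _) h)

lemma wS_le {S : Finset ℕ} {n : ℕ} (hn : 0 < n) : wS S n ≤ n := by
  unfold wS
  exact (Nat.card_divisors_le_self _).trans (Nat.gcd_le_left _ hn)

lemma wS_pos {S : Finset ℕ} {n : ℕ} (hn : 0 < n) : 0 < wS S n := by
  unfold wS
  rw [Finset.card_pos]
  exact ⟨1, Nat.one_mem_divisors.mpr (Nat.gcd_pos_of_pos_left _ hn).ne'⟩

/-- the density function -/
noncomputable def nuS (S : Finset ℕ) : ArithmeticFunction ℝ :=
  ⟨fun n => (wS S n : ℝ) / n, by simp⟩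

lemma nuS_apply (S : Finset ℕ) (n : ℕ) : nuS S n = (wS S n : ℝ) / n := rfl

lemma nuS_mult (S : Finset ℕ) : (nuS S).IsMultiplicative := by
  constructor
  · rw [nuS_apply]; simp [wS]
  · intro m n hmn
    rw [nuS_apply, nuS_apply, nuS_apply, wS_mul hmn]
    push_cast
    rw [mul_div_mul_comm]

lemma nuS_pos {S : Finset ℕ} {p : ℕ} (hp : p.Prime) : 0 < nuS S p := by
  rw [nuS_apply]
  have h1 : (0 : ℝ) < p := by exact_mod_cast hp.pos
  have h2 : (0 : ℝ) < wS S p := by exact_mod_cast wS_pos hp.pos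
  positivity

/-- `(1 - ν(p))⁻¹ ≤ p`, and `ν(p) < 1` -/
lemma nuS_bounds {S : Finset ℕ} (hS : OddP S) {p : ℕ} (hp : p.Prime) :
    nuS S p < 1 ∧ (1 - nuS S p)⁻¹ ≤ p := by
  have h2 : (2 : ℝ) ≤ p := by exact_mod_cast hp.two_le
  by_cases h : p ∈ S
  · have h3 : (3 : ℝ) ≤ p := by exact_mod_cast (hS p h).2
    rw [nuS_apply, wS_prime_mem hS hp h]
    constructor
    · rw [div_lt_one (by linarith)]; push_cast; linarith
    · push_cast
      have h4 : 1 - 2 / (p : ℝ) = (p - 2) / p := by field_simp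
      rw [h4, inv_div, div_le_iff₀ (by linarith)]
      nlinarith
  · rw [nuS_apply, wS_prime_not_mem hS hp h]
    constructor
    · rw [div_lt_one (by linarith)]; push_cast; linarith
    · push_cast
      have h4 : 1 - 1 / (p : ℝ) = (p - 1) / p := by field_simp
      rw [h4, inv_div, div_le_iff₀ (by linarith)]
      nlinarith

/-- prime divisors of the sifted function -/
lemma prime_dvd_fS {S : Finset ℕ} (hS : OddP S) {m p : ℕ} (hp : p.Prime) :
    p ∣ fS S m ↔ p ∣ m + 1 ∨ (p ∣ m ∧ p ∈ S) := by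
  unfold fS
  rw [hp.dvd_mul, Nat.dvd_gcd_iff, prime_dvd_PS hS hp]

/-- the sieve -/
noncomputable def svS (S : Finset ℕ) (hS : OddP S) (N R : ℕ) : BoundingSieve where
  support := (Icc 1 N).image (fS S)
  prodPrimes := PR R 1
  prodPrimes_squarefree := PR_squarefree R 1
  weights := fun x => (((Icc 1 N).filter (fun m => fS S m = x)).card : ℝ)
  weights_nonneg := fun _ => Nat.cast_nonneg _
  totalMass := N
  nu := nuS S
  nu_mult := nuS_mult S
  nu_pos_of_prime := fun _ hp _ => nuS_pos hp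
  nu_lt_one_of_prime := fun _ hp _ => (nuS_bounds hS hp).1

/-- sums over the support with the fibre weights -/
lemma fiber_sum (S : Finset ℕ) (N : ℕ) (c : ℕ → Prop) [DecidablePred c] :
    ∑ x ∈ (Icc 1 N).image (fS S),
      (if c x then (((Icc 1 N).filter (fun m => fS S m = x)).card : ℝ) else 0) =
      (((Icc 1 N).filter (fun m => c (fS S m))).card : ℝ) := by
  have h1 : (((Icc 1 N).filter (fun m => c (fS S m))).card : ℝ) =
      ∑ m ∈ Icc 1 N, if c (fS S m) then (1 : ℝ) else 0 := by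
    rw [Finset.card_filter]; push_cast; rfl
  rw [h1, ← Finset.sum_fiberwise_of_maps_to (g := fS S) (t := (Icc 1 N).image (fS S))
    (fun m hm => Finset.mem_image_of_mem _ hm)]
  apply Finset.sum_congr rfl
  intro x _
  by_cases hc : c x
  · rw [if_pos hc]
    have : ∀ m ∈ (Icc 1 N).filter (fun m => fS S m = x), (if c (fS S m) then (1 : ℝ) else 0) = 1 := by
      intro m hm
      rw [mem_filter] at hm
      rw [hm.2, if_pos hc]
    rw [Finset.sum_congr rfl this, Finset.sum_const, nsmul_eq_mul, mul_one]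
  · rw [if_neg hc]
    symm
    apply Finset.sum_eq_zero
    intro m hm
    rw [mem_filter] at hm
    rw [hm.2, if_neg hc]

/-- the indicator of `d ∣ f(m)` -/
lemma ind_fS {S : Finset ℕ} (hS : OddP S) {d m : ℕ} (hd : Squarefree d) :
    (∑ e ∈ (Nat.gcd d (PS S)).divisors, if (e ∣ 1 * m + 0 ∧ d / e ∣ 1 * m + 1) then (1 : ℝ) else 0) =
      if d ∣ fS S m then (1 : ℝ) else 0 := by
  have hd0 : d ≠ 0 := hd.ne_zero
  have hP0 := PS_ne hS
  have hg0 : Nat.gcd d (PS S) ≠ 0 := (Nat.gcd_pos_of_pos_left _ (Nat.pos_of_ne_zero hd0)).ne'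
  simp only [one_mul, add_zero]
  -- the only possible `e`
  set e₀ : ℕ := Nat.gcd (Nat.gcd d (PS S)) m with he₀
  have he₀d : e₀ ∣ Nat.gcd d (PS S) := Nat.gcd_dvd_left _ _
  have huniq : ∀ e ∈ (Nat.gcd d (PS S)).divisors, e ≠ e₀ → ¬ (e ∣ m ∧ d / e ∣ m + 1) := by
    intro e he hne ⟨h1, h2⟩
    rw [Nat.mem_divisors] at he
    apply hne
    have hed : e ∣ d := he.1.trans (Nat.gcd_dvd_left _ _)
    have h3 : e ∣ e₀ := Nat.dvd_gcd he.1 h1
    obtain ⟨c, hc⟩ := h3
    have hc1 : c = 1 := by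
      by_contra hc1
      obtain ⟨p, hp, hpc⟩ := Nat.exists_prime_and_dvd hc1
      have h4 : e * p ∣ e₀ := by rw [hc]; exact Nat.mul_dvd_mul_left e hpc
      have h5 : e * p ∣ d := h4.trans (he₀d.trans (Nat.gcd_dvd_left _ _))
      have h6 : p ∣ d / e := (Nat.dvd_div_iff_mul_dvd hed).mpr h5
      have h7 : p ∣ m := ((Dvd.intro_left e rfl).trans h4).trans (Nat.gcd_dvd_right _ _)
      have h8 : p ∣ m + 1 := h6.trans h2
      have h9 := (Nat.dvd_add_right h7).mp h8
      exact hp.one_lt.ne' (Nat.dvd_one.mp h9)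
    rw [hc, hc1, mul_one]
  rw [Finset.sum_eq_single e₀]
  · -- value at `e₀`
    congr 1
    rw [eq_iff_iff]
    have he₀m : e₀ ∣ m := Nat.gcd_dvd_right _ _
    have he₀dd : e₀ ∣ d := he₀d.trans (Nat.gcd_dvd_left _ _)
    constructor
    · rintro ⟨_, h2⟩
      unfold fS
      have h3 : d = d / e₀ * e₀ := (Nat.div_mul_cancel he₀dd).symm
      rw [h3]
      apply Nat.mul_dvd_mul h2
      exact Nat.dvd_gcd he₀m (he₀d.trans (Nat.gcd_dvd_right _ _))
    · intro h
      refine ⟨he₀m, ?_⟩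
      -- every prime of `d / e₀` divides `m + 1`
      have hsq : Squarefree (d / e₀) := hd.squarefree_of_dvd (Nat.div_dvd_of_dvd he₀dd)
      rw [← Nat.prod_primeFactors_of_squarefree hsq]
      apply Finset.prod_primes_dvd
      · intro p hp
        exact (Nat.prime_of_mem_primeFactors hp).prime
      · intro p hp
        have hpp := Nat.prime_of_mem_primeFactors hp
        have hpd : p ∣ d / e₀ := Nat.dvd_of_mem_primeFactors hp
        have hpd' : p ∣ d := hpd.trans (Nat.div_dvd_of_dvd he₀dd)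
        rcases (prime_dvd_fS hS hpp).mp (hpd'.trans h) with h1 | ⟨h1, h2⟩
        · exact h1
        · exfalso
          have h3 : p ∣ e₀ :=
            Nat.dvd_gcd (Nat.dvd_gcd hpd' ((prime_dvd_PS hS hpp).mpr h2)) h1
          have h4 : p * p ∣ d := by
            have := Nat.mul_dvd_mul hpd h3
            rwa [Nat.div_mul_cancel he₀dd] at this
          exact hpp.one_lt.ne' (Nat.isUnit_iff.mp (hd p h4))
  · intro e he hne
    rw [if_neg (huniq e he hne)]
  · intro h
    exact absurd (Nat.mem_divisors.mpr ⟨he₀d, hg0⟩) h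

/-- counting multiples -/
lemma count_fS {S : Finset ℕ} (hS : OddP S) {d : ℕ} (N : ℕ) (hd : Squarefree d) :
    |(((Icc 1 N).filter (fun m => d ∣ fS S m)).card : ℝ) - nuS S d * N| ≤ (wS S d : ℝ) := by
  have hd0 : 0 < d := Nat.pos_of_ne_zero hd.ne_zero
  have h2 : ∀ (q : ℕ → Prop) [DecidablePred q], (((Icc 1 N).filter q).card : ℝ)
        = ∑ n ∈ Icc 1 N, if q n then (1 : ℝ) else 0 := by
    intro q _
    rw [Finset.card_filter]; push_cast; rfl
  have h1 : (((Icc 1 N).filter (fun m => d ∣ fS S m)).card : ℝ) =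
      ∑ e ∈ (Nat.gcd d (PS S)).divisors,
        (((Icc 1 N).filter (fun m => e ∣ 1 * m + 0 ∧ d / e ∣ 1 * m + 1)).card : ℝ) := by
    rw [h2]
    simp_rw [h2]
    rw [Finset.sum_comm]
    apply Finset.sum_congr rfl
    intro m _
    exact (ind_fS hS hd).symm
  have h3 : nuS S d * N = ∑ e ∈ (Nat.gcd d (PS S)).divisors, (N : ℝ) / d := by
    rw [Finset.sum_const, nsmul_eq_mul, nuS_apply]
    unfold wS
    ring
  rw [h1, h3, ← Finset.sum_sub_distrib]
  refine (Finset.abs_sum_le_sum_abs _ _).trans ?_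
  have h4 : ∀ e ∈ (Nat.gcd d (PS S)).divisors,
      |(((Icc 1 N).filter (fun m => e ∣ 1 * m + 0 ∧ d / e ∣ 1 * m + 1)).card : ℝ) - (N : ℝ) / d|
        ≤ 1 := by
    intro e he
    rw [Nat.mem_divisors] at he
    have hed : e ∣ d := he.1.trans (Nat.gcd_dvd_left _ _)
    have he0 : 0 < e := Nat.pos_of_dvd_of_pos hed hd0
    have hmul : e * (d / e) = d := Nat.mul_div_cancel' hed
    have hde0 : 0 < d / e := Nat.div_pos (Nat.le_of_dvd hd0 hed) he0
    have h12 : Nat.Coprime e (d / e) := by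
      apply Nat.coprime_of_squarefree_mul
      rw [hmul]; exact hd
    obtain ⟨c, hc⟩ := exists_class_two (a₁ := 1) (b₁ := 0) (a₂ := 1) (b₂ := 1) he0 hde0
      (Nat.coprime_one_left _) (Nat.coprime_one_left _) h12
    have h5 : (Icc 1 N).filter (fun m => e ∣ 1 * m + 0 ∧ d / e ∣ 1 * m + 1)
        = (Icc 1 N).filter (fun m => m ≡ c [MOD d]) := by
      apply Finset.filter_congr
      intro m _
      rw [hc m, hmul]
    rw [h5]
    exact count_class N d c hd0
  refine (Finset.sum_le_sum h4).trans ?_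
  rw [Finset.sum_const, nsmul_eq_mul, mul_one]
  rfl

lemma rem_svS {S : Finset ℕ} (hS : OddP S) {N R d : ℕ} (hd : d ∣ PR R 1) :
    |(svS S hS N R).rem d| ≤ d := by
  have hsq : Squarefree d := (PR_squarefree R 1).squarefree_of_dvd hd
  have h1 := count_fS hS N hsq
  have h2 : (svS S hS N R).multSum d = (((Icc 1 N).filter (fun m => d ∣ fS S m)).card : ℝ) := by
    unfold multSum
    exact fiber_sum S N (fun x => d ∣ x)
  have h3 : (svS S hS N R).rem d =
      (((Icc 1 N).filter (fun m => d ∣ fS S m)).card : ℝ) - nuS S d * N := by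
    unfold BoundingSieve.rem
    rw [h2]; rfl
  rw [h3]
  refine h1.trans ?_
  exact_mod_cast wS_le (Nat.pos_of_ne_zero hsq.ne_zero)

lemma g_div_nuS {S : Finset ℕ} (hS : OddP S) {N R d : ℕ} (hd : d ∣ PR R 1) :
    (svS S hS N R).selbergTerms d / (svS S hS N R).nu d ≤ d := by
  have hsq : Squarefree d := (PR_squarefree R 1).squarefree_of_dvd hd
  have hnu : (svS S hS N R).nu d ≠ 0 := nu_ne_zero (s := svS S hS N R) hd
  rw [selbergTerms_apply, mul_comm, mul_div_assoc, div_self hnu, mul_one]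
  have h1 : (d : ℝ) = ∏ p ∈ d.primeFactors, (p : ℝ) := by
    conv_lhs => rw [← Nat.prod_primeFactors_of_squarefree hsq]
    push_cast; rfl
  rw [h1]
  apply Finset.prod_le_prod
  · intro p hp
    have := (nuS_bounds hS (Nat.prime_of_mem_primeFactors hp)).1
    rw [inv_nonneg]
    show 0 ≤ 1 - nuS S p
    linarith
  · intro p hp
    exact (nuS_bounds hS (Nat.prime_of_mem_primeFactors hp)).2

/-- lower bound for the Selberg sum by the squarefree sum -/
lemma JJ_svS {S : Finset ℕ} (hS : OddP S) {N R : ℕ} :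
    ∑ l ∈ SF R 1, (wS S l : ℝ) / l ≤ JJ (svS S hS N R) R := by
  set s := svS S hS N R with hs
  unfold JJ
  have hsub : SF R 1 ⊆ (Nat.divisors s.prodPrimes).filter (· ≤ R) := by
    intro l hl
    unfold SF at hl
    rw [mem_filter, mem_Icc] at hl
    rw [mem_filter, Nat.mem_divisors]
    exact ⟨⟨dvd_PR hl.1.2 hl.2.1 hl.2.2, P_ne s⟩, hl.1.2⟩
  calc ∑ l ∈ SF R 1, (wS S l : ℝ) / l ≤ ∑ l ∈ SF R 1, s.selbergTerms l := by
        apply Finset.sum_le_sum
        intro l hl
        have hl' := hsub hl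
        rw [mem_filter] at hl'
        have hlP := Nat.dvd_of_mem_divisors hl'.1
        rw [selbergTerms_apply]
        show nuS S l ≤ nuS S l * _
        have hnu : 0 < nuS S l := nu_pos_of_dvd_prodPrimes (s := s) hlP
        have h1 : (1 : ℝ) ≤ ∏ p ∈ l.primeFactors, (1 - s.nu p)⁻¹ := by
          have h0 : (1 : ℝ) = ∏ _p ∈ l.primeFactors, (1 : ℝ) := by simp
          refine h0.le.trans ?_
          apply Finset.prod_le_prod
          · intro p _; norm_num
          · intro p hp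
            have hpp := Nat.prime_of_mem_primeFactors hp
            have hpP := (Nat.dvd_of_mem_primeFactors hp).trans hlP
            have h2 := s.nu_lt_one_of_prime p hpp hpP
            have h3 := s.nu_pos_of_prime p hpp hpP
            have h4 : 0 < 1 - s.nu p := by linarith
            exact (one_le_inv₀ h4).2 (by linarith)
        nlinarith
    _ ≤ _ := by
        apply Finset.sum_le_sum_of_subset_of_nonneg hsub
        intro l hl _
        exact (g_pos (mem_filter.1 hl).1).le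

/-- the primes `m + 1` with no prime factor of `m` in `S` -/
lemma card_le_svS {S : Finset ℕ} (hS : OddP S) (N R : ℕ) (hR : 1 ≤ R) :
    (((Icc 1 N).filter (fun m => (m + 1).Prime ∧ ∀ r ∈ S, ¬ r ∣ m)).card : ℝ) ≤
      R + ((N : ℝ) / JJ (svS S hS N R) R + (R : ℝ) ^ 2 * ((R : ℝ) * R) ^ 2) := by
  classical
  have hsel := selberg_bound (s := svS S hS N R) R hR (A := R) (B := (R : ℝ) ^ 2)
    (by positivity) (by positivity)
    (by
      intro d hd hdR
      refine (g_div_nuS hS (Nat.dvd_of_mem_divisors hd)).trans ?_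
      exact_mod_cast hdR)
    (by
      intro d hd hdR
      refine (rem_svS hS (Nat.dvd_of_mem_divisors hd)).trans ?_
      exact_mod_cast hdR)
  have hsum : (svS S hS N R).siftedSum =
      (((Icc 1 N).filter (fun m => Nat.Coprime (PR R 1) (fS S m))).card : ℝ) := by
    unfold siftedSum
    exact fiber_sum S N (fun x => Nat.Coprime (PR R 1) x)
  have h1 : (Icc 1 N).filter (fun m => (m + 1).Prime ∧ ∀ r ∈ S, ¬ r ∣ m) ⊆
      Icc 1 R ∪ (Icc 1 N).filter (fun m => Nat.Coprime (PR R 1) (fS S m)) := by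
    intro m hm
    rw [mem_filter, mem_Icc] at hm
    rw [mem_union, mem_Icc, mem_filter, mem_Icc]
    obtain ⟨⟨hm1, hm2⟩, hp1, hp2⟩ := hm
    by_cases hmR : m ≤ R
    · left; exact ⟨hm1, hmR⟩
    · right
      refine ⟨⟨hm1, hm2⟩, ?_⟩
      rw [Nat.coprime_iff_gcd_eq_one]
      by_contra h
      obtain ⟨p, hp, hpd⟩ := Nat.exists_prime_and_dvd h
      have h2 : p ∣ PR R 1 := hpd.trans (Nat.gcd_dvd_left _ _)
      have h3 : p ∣ fS S m := hpd.trans (Nat.gcd_dvd_right _ _)
      have hpR := ((prime_dvd_PR hp).1 h2).1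
      rcases (prime_dvd_fS hS hp).mp h3 with h4 | ⟨h4, h5⟩
      · have h5 := (Nat.prime_dvd_prime_iff_eq hp hp1).1 h4
        omega
      · exact hp2 p h5 h4
  have h2 := Finset.card_le_card h1
  have h3 := h2.trans (Finset.card_union_le _ _)
  rw [Nat.card_Icc] at h3
  simp only [Nat.add_sub_cancel] at h3
  rw [hsum] at hsel
  have h4 : (((Icc 1 N).filter (fun m => (m + 1).Prime ∧ ∀ r ∈ S, ¬ r ∣ m)).card : ℝ) ≤
      R + (((Icc 1 N).filter (fun m => Nat.Coprime (PR R 1) (fS S m))).card : ℝ) := by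
    exact_mod_cast h3
  have h5 : (svS S hS N R).totalMass = N := rfl
  rw [h5] at hsel
  linarith

end Pool.Agent.TH76.LehP
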