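import Pool.Agent.TH76.LehP.SvA
import Pool.Agent.Helper923.HMertens

set_option autoImplicit false

/-!
Lower bound for the Selberg sum.
-/

namespace Pool.Agent.TH76.LehP

open Finset ArithmeticFunction BoundingSieve Pool.Agent.Erdos456 Pool.Agent.Erdos456.SieveAux

/-- `∏_{p ∣ n} g/p` -/
noncomputable def hh (g : ℝ) (n : ℕ) : ℝ := ∏ p ∈ n.primeFactors, (g / (p : ℝ))

lemma hh_nonneg {g : ℝ} (hg : 0 ≤ g) (n : ℕ) : 0 ≤ hh g n :=
  Finset.prod_nonneg (fun p _ => by positivity)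

lemma hh_mul (g : ℝ) {a b : ℕ} (h : Nat.Coprime a b) : hh g (a * b) = hh g a * hh g b := by
  unfold hh
  rw [Nat.Coprime.primeFactors_mul h, Finset.prod_union h.disjoint_primeFactors]

lemma hh_eq (g : ℝ) {a : ℕ} (h : Squarefree a) : hh g a = g ^ a.primeFactors.card / a := by
  unfold hh
  rw [Finset.prod_div_distrib, Finset.prod_const]
  congr 1
  conv_rhs => rw [← Nat.prod_primeFactors_of_squarefree h]
  push_cast; rfl

lemma card_div_sqf {a : ℕ} (h : Squarefree a) : a.divisors.card = 2 ^ a.primeFactors.card := by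
  rw [Nat.card_divisors h.ne_zero, ← Finset.prod_const]
  apply Finset.prod_congr rfl
  intro p hp
  have h1 : a.factorization p ≤ 1 := h.natFactorization_le_one p
  have h2 : 0 < a.factorization p :=
    (Nat.prime_of_mem_primeFactors hp).factorization_pos_of_dvd h.ne_zero
      (Nat.dvd_of_mem_primeFactors hp)
  omega

/-- sums over squarefree numbers are bounded by Euler products -/
lemma euler_upper (E T : Finset ℕ) (g : ℝ) (hg : 0 ≤ g)
    (hE : ∀ a ∈ E, Squarefree a ∧ ∀ p : ℕ, p.Prime → p ∣ a → p ∈ T) :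
    ∑ a ∈ E, hh g a ≤ Real.exp (g * ∑ p ∈ T, 1 / (p : ℝ)) := by
  classical
  have h1 : ∑ a ∈ E, hh g a ≤ ∑ t ∈ T.powerset, ∏ p ∈ t, (g / (p : ℝ)) := by
    apply sum_le_of_inj (fun a => a.primeFactors)
    · intro a ha
      rw [Finset.mem_powerset]
      intro p hp
      exact (hE a ha).2 p (Nat.prime_of_mem_primeFactors hp) (Nat.dvd_of_mem_primeFactors hp)
    · intro a ha b hb hab
      simp only at hab
      rw [← Nat.prod_primeFactors_of_squarefree (hE a ha).1,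
        ← Nat.prod_primeFactors_of_squarefree (hE b hb).1, hab]
    · intro a _; exact le_rfl
    · intro t _
      exact Finset.prod_nonneg (fun p _ => by positivity)
  refine h1.trans ?_
  rw [← Finset.prod_one_add, Finset.mul_sum, Real.exp_sum]
  apply Finset.prod_le_prod
  · intro p _; positivity
  · intro p _
    have := Real.add_one_le_exp (g * (1 / (p : ℝ)))
    have e : g / (p : ℝ) = g * (1 / p) := by ring
    rw [e]; linarith

/-- `S`-part and the part prime to `S` -/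
def EA (S : Finset ℕ) (Z : ℕ) : Finset ℕ := (SF Z 1).filter (fun a => a ∣ PS S)
def EB (S : Finset ℕ) (Z : ℕ) : Finset ℕ := (SF Z 1).filter (fun b => Nat.Coprime b (PS S))

lemma mem_SF1 {Z l : ℕ} : l ∈ SF Z 1 ↔ (1 ≤ l ∧ l ≤ Z) ∧ Squarefree l := by
  unfold SF
  rw [mem_filter, mem_Icc]
  simp

/-- splitting of the squarefree sum -/
lemma split_sqf (S : Finset ℕ) (Z : ℕ) (g : ℝ) (hg : 0 ≤ g) :
    ∑ l ∈ SF Z 1, hh g l ≤ (∑ a ∈ EA S Z, hh g a) * (∑ b ∈ EB S Z, hh g b) := by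
  classical
  rw [Finset.sum_mul_sum, ← Finset.sum_product']
  apply sum_le_of_inj (fun l => (Nat.gcd l (PS S), l / Nat.gcd l (PS S)))
  · intro l hl
    rw [mem_SF1] at hl
    obtain ⟨⟨h1, h2⟩, h3⟩ := hl
    have hg0 : 0 < Nat.gcd l (PS S) := Nat.gcd_pos_of_pos_left _ h1
    have hgl : Nat.gcd l (PS S) ∣ l := Nat.gcd_dvd_left _ _
    have hdl : l / Nat.gcd l (PS S) ∣ l := Nat.div_dvd_of_dvd hgl
    have hd0 : 0 < l / Nat.gcd l (PS S) := Nat.div_pos (Nat.le_of_dvd h1 hgl) hg0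
    rw [mem_product]
    unfold EA EB
    rw [mem_filter, mem_filter, mem_SF1, mem_SF1]
    refine ⟨⟨⟨⟨hg0, (Nat.le_of_dvd h1 hgl).trans h2⟩, h3.squarefree_of_dvd hgl⟩,
      Nat.gcd_dvd_right _ _⟩, ⟨⟨hd0, (Nat.le_of_dvd h1 hdl).trans h2⟩,
      h3.squarefree_of_dvd hdl⟩, ?_⟩
    -- coprimality
    simp only
    rw [Nat.coprime_iff_gcd_eq_one]
    by_contra h
    obtain ⟨p, hp, hpd⟩ := Nat.exists_prime_and_dvd h
    have h4 : p ∣ l / Nat.gcd l (PS S) := hpd.trans (Nat.gcd_dvd_left _ _)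
    have h5 : p ∣ Nat.gcd l (PS S) := Nat.dvd_gcd (h4.trans hdl) (hpd.trans (Nat.gcd_dvd_right _ _))
    have h6 : p * p ∣ l := by
      have := Nat.mul_dvd_mul h4 h5
      rwa [Nat.div_mul_cancel hgl] at this
    exact hp.one_lt.ne' (Nat.isUnit_iff.mp (h3 p h6))
  · intro l hl l' hl' h
    simp only [Prod.mk.injEq] at h
    rw [← Nat.div_mul_cancel (Nat.gcd_dvd_left l (PS S)),
      ← Nat.div_mul_cancel (Nat.gcd_dvd_left l' (PS S)), h.1]
    rw [h.1] at h
    rw [h.2]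
  · intro l hl
    rw [mem_SF1] at hl
    have hgl : Nat.gcd l (PS S) ∣ l := Nat.gcd_dvd_left _ _
    have hmul : Nat.gcd l (PS S) * (l / Nat.gcd l (PS S)) = l := Nat.mul_div_cancel' hgl
    have hco : Nat.Coprime (Nat.gcd l (PS S)) (l / Nat.gcd l (PS S)) := by
      apply Nat.coprime_of_squarefree_mul
      rw [hmul]; exact hl.2
    simp only
    rw [← hh_mul g hco, hmul]
  · rintro ⟨a, b⟩ _
    exact mul_nonneg (hh_nonneg hg a) (hh_nonneg hg b)

/-- the product of the two parts is below the sieve sum -/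
lemma two_parts {S : Finset ℕ} (hS : OddP S) (Z : ℕ) :
    (∑ a ∈ EA S Z, hh 2 a) * (∑ b ∈ EB S Z, hh 1 b) ≤ ∑ l ∈ SF (Z ^ 2) 1, (wS S l : ℝ) / l := by
  classical
  have key : ∀ a b : ℕ, a ∈ EA S Z → b ∈ EB S Z → Nat.gcd (a * b) (PS S) = a ∧ Nat.Coprime a b := by
    intro a b ha hb
    unfold EA at ha
    unfold EB at hb
    rw [mem_filter] at ha hb
    have hco : Nat.Coprime a b := (Nat.Coprime.coprime_dvd_right ha.2 hb.2).symm
    refine ⟨?_, hco⟩
    rw [Nat.Coprime.gcd_mul_right_cancel a hb.2, Nat.gcd_eq_left ha.2]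
  rw [Finset.sum_mul_sum, ← Finset.sum_product']
  apply sum_le_of_inj (fun t : ℕ × ℕ => t.1 * t.2)
  · rintro ⟨a, b⟩ hab
    rw [mem_product] at hab
    obtain ⟨h1, h2⟩ := key a b hab.1 hab.2
    have ha := hab.1
    have hb := hab.2
    unfold EA at ha
    unfold EB at hb
    rw [mem_filter, mem_SF1] at ha hb
    rw [mem_SF1]
    simp only at ha hb ⊢
    refine ⟨⟨Nat.mul_pos ha.1.1.1 hb.1.1.1, ?_⟩, ?_⟩
    · rw [pow_two]; exact Nat.mul_le_mul ha.1.1.2 hb.1.1.2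
    · rw [Nat.squarefree_mul_iff]
      exact ⟨h2, ha.1.2, hb.1.2⟩
  · rintro ⟨a, b⟩ hab ⟨a', b'⟩ hab' h
    rw [Finset.mem_coe, mem_product] at hab hab'
    simp only at h hab hab'
    obtain ⟨h1, h2⟩ := key a b hab.1 hab.2
    obtain ⟨h1', h2'⟩ := key a' b' hab'.1 hab'.2
    have haa : a = a' := by rw [← h1, ← h1', h]
    subst haa
    have ha := hab.1
    unfold EA at ha
    rw [mem_filter, mem_SF1] at ha
    have := Nat.eq_of_mul_eq_mul_left ha.1.1.1 h
    rw [this]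
  · rintro ⟨a, b⟩ hab
    rw [mem_product] at hab
    simp only at hab ⊢
    obtain ⟨h1, h2⟩ := key a b hab.1 hab.2
    have ha := hab.1
    have hb := hab.2
    unfold EA at ha
    unfold EB at hb
    rw [mem_filter, mem_SF1] at ha hb
    unfold wS
    rw [h1, card_div_sqf ha.1.2, hh_eq 2 ha.1.2, hh_eq 1 hb.1.2, one_pow]
    push_cast
    apply le_of_eq
    rw [div_mul_div_comm, mul_one]
  · intro l _
    positivity

/-- `F_S(Z)` -/
noncomputable def FS (S : Finset ℕ) (Z : ℕ) : ℝ := ∑ r ∈ S.filter (fun r => r ≤ Z), 1 / (r : ℝ)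

/-- all primes up to `Z` -/
noncomputable def MZ (Z : ℕ) : ℝ := ∑ p ∈ (Icc 1 Z).filter Nat.Prime, 1 / (p : ℝ)

lemma FS_nonneg (S : Finset ℕ) (Z : ℕ) : 0 ≤ FS S Z :=
  Finset.sum_nonneg (fun _ _ => by positivity)

lemma FS_mono (S : Finset ℕ) {w Z : ℕ} (h : w ≤ Z) : FS S w ≤ FS S Z := by
  unfold FS
  apply Finset.sum_le_sum_of_subset_of_nonneg
  · intro r hr
    rw [mem_filter] at hr ⊢
    exact ⟨hr.1, hr.2.trans h⟩
  · intro _ _ _; positivity

lemma FS_le_MZ {S : Finset ℕ} (hS : OddP S) (Z : ℕ) : FS S Z ≤ MZ Z := by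
  unfold FS MZ
  apply Finset.sum_le_sum_of_subset_of_nonneg
  · intro r hr
    rw [mem_filter] at hr
    rw [mem_filter, mem_Icc]
    exact ⟨⟨(hS r hr.1).1.pos, hr.2⟩, (hS r hr.1).1⟩
  · intro _ _ _; positivity

/-- lower bound for the sieve sum -/
lemma J_lower {S : Finset ℕ} (hS : OddP S) (X Z : ℕ) (hZ : Z = X ^ 2) :
    (U X 1) ^ 2 * U Z 1 * Real.exp (FS S Z) ≤
      2 * Real.exp (2 * MZ Z) * ∑ l ∈ SF (Z ^ 2) 1, (wS S l : ℝ) / l := by
  classical
  set A1 := ∑ a ∈ EA S Z, hh 1 a with hA1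
  set B1 := ∑ b ∈ EB S Z, hh 1 b with hB1
  set A2 := ∑ a ∈ EA S Z, hh 2 a with hA2
  set B2 := ∑ b ∈ EB S Z, hh 2 b with hB2
  have hA1n : 0 ≤ A1 := Finset.sum_nonneg (fun _ _ => hh_nonneg zero_le_one _)
  have hB1n : 0 ≤ B1 := Finset.sum_nonneg (fun _ _ => hh_nonneg zero_le_one _)
  have hA2n : 0 ≤ A2 := Finset.sum_nonneg (fun _ _ => hh_nonneg zero_le_two _)
  have hB2n : 0 ≤ B2 := Finset.sum_nonneg (fun _ _ => hh_nonneg zero_le_two _)
  have h1 := two_parts hS Z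
  have h2 := split_sqf S Z 1 zero_le_one
  have h3 := split_sqf S Z 2 zero_le_two
  rw [← hA2, ← hB1] at h1
  rw [← hA1, ← hB1] at h2
  rw [← hA2, ← hB2] at h3
  have e1 : ∑ l ∈ SF Z 1, hh 1 l = U Z 1 := by
    unfold U
    apply Finset.sum_congr rfl
    intro l hl
    rw [mem_SF1] at hl
    rw [hh_eq 1 hl.2, one_pow]
  have e2 : ∑ l ∈ SF Z 1, hh 2 l = ∑ l ∈ SF (X ^ 2) 1, ((Nat.divisors l).card : ℝ) / l := by
    rw [hZ]
    apply Finset.sum_congr rfl
    intro l hl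
    rw [mem_SF1] at hl
    rw [hh_eq 2 hl.2, card_div_sqf hl.2]
    push_cast; rfl
  have h4 := U_sq X 1
  rw [← e2] at h4
  rw [e1] at h2
  have h5 : A1 ≤ Real.exp (FS S Z) := by
    have := euler_upper (EA S Z) (S.filter (fun r => r ≤ Z)) 1 zero_le_one (by
      intro a ha
      unfold EA at ha
      rw [mem_filter, mem_SF1] at ha
      refine ⟨ha.1.2, fun p hp hpa => ?_⟩
      rw [mem_filter]
      exact ⟨(prime_dvd_PS hS hp).mp (hpa.trans ha.2), (Nat.le_of_dvd ha.1.1.1 hpa).trans ha.1.1.2⟩)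
    rw [one_mul] at this
    exact this
  have h6 : B2 ≤ Real.exp (2 * (MZ Z - FS S Z)) := by
    have := euler_upper (EB S Z) (((Icc 1 Z).filter Nat.Prime).filter (fun r => r ∉ S)) 2
      zero_le_two (by
      intro b hb
      unfold EB at hb
      rw [mem_filter, mem_SF1] at hb
      refine ⟨hb.1.2, fun p hp hpb => ?_⟩
      rw [mem_filter, mem_filter, mem_Icc]
      refine ⟨⟨⟨hp.pos, (Nat.le_of_dvd hb.1.1.1 hpb).trans hb.1.1.2⟩, hp⟩, ?_⟩
      intro hpS
      have h7 : p ∣ Nat.gcd b (PS S) := Nat.dvd_gcd hpb ((prime_dvd_PS hS hp).mpr hpS)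
      rw [hb.2] at h7
      exact hp.one_lt.ne' (Nat.dvd_one.mp h7))
    refine this.trans (le_of_eq ?_)
    congr 2
    unfold MZ FS
    rw [eq_sub_iff_add_eq, ← Finset.sum_filter_add_sum_filter_not ((Icc 1 Z).filter Nat.Prime)
      (fun r => r ∉ S)]
    congr 1
    apply Finset.sum_congr _ (fun _ _ => rfl)
    ext r
    simp only [mem_filter, mem_Icc, not_not]
    constructor
    · rintro ⟨h7, h8⟩
      exact ⟨⟨⟨(hS r h7).1.pos, h8⟩, (hS r h7).1⟩, h7⟩
    · rintro ⟨⟨⟨_, h8⟩, _⟩, h9⟩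
      exact ⟨h9, h8⟩
  -- combine
  have hU0 : 0 ≤ U Z 1 := Finset.sum_nonneg fun _ _ => by positivity
  have h7 : U Z 1 ≤ Real.exp (FS S Z) * B1 := h2.trans (mul_le_mul_of_nonneg_right h5 hB1n)
  have h8 : (U X 1) ^ 2 ≤ 2 * (A2 * Real.exp (2 * (MZ Z - FS S Z))) := by
    have h9 : A2 * B2 ≤ A2 * Real.exp (2 * (MZ Z - FS S Z)) := mul_le_mul_of_nonneg_left h6 hA2n
    linarith
  calc (U X 1) ^ 2 * U Z 1 * Real.exp (FS S Z)
      ≤ (2 * (A2 * Real.exp (2 * (MZ Z - FS S Z)))) * (Real.exp (FS S Z) * B1) *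
          Real.exp (FS S Z) := by
        apply mul_le_mul_of_nonneg_right _ (Real.exp_pos _).le
        exact mul_le_mul h8 h7 hU0 (by positivity)
    _ = 2 * (Real.exp (2 * (MZ Z - FS S Z)) * Real.exp (FS S Z) * Real.exp (FS S Z)) *
          (A2 * B1) := by ring
    _ = 2 * Real.exp (2 * MZ Z) * (A2 * B1) := by
        rw [← Real.exp_add, ← Real.exp_add]
        congr 3
        ring
    _ ≤ _ := mul_le_mul_of_nonneg_left h1 (by positivity)

end Pool.Agent.TH76.LehP
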