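import Pool.Agent.TH76.LehP.SvB

set_option autoImplicit false

namespace Pool.Agent.TH76.LehP

open Finset ArithmeticFunction BoundingSieve Pool.Agent.Erdos456 Pool.Agent.Erdos456.SieveAux

lemma MZ_le : ∃ C : ℝ, 0 < C ∧ ∀ Z : ℕ, 2 ≤ Z → MZ Z ≤ Real.log (Real.log Z) + C := by
  obtain ⟨C, hC, h⟩ := Pool.Agent.Helper923.HMertens.mertens_ratio
  have hl2 : 0 < Real.log 2 := Real.log_pos (by norm_num)
  refine ⟨1 / 2 + |Real.log (Real.log 2)| + C / Real.log 2, by positivity, fun Z hZ => ?_⟩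
  have h1 := (abs_le.mp (h 2 Z le_rfl hZ)).2
  have hZ' : (2 : ℝ) ≤ Z := by exact_mod_cast hZ
  have hlZ : 0 < Real.log Z := Real.log_pos (by linarith)
  have h2 : MZ Z = 1 / 2 + ∑ p ∈ (Ioc 2 Z).filter Nat.Prime, (1 : ℝ) / p := by
    unfold MZ
    have h3 : (Icc 1 Z).filter Nat.Prime = insert 2 ((Ioc 2 Z).filter Nat.Prime) := by
      ext p
      simp only [mem_insert, mem_filter, mem_Icc, mem_Ioc]
      constructor
      · rintro ⟨⟨_, h5⟩, h6⟩
        have := h6.two_le
        rcases Nat.lt_or_ge 2 p with h7 | h7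
        · exact Or.inr ⟨⟨h7, h5⟩, h6⟩
        · left; omega
      · rintro (rfl | ⟨⟨h5, h6⟩, h7⟩)
        · exact ⟨⟨by norm_num, hZ⟩, Nat.prime_two⟩
        · exact ⟨⟨by omega, h6⟩, h7⟩
    rw [h3, Finset.sum_insert (by simp)]
    norm_num
  push_cast at h1
  rw [Real.log_div hlZ.ne' hl2.ne'] at h1
  rw [h2]
  have h4 := neg_abs_le (Real.log (Real.log 2))
  linarith

/-- the sieve bound -/
theorem sieveS : ∃ C : ℝ, 0 < C ∧ ∀ S : Finset ℕ, OddP S → ∀ N w : ℕ, 2 ≤ N → w ^ 32 ≤ N →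
    (((Icc 1 N).filter (fun m => (m + 1).Prime ∧ ∀ r ∈ S, ¬ r ∣ m)).card : ℝ) ≤
      C * (N / Real.log N) * Real.exp (-FS S w) := by
  obtain ⟨C1, hC1, hM⟩ := MZ_le
  refine ⟨2048 * Real.exp (2 * C1) + 128 * Real.exp C1 + 32, by positivity, ?_⟩
  intro S hS N w hN hw
  have hN' : (2 : ℝ) ≤ N := by exact_mod_cast hN
  have hN0 : (0 : ℝ) < N := by linarith
  have hL : 0 < Real.log N := Real.log_pos (by linarith)
  set X := ⌊(N : ℝ) ^ ((1 : ℝ) / 32)⌋₊ with hX
  have hXle : (X : ℝ) ≤ (N : ℝ) ^ ((1 : ℝ) / 32) := Nat.floor_le (by positivity)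
  have hXlt : (N : ℝ) ^ ((1 : ℝ) / 32) < X + 1 := Nat.lt_floor_add_one _
  have hroot : ((N : ℝ) ^ ((1 : ℝ) / 32)) ^ 32 = N := by
    rw [← Real.rpow_natCast, ← Real.rpow_mul hN0.le]; norm_num
  have hwX : w ≤ X := by
    apply Nat.le_floor
    have h1 : (w : ℝ) ^ 32 ≤ ((N : ℝ) ^ ((1 : ℝ) / 32)) ^ 32 := by
      rw [hroot]; exact_mod_cast hw
    exact (pow_le_pow_iff_left₀ (by positivity) (by positivity) (by norm_num)).mp h1
  have hexpF := Real.exp_pos (-FS S w)
  rcases Nat.lt_or_ge X 2 with hX2 | hX2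
  · -- small `N`
    have hw1 : w ≤ 1 := by omega
    have hF : FS S w = 0 := by
      unfold FS
      rw [Finset.filter_false_of_mem, Finset.sum_empty]
      intro r hr
      have := (hS r hr).2
      omega
    rw [hF, neg_zero, Real.exp_zero, mul_one]
    have h1 : (((Icc 1 N).filter (fun m => (m + 1).Prime ∧ ∀ r ∈ S, ¬ r ∣ m)).card : ℝ) ≤ N := by
      have := Finset.card_filter_le (Icc 1 N) (fun m => (m + 1).Prime ∧ ∀ r ∈ S, ¬ r ∣ m)
      rw [Nat.card_Icc, Nat.add_sub_cancel] at this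
      exact_mod_cast this
    have h2 : Real.log N ≤ 32 := by
      have h3 : (N : ℝ) ^ ((1 : ℝ) / 32) < 2 := by
        have : (X : ℝ) + 1 ≤ 2 := by exact_mod_cast (by omega : X + 1 ≤ 2)
        linarith
      have h4 := Real.log_lt_log (by positivity) h3
      rw [Real.log_rpow hN0] at h4
      have := Real.log_two_lt_d9
      linarith
    have h5 : (N : ℝ) ≤ 32 * (N / Real.log N) := by
      rw [← mul_div_assoc, le_div_iff₀ hL]
      nlinarith
    have h6 : 0 ≤ (N : ℝ) / Real.log N := by positivity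
    have h7 : 0 ≤ (2048 * Real.exp (2 * C1) + 128 * Real.exp C1) * (N / Real.log N) := by positivity
    nlinarith
  -- large `N`
  obtain ⟨Z, hZ⟩ : ∃ Z : ℕ, Z = X ^ 2 := ⟨_, rfl⟩
  obtain ⟨R, hR⟩ : ∃ R : ℕ, R = Z ^ 2 := ⟨_, rfl⟩
  have hX2' : (2 : ℝ) ≤ X := by exact_mod_cast hX2
  have hZX : (Z : ℝ) = (X : ℝ) ^ 2 := by rw [hZ]; push_cast; ring
  have hRX : (R : ℝ) = (X : ℝ) ^ 4 := by rw [hR]; push_cast; rw [hZX]; ring
  have hXZ : X ≤ Z := by rw [hZ]; nlinarith
  have hZ2 : 2 ≤ Z := by omega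
  have hR1 : 1 ≤ R := by rw [hR]; exact Nat.one_le_pow _ _ (by omega)
  have hX32 : (X : ℝ) ^ 32 ≤ N := by
    rw [← hroot]
    exact pow_le_pow_left₀ (by positivity) hXle 32
  have hlX : 0 < Real.log X := Real.log_pos (by linarith)
  have hlZ : Real.log Z = 2 * Real.log X := by rw [hZX, Real.log_pow]; norm_num
  have hZN : Real.log Z ≤ Real.log N := by
    apply Real.log_le_log (by rw [hZX]; positivity)
    refine le_trans ?_ hX32
    rw [hZX]
    exact pow_le_pow_right₀ (by linarith) (by norm_num)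
  have hlXN : Real.log N ≤ 64 * Real.log X := by
    have h1 := Real.log_le_log (by positivity) hXlt.le
    rw [Real.log_rpow hN0] at h1
    have h2 : Real.log ((X : ℝ) + 1) ≤ 2 * Real.log X := by
      have h3 : 2 * Real.log X = Real.log ((X : ℝ) ^ 2) := by rw [Real.log_pow]; norm_num
      rw [h3]
      apply Real.log_le_log (by positivity)
      nlinarith
    linarith
  have hcard := card_le_svS hS N R hR1
  set J := JJ (svS S hS N R) R with hJ
  have hJpos : 0 < J := JJ_pos (s := svS S hS N R) R hR1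
  have hJ1 := JJ_svS hS (N := N) (R := R)
  rw [← hJ] at hJ1
  have hJ2 := J_lower hS X Z hZ
  rw [← hR] at hJ2
  have hUX := U_lower X 1 one_ne_zero
  have hUZ := U_lower Z 1 one_ne_zero
  simp only [Nat.totient_one, Nat.cast_one, div_one, mul_one] at hUX hUZ
  have hUX' : Real.log X ≤ 2 * U X 1 := by
    refine le_trans ?_ hUX
    exact Real.log_le_log (by linarith) (by linarith)
  have hUZ' : Real.log Z ≤ 2 * U Z 1 := by
    refine le_trans ?_ hUZ
    have : (0 : ℝ) < Z := by rw [hZX]; positivity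
    exact Real.log_le_log this (by linarith)
  have hMZ := hM Z hZ2
  have hlZpos : 0 < Real.log Z := by rw [hlZ]; linarith
  have hexpM : Real.exp (2 * MZ Z) ≤ Real.exp (2 * C1) * (Real.log Z) ^ 2 := by
    calc Real.exp (2 * MZ Z) ≤ Real.exp (2 * (Real.log (Real.log Z) + C1)) := by
          apply Real.exp_le_exp.mpr; linarith
      _ = Real.exp (2 * C1) * (Real.log Z) ^ 2 := by
          rw [mul_add, Real.exp_add, two_mul (Real.log (Real.log Z)), Real.exp_add,
            Real.exp_log hlZpos]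
          ring
  -- `J ≥ c log X e^F`
  have hFexp := Real.exp_pos (FS S Z)
  have hJmain : Real.log X * Real.exp (FS S Z) ≤ 32 * Real.exp (2 * C1) * J := by
    have h1 : (Real.log X / 2) ^ 2 * (Real.log X) * Real.exp (FS S Z) ≤
        (U X 1) ^ 2 * U Z 1 * Real.exp (FS S Z) := by
      apply mul_le_mul_of_nonneg_right _ hFexp.le
      apply mul_le_mul
      · exact pow_le_pow_left₀ (by positivity) (by linarith) 2
      · linarith
      · exact hlX.le
      · positivity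
    have hsum0 : 0 ≤ ∑ l ∈ SF R 1, (wS S l : ℝ) / l := Finset.sum_nonneg fun _ _ => by positivity
    have h2 : 2 * Real.exp (2 * MZ Z) * ∑ l ∈ SF R 1, (wS S l : ℝ) / l ≤
        2 * (Real.exp (2 * C1) * (Real.log Z) ^ 2) * J := by
      apply mul_le_mul _ hJ1 hsum0 (by positivity)
      linarith
    have h3 := (h1.trans hJ2).trans h2
    rw [hlZ] at h3
    have h4 : (Real.log X / 2) ^ 2 * Real.log X * Real.exp (FS S Z) =
        (Real.log X) ^ 2 * (Real.log X * Real.exp (FS S Z) / 4) := by ring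
    have h5 : 2 * (Real.exp (2 * C1) * (2 * Real.log X) ^ 2) * J =
        (Real.log X) ^ 2 * (8 * Real.exp (2 * C1) * J) := by ring
    rw [h4, h5] at h3
    have h6 := le_of_mul_le_mul_left h3 (by positivity)
    linarith
  have hFw : FS S w ≤ FS S Z := FS_mono S (hwX.trans hXZ)
  have hexpw : Real.exp (-FS S Z) ≤ Real.exp (-FS S w) := Real.exp_le_exp.mpr (by linarith)
  -- main term
  have hmain : (N : ℝ) / J ≤ 2048 * Real.exp (2 * C1) * (N / Real.log N) * Real.exp (-FS S w) := by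
    have h1 : Real.log N * Real.exp (FS S Z) ≤ 2048 * Real.exp (2 * C1) * J := by
      have := mul_le_mul_of_nonneg_right hlXN hFexp.le
      linarith
    have h2 : (N : ℝ) / J ≤ 2048 * Real.exp (2 * C1) * (N / Real.log N) * Real.exp (-FS S Z) := by
      rw [div_le_iff₀ hJpos, Real.exp_neg]
      have h3 : 2048 * Real.exp (2 * C1) * (N / Real.log N) * (Real.exp (FS S Z))⁻¹ * J =
          N * ((2048 * Real.exp (2 * C1) * J) / (Real.log N * Real.exp (FS S Z))) := by
        field_simp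
      rw [h3]
      have h4 : 1 ≤ (2048 * Real.exp (2 * C1) * J) / (Real.log N * Real.exp (FS S Z)) := by
        rw [one_le_div (by positivity)]
        exact h1
      exact le_mul_of_one_le_right hN0.le h4
    exact h2.trans (mul_le_mul_of_nonneg_left hexpw (by positivity))
  -- error terms
  have herr : (R : ℝ) + (R : ℝ) ^ 2 * ((R : ℝ) * R) ^ 2 ≤ 2 * (N : ℝ) ^ ((3 : ℝ) / 4) := by
    have hX24 : (X : ℝ) ^ 24 ≤ (N : ℝ) ^ ((3 : ℝ) / 4) := by
      calc (X : ℝ) ^ 24 ≤ ((N : ℝ) ^ ((1 : ℝ) / 32)) ^ 24 := pow_le_pow_left₀ (by positivity) hXle 24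
        _ = (N : ℝ) ^ ((3 : ℝ) / 4) := by
            rw [← Real.rpow_natCast, ← Real.rpow_mul hN0.le]; norm_num
    have h1 : (R : ℝ) ^ 2 * ((R : ℝ) * R) ^ 2 = (X : ℝ) ^ 24 := by rw [hRX]; ring
    have h2 : (R : ℝ) ≤ (X : ℝ) ^ 24 := by
      rw [hRX]
      exact pow_le_pow_right₀ (by linarith) (by norm_num)
    linarith
  have herr2 : (N : ℝ) ^ ((3 : ℝ) / 4) ≤ 64 * Real.exp C1 * (N / Real.log N) * Real.exp (-FS S w) := by
    have hlog8 : (Real.log N) ^ 2 ≤ 64 * (N : ℝ) ^ ((1 : ℝ) / 4) := by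
      have h1 : Real.log N ≤ (N : ℝ) ^ ((1 : ℝ) / 8) / (1 / 8) :=
        Real.log_le_rpow_div hN0.le (by norm_num)
      calc (Real.log N) ^ 2 ≤ ((N : ℝ) ^ ((1 : ℝ) / 8) / (1 / 8)) ^ 2 :=
            pow_le_pow_left₀ hL.le h1 2
        _ = 64 * ((N : ℝ) ^ ((1 : ℝ) / 8)) ^ 2 := by ring
        _ = 64 * (N : ℝ) ^ ((1 : ℝ) / 4) := by
            rw [← Real.rpow_natCast, ← Real.rpow_mul hN0.le]; norm_num
    have h2 : Real.exp (FS S w) ≤ Real.exp C1 * Real.log N := by
      calc Real.exp (FS S w) ≤ Real.exp (Real.log (Real.log Z) + C1) := by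
            apply Real.exp_le_exp.mpr
            exact (hFw.trans (FS_le_MZ hS Z)).trans hMZ
        _ = Real.exp C1 * Real.log Z := by
            rw [Real.exp_add, Real.exp_log hlZpos]; ring
        _ ≤ _ := mul_le_mul_of_nonneg_left hZN (Real.exp_pos _).le
    rw [Real.exp_neg]
    have h3 : 64 * Real.exp C1 * (N / Real.log N) * (Real.exp (FS S w))⁻¹ =
        (64 * Real.exp C1 * N) / (Real.log N * Real.exp (FS S w)) := by field_simp
    rw [h3, le_div_iff₀ (by positivity)]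
    calc (N : ℝ) ^ ((3 : ℝ) / 4) * (Real.log N * Real.exp (FS S w))
        ≤ (N : ℝ) ^ ((3 : ℝ) / 4) * (Real.log N * (Real.exp C1 * Real.log N)) := by
          apply mul_le_mul_of_nonneg_left _ (by positivity)
          exact mul_le_mul_of_nonneg_left h2 hL.le
      _ = Real.exp C1 * ((N : ℝ) ^ ((3 : ℝ) / 4) * (Real.log N) ^ 2) := by ring
      _ ≤ Real.exp C1 * ((N : ℝ) ^ ((3 : ℝ) / 4) * (64 * (N : ℝ) ^ ((1 : ℝ) / 4))) := by
          apply mul_le_mul_of_nonneg_left _ (Real.exp_pos _).le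
          exact mul_le_mul_of_nonneg_left hlog8 (by positivity)
      _ = 64 * Real.exp C1 * ((N : ℝ) ^ ((3 : ℝ) / 4) * (N : ℝ) ^ ((1 : ℝ) / 4)) := by ring
      _ = 64 * Real.exp C1 * N := by rw [← Real.rpow_add hN0]; norm_num
  have hlast : 0 ≤ 32 * (N / Real.log N) * Real.exp (-FS S w) := by positivity
  have hexpand : (2048 * Real.exp (2 * C1) + 128 * Real.exp C1 + 32) * (N / Real.log N) *
      Real.exp (-FS S w) = 2048 * Real.exp (2 * C1) * (N / Real.log N) * Real.exp (-FS S w) +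
      2 * (64 * Real.exp C1 * (N / Real.log N) * Real.exp (-FS S w)) +
      32 * (N / Real.log N) * Real.exp (-FS S w) := by ring
  rw [hexpand]
  linarith only [hcard, hmain, herr, herr2, hlast]

end Pool.Agent.TH76.LehP
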