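import Pool.Agent.TH76.LehP.Iter

set_option autoImplicit false

namespace Pool.Agent.TH76.LehP

open Finset

/-- the exponent -/
noncomputable def EX (δ k : ℝ) : ℝ := max ((1 + δ) * k) (Real.exp (δ * k))

/-- **unified bound** for `n` coprime to `φ(n)` with `n + 1 ≥ 2 φ(n)` -/
theorem unified : ∃ δ c : ℝ, 0 < δ ∧ 0 < c ∧ ∀ n : ℕ, 2 < n → Nat.Coprime n n.totient →
    2 * n.totient ≤ n + 1 →
    c * (n.minFac : ℝ) ^ (max ((1 + δ) * ((n : ℝ) / n.totient))
      (Real.exp (δ * ((n : ℝ) / n.totient)))) ≤ (n.primeFactors.card : ℝ) := by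
  obtain ⟨δ₁, hδ₁, P₀, hL⟩ := main_large
  obtain ⟨C, hC, hQ⟩ := quot_bound
  obtain ⟨K, hK⟩ : ∃ K : ℝ, K = C * (8 * C + 4) := ⟨_, rfl⟩
  have hK0 : 0 < K := by rw [hK]; positivity
  obtain ⟨δ, hδ⟩ : ∃ δ : ℝ, δ = min δ₁ (min (1 / (2 * C)) (min (Real.log (3 / 2) / K) 1)) := ⟨_, rfl⟩
  have hl : 0 < Real.log (3 / 2) := Real.log_pos (by norm_num)
  have hδ0 : 0 < δ := by rw [hδ]; positivity
  have hδa : δ ≤ δ₁ := by rw [hδ]; exact min_le_left _ _
  have hδb : δ ≤ 1 / (2 * C) := by
    rw [hδ]; exact (min_le_right _ _).trans (min_le_left _ _)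
  have hδc : δ ≤ Real.log (3 / 2) / K := by
    rw [hδ]; exact (min_le_right _ _).trans ((min_le_right _ _).trans (min_le_left _ _))
  have hδd : δ ≤ 1 := by
    rw [hδ]; exact (min_le_right _ _).trans ((min_le_right _ _).trans (min_le_right _ _))
  refine ⟨δ, ((P₀ : ℝ) + 1) ^ (-(2 * K)), hδ0, by positivity, fun n hn hco h2 => ?_⟩
  have hQn := hQ n hn hco
  have hpp : n.minFac.Prime := Nat.minFac_prime (by omega)
  obtain ⟨p, hp⟩ : ∃ p : ℝ, p = (n.minFac : ℝ) := ⟨_, rfl⟩
  have hp2 : 2 ≤ p := by rw [hp]; exact_mod_cast hpp.two_le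
  have hlp : 0 < Real.log p := Real.log_pos (by linarith)
  obtain ⟨W, hW⟩ : ∃ W : ℝ, W = (n.primeFactors.card : ℝ) := ⟨_, rfl⟩
  have hW1 : 1 ≤ W := by
    rw [hW]
    exact_mod_cast Finset.card_pos.mpr (Nat.nonempty_primeFactors.mpr (by omega))
  have hn0 : (0 : ℝ) < n := by exact_mod_cast (by omega : 0 < n)
  have htot2 : (2 : ℝ) ≤ n.totient := by
    have h3 : 0 < n.totient := Nat.totient_pos.mpr (by omega)
    obtain ⟨m, hm⟩ := Nat.totient_even hn
    exact_mod_cast (by omega : 2 ≤ n.totient)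
  have htot : (0 : ℝ) < n.totient := by linarith
  obtain ⟨k, hk⟩ : ∃ k : ℝ, k = (n : ℝ) / n.totient := ⟨_, rfl⟩
  have hk1 : 3 / 2 ≤ k := by
    have h3 : (2 : ℝ) * n.totient ≤ n + 1 := by exact_mod_cast h2
    rw [hk, le_div_iff₀ htot]
    linarith
  rw [← hk, ← hp, ← hW] at hQn
  rw [← hk, ← hp, ← hW]
  have hc1 : ((P₀ : ℝ) + 1) ^ (-(2 * K)) ≤ 1 := by
    apply Real.rpow_le_one_of_one_le_of_nonpos
    · have : (0 : ℝ) ≤ P₀ := Nat.cast_nonneg _
      linarith
    · linarith
  have hcpos : 0 < ((P₀ : ℝ) + 1) ^ (-(2 * K)) := by positivity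
  obtain ⟨u, hu⟩ : ∃ u : ℝ, u = Real.log W / Real.log p := ⟨_, rfl⟩
  have hlW : 0 ≤ Real.log W := Real.log_nonneg hW1
  have hu0 : 0 ≤ u := by rw [hu]; positivity
  have hpu : p ^ u = W := by
    rw [Real.rpow_def_of_pos (by linarith), hu]
    have : Real.log p * (Real.log W / Real.log p) = Real.log W := by field_simp
    rw [this, Real.exp_log (by linarith)]
  rcases le_or_gt K k with hkK | hkK
  · -- large quotient
    rw [← hu] at hQn
    obtain ⟨s, hs⟩ : ∃ s : ℝ, s = k / C := ⟨_, rfl⟩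
    have hs1 : 8 * C + 4 ≤ s := by
      rw [hs, le_div_iff₀ hC]
      rw [hK] at hkK
      linarith
    have hs2 : s - 1 ≤ Real.log (1 + u) := by
      have h3 : s ≤ 1 + Real.log (1 + u) := by
        rw [hs, div_le_iff₀ hC]
        linarith
      linarith
    have hs3 : Real.exp (s - 1) ≤ 1 + u := by
      rw [← Real.exp_log (by linarith : (0 : ℝ) < 1 + u)]
      exact Real.exp_le_exp.mpr hs2
    have hks : k = C * s := by rw [hs]; field_simp
    have h4 : Real.exp (s / 2) * (s / 2) ≤ Real.exp (s - 1) := by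
      have h5 : Real.exp (s - 1) = Real.exp (s / 2) * Real.exp (s / 2 - 1) := by
        rw [← Real.exp_add]; congr 1; ring
      rw [h5]
      apply mul_le_mul_of_nonneg_left _ (Real.exp_pos _).le
      have := Real.add_one_le_exp (s / 2 - 1)
      linarith
    have h6 : s / 2 + 1 ≤ Real.exp (s / 2) := Real.add_one_le_exp _
    have hexp0 := Real.exp_pos (s / 2)
    -- first part
    have hE1 : Real.exp (δ * k) ≤ u := by
      have h7 : Real.exp (δ * k) ≤ Real.exp (s / 2) := by
        apply Real.exp_le_exp.mpr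
        have h8 : δ * k ≤ 1 / (2 * C) * k := mul_le_mul_of_nonneg_right hδb (by linarith)
        have h9 : 1 / (2 * C) * k = s / 2 := by rw [hs]; field_simp
        linarith
      have h10 : 2 * Real.exp (s / 2) ≤ Real.exp (s / 2) * (s / 2) := by
        have : 2 ≤ s / 2 := by linarith
        nlinarith
      linarith
    have hE2 : (1 + δ) * k ≤ u := by
      have h11 : (1 + δ) * k ≤ 2 * k := mul_le_mul_of_nonneg_right (by linarith) (by linarith)
      have h12 : 2 * k + 1 ≤ Real.exp (s / 2) * (s / 2) := by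
        have h13 : (s / 2 + 1) * (s / 2) ≤ Real.exp (s / 2) * (s / 2) :=
          mul_le_mul_of_nonneg_right h6 (by linarith)
        have h14 : 2 * k + 1 ≤ (s / 2 + 1) * (s / 2) := by
          rw [hks]
          have h15 : (8 * C + 4) * s ≤ s * s := mul_le_mul_of_nonneg_right hs1 (by linarith)
          nlinarith
        linarith
      linarith
    have hE : max ((1 + δ) * k) (Real.exp (δ * k)) ≤ u := max_le hE2 hE1
    calc ((P₀ : ℝ) + 1) ^ (-(2 * K)) * p ^ (max ((1 + δ) * k) (Real.exp (δ * k)))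
        ≤ 1 * p ^ u := by
          apply mul_le_mul hc1 _ (by positivity) zero_le_one
          exact Real.rpow_le_rpow_of_exponent_le (by linarith) hE
      _ = W := by rw [one_mul, hpu]
  · -- small quotient
    have hexp : Real.exp (δ * k) ≤ 3 / 2 := by
      have h3 : δ * k ≤ Real.log (3 / 2) := by
        calc δ * k ≤ (Real.log (3 / 2) / K) * k := mul_le_mul_of_nonneg_right hδc (by linarith)
          _ ≤ (Real.log (3 / 2) / K) * K := mul_le_mul_of_nonneg_left hkK.le (by positivity)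
          _ = Real.log (3 / 2) := by field_simp
      calc Real.exp (δ * k) ≤ Real.exp (Real.log (3 / 2)) := Real.exp_le_exp.mpr h3
        _ = 3 / 2 := Real.exp_log (by norm_num)
    have hmax : max ((1 + δ) * k) (Real.exp (δ * k)) = (1 + δ) * k := by
      apply max_eq_left
      have : k ≤ (1 + δ) * k := le_mul_of_one_le_left (by linarith) (by linarith)
      linarith
    rw [hmax]
    rcases Nat.lt_or_ge n.minFac P₀ with hlt | hge
    · have hpP : p ≤ (P₀ : ℝ) + 1 := by
        have : (n.minFac : ℝ) ≤ P₀ := by exact_mod_cast hlt.le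
        rw [hp]; linarith
      have hP1 : (1 : ℝ) ≤ (P₀ : ℝ) + 1 := by
        have : (0 : ℝ) ≤ P₀ := Nat.cast_nonneg _
        linarith
      have hexpo : (1 + δ) * k ≤ 2 * K := by
        calc (1 + δ) * k ≤ 2 * k := mul_le_mul_of_nonneg_right (by linarith) (by linarith)
          _ ≤ 2 * K := by linarith
      calc ((P₀ : ℝ) + 1) ^ (-(2 * K)) * p ^ ((1 + δ) * k)
          ≤ ((P₀ : ℝ) + 1) ^ (-(2 * K)) * ((P₀ : ℝ) + 1) ^ (2 * K) := by
            apply mul_le_mul_of_nonneg_left _ hcpos.le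
            calc p ^ ((1 + δ) * k) ≤ ((P₀ : ℝ) + 1) ^ ((1 + δ) * k) :=
                  Real.rpow_le_rpow (by linarith) hpP (by positivity)
              _ ≤ ((P₀ : ℝ) + 1) ^ (2 * K) := Real.rpow_le_rpow_of_exponent_le hP1 hexpo
        _ = 1 := by rw [← Real.rpow_add (by linarith)]; simp
        _ ≤ W := hW1
    · have h3 := hL n (by omega) hco h2 hge
      rw [← hk, ← hp, ← hW] at h3
      calc ((P₀ : ℝ) + 1) ^ (-(2 * K)) * p ^ ((1 + δ) * k) ≤ 1 * p ^ ((1 + δ₁) * k) := by
            apply mul_le_mul hc1 _ (by positivity) zero_le_one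
            apply Real.rpow_le_rpow_of_exponent_le (by linarith)
            apply mul_le_mul_of_nonneg_right _ (by linarith)
            linarith
        _ = p ^ ((1 + δ₁) * k) := one_mul _
        _ ≤ W := h3

end Pool.Agent.TH76.LehP
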